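import Pool.Agent.L0h53.MD.Orb
import Pool.Agent.W726.NS.MainAbs

/-! Sparse orbits, and the main theorem. -/

set_option autoImplicit false
set_option linter.unusedSectionVars false

open Finset Filter Topology

namespace Pool.Agent.L0h53.MD

open Pool.Agent.Helper188.NCM Pool.Agent.TH261.AB Pool.Agent.W726.NS Pool.Agent.H379R3.CS
open Pool.Agent.TH261.NP (GoodP SN SN_vav SN_norm)

section blocks

variable {U : Type} [CStarAlgebra U]

/-- if the orbit of `x` contains blocks of `M` terms all of whose combinations have norm at most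
`4 √M`, then the averages with bounded weights tend to zero in norm -/
theorem weights_of_blocks (α : U →⋆ₐ[ℂ] U) (x : U) (hx : ‖x‖ ≤ 1)
    (h : ∀ M : ℕ, ∃ n : Fin M → ℕ, ∀ c : Fin M → ℂ, (∀ k, ‖c k‖ ≤ 1) →
      ‖∑ k, c k • (α^[n k]) x‖ ≤ 4 * Real.sqrt M) (w : ℕ → ℂ) (hw : ∀ n, ‖w n‖ ≤ 1) :
    ∀ ε : ℝ, 0 < ε → ∃ N₀ : ℕ, ∀ N : ℕ, N₀ ≤ N →
      ‖∑ n ∈ range N, w n • (α^[n]) x‖ ≤ ε * N := by
  intro ε hε
  obtain ⟨M, hM⟩ := exists_nat_ge ((8 / ε) ^ 2 + 1)
  have hMpos : (0 : ℝ) < M := lt_of_lt_of_le (by positivity) hM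
  have hsq : 8 / ε ≤ Real.sqrt M := by
    apply Real.le_sqrt_of_sq_le
    linarith
  obtain ⟨n, hn⟩ := h M
  obtain ⟨B, hB⟩ : ∃ B : ℕ, ∀ k, n k ≤ B :=
    ⟨Finset.univ.sup n, fun k => Finset.le_sup (f := n) (mem_univ k)⟩
  obtain ⟨N₀, hN₀⟩ := exists_nat_ge (4 * B / ε)
  refine ⟨N₀, fun N hN => ?_⟩
  set a : ℕ → U := fun m => w m • (α^[m]) x with ha
  have ha1 : ∀ m, ‖a m‖ ≤ 1 := by
    intro m
    rw [ha]
    simp only [norm_smul]
    calc ‖w m‖ * ‖(α^[m]) x‖ ≤ 1 * 1 := by
          gcongr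
          · exact hw m
          · exact (norm_iter_le α m x).trans hx
      _ = 1 := one_mul 1
  have hiter : ∀ (m : ℕ) (c : Fin M → ℂ), ∑ k, c k • (α^[m]) ((α^[n k]) x) =
      (α^[m]) (∑ k, c k • (α^[n k]) x) := by
    intro m c
    induction m with
    | zero => simp
    | succ m ih =>
      simp only [Function.iterate_succ_apply'] at ih ⊢
      rw [← ih, map_sum]
      exact sum_congr rfl fun k _ => by rw [map_smul]
  have hblock : ∀ m : ℕ, ‖∑ k, a (m + n k)‖ ≤ 4 * Real.sqrt M := by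
    intro m
    have e : ∑ k, a (m + n k) = (α^[m]) (∑ k, w (m + n k) • (α^[n k]) x) := by
      rw [← hiter]
      refine sum_congr rfl fun k _ => ?_
      rw [ha]
      simp only
      rw [Function.iterate_add_apply]
    rw [e]
    exact (norm_iter_le α m _).trans (hn _ fun k => hw _)
  set S : U := ∑ m ∈ range N, a m with hS
  have h1 : (M : ℂ) • S = ∑ k : Fin M, (∑ m ∈ range N, a m - ∑ m ∈ range N, a (m + n k)) +
      ∑ m ∈ range N, ∑ k, a (m + n k) := by
    rw [sum_sub_distrib, sum_comm (s := range N)]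
    simp only [sub_add_cancel, sum_const, card_univ, Fintype.card_fin]
    rw [hS, ← Nat.cast_smul_eq_nsmul ℂ]
  have h2 : (M : ℝ) * ‖S‖ ≤ M * (2 * B) + N * (4 * Real.sqrt M) := by
    have e : (M : ℝ) * ‖S‖ = ‖(M : ℂ) • S‖ := by rw [norm_smul]; simp
    rw [e, h1]
    refine (norm_add_le _ _).trans (add_le_add ?_ ?_)
    · refine (norm_sum_le _ _).trans ?_
      refine (sum_le_sum (g := fun _ => (2 * B : ℝ)) fun k _ => ?_).trans ?_
      · refine (shift_sum a ha1 N (n k)).trans ?_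
        have : (n k : ℝ) ≤ B := by exact_mod_cast hB k
        linarith
      · simp
    · refine (norm_sum_le _ _).trans ?_
      refine (sum_le_sum (g := fun _ => (4 * Real.sqrt M : ℝ)) fun m _ => hblock m).trans ?_
      simp
  have h3 : ‖S‖ * Real.sqrt M ≤ 2 * B * Real.sqrt M + 4 * N := by
    have hs : 0 < Real.sqrt M := Real.sqrt_pos.mpr hMpos
    have hs2 : Real.sqrt M * Real.sqrt M = M := Real.mul_self_sqrt hMpos.le
    have h4 : Real.sqrt M * (‖S‖ * Real.sqrt M) ≤
        Real.sqrt M * (2 * B * Real.sqrt M + 4 * N) := by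
      calc Real.sqrt M * (‖S‖ * Real.sqrt M) = (Real.sqrt M * Real.sqrt M) * ‖S‖ := by ring
        _ = M * ‖S‖ := by rw [hs2]
        _ ≤ M * (2 * B) + N * (4 * Real.sqrt M) := h2
        _ = (Real.sqrt M * Real.sqrt M) * (2 * B) + N * (4 * Real.sqrt M) := by rw [hs2]
        _ = Real.sqrt M * (2 * B * Real.sqrt M + 4 * N) := by ring
    exact le_of_mul_le_mul_left h4 hs
  have hs : 0 < Real.sqrt M := Real.sqrt_pos.mpr hMpos
  have h5 : 4 * (B : ℝ) ≤ ε * N := by
    have : 4 * B / ε ≤ (N : ℝ) := hN₀.trans (by exact_mod_cast hN)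
    rw [div_le_iff₀ hε] at this
    linarith
  have h6 : 8 ≤ ε * Real.sqrt M := by
    rw [div_le_iff₀ hε] at hsq
    linarith
  have h7 : ‖S‖ * Real.sqrt M ≤ (ε * N) * Real.sqrt M := by
    have h8 : (8 : ℝ) * N ≤ ε * Real.sqrt M * N := by gcongr
    have h9 : 4 * (B : ℝ) * Real.sqrt M ≤ ε * N * Real.sqrt M := by gcongr
    nlinarith
  exact le_of_mul_le_mul_right h7 hs

/-- blocks of small norm -/
def Blk (α : U →⋆ₐ[ℂ] U) (x : U) : Prop :=
  ‖x‖ ≤ 1 ∧ ∀ M : ℕ, ∃ n : Fin M → ℕ, ∀ c : Fin M → ℂ, (∀ k, ‖c k‖ ≤ 1) →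
      ‖∑ k, c k • (α^[n k]) x‖ ≤ 4 * Real.sqrt M

/-- sparse orbits are Möbius orthogonal, with phases -/
theorem goodP_of_blocks {α : U →⋆ₐ[ℂ] U} {x : U} (hb : Blk α x) : GoodP α x := by
  obtain ⟨hx, h⟩ := hb
  intro τ K _ _ _ π ξ
  have hw : ∀ n : ℕ, ‖mob n * ee (n * τ)‖ ≤ 1 := fun n => by
    rw [norm_mul, norm_ee, mul_one]; exact norm_mob_le n
  rw [Metric.tendsto_atTop]
  intro ε hε
  have hc : 0 < ‖ξ‖ + 1 := by positivity
  obtain ⟨N₀, hN₀⟩ := weights_of_blocks α x hx h _ hw (ε / 2 / (‖ξ‖ + 1)) (by positivity)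
  refine ⟨N₀ + 1, fun N hN => ?_⟩
  rw [dist_zero_right]
  have hNpos : (0 : ℝ) < N := by
    have : 0 < N := by omega
    exact_mod_cast this
  have h1 := hN₀ N (by omega)
  have h2 : ‖SN α x τ N‖ ≤ ε / 2 / (‖ξ‖ + 1) := by
    rw [SN, norm_smul, norm_inv, Complex.norm_natCast, inv_mul_le_iff₀ hNpos, mul_comm]
    exact h1
  rw [← SN_vav]
  calc ‖π (SN α x τ N) ξ‖ ≤ ‖SN α x τ N‖ * ‖ξ‖ := by
        refine (ContinuousLinearMap.le_opNorm _ _).trans ?_
        gcongr
        exact NonUnitalStarAlgHom.norm_apply_le π _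
    _ ≤ (ε / 2 / (‖ξ‖ + 1)) * (‖ξ‖ + 1) := by
        gcongr
        linarith
    _ = ε / 2 := by field_simp
    _ < ε := by linarith

end blocks

variable {A G : Type} [CStarAlgebra A] [Group G] [Countable G] {X : Type*} [TopologicalSpace X]
  [CompactSpace X] [T2Space X] [MulAction G X]

/-- **The two kinds of orbits of the generators.** -/
theorem blk_or_tame {u : G → A} {τ : A →L[ℂ] ℂ} (hu : RedAlg u τ) (hG : ConvergenceAction G X)
    [Infinite X] (hst : ∀ p : X, Cov (MulAction.stabilizer G p))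
    (σ : MulAut G) (hU : QUni σ) (α : A →⋆ₐ[ℂ] A)
    (hD : Dat u α σ) (g : G) : Blk α (u g) ∨ TameG σ g := by
  classical
  by_cases hinj : Function.Injective (fun n : ℕ => (σ ^ n) g)
  · rcases dich2 hG hst σ hU g hinj with ⟨S, hS, hSf⟩ | hT
    · refine Or.inl ⟨norm_unitary_le (hu.unit g), fun M => ?_⟩
      have hSi : Infinite S := hS.to_subtype
      let e : ℕ ↪o ℕ := Nat.orderEmbeddingOfSet S
      have heS : ∀ n, e n ∈ S := fun n => by
        have : e n ∈ Set.range (Nat.orderEmbeddingOfSet S) := ⟨n, rfl⟩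
        rwa [Nat.orderEmbeddingOfSet_range] at this
      obtain ⟨o⟩ : Nonempty X := inferInstance
      obtain ⟨n, -, hn⟩ := sparse_norm hG o (fun k => (σ ^ (e k)) g)
        (fun a b hab => e.injective (hinj hab)) (by
          intro p q
          by_cases hne : ∃ k0, ((σ ^ (e k0)) g) • p = q
          · obtain ⟨k0, hk0⟩ := hne
            have h1 := hSf p ((σ ^ (e k0)) g)
            refine (h1.preimage (f := e) e.injective.injOn).subset ?_
            intro k hk
            refine ⟨heS k, ?_⟩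
            have hk' : ((σ ^ (e k)) g) • p = q := hk
            rw [MulAction.mem_stabilizer_iff, mul_smul, hk', ← hk0, inv_smul_smul]
          · convert Set.finite_empty (α := ℕ)
            ext k
            simp only [Set.mem_ofPred_eq, Set.mem_empty_iff_false, iff_false]
            exact fun h => hne ⟨k, h⟩) M
      refine ⟨fun k => e (n k), fun c hc => ?_⟩
      choose c' hc' hc'' using fun k : Fin M => hD.iter (e (n k)) g
      have h3 : ∀ k, ‖c k * c' k‖ ≤ 1 := fun k => by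
        rw [norm_mul, hc' k, mul_one]; exact hc k
      have h2 := hn (fun k => ((‖c k * c' k‖ : ℝ) : ℂ)) (fun k => by
        rw [Complex.norm_real, norm_norm]; exact h3 k)
      have h4 := hu.norm_sum_le (fun k => (σ ^ (e (n k))) g) (fun k => c k * c' k)
        (by positivity) h2
      refine le_trans (le_of_eq ?_) h4
      congr 1
      refine Finset.sum_congr rfl fun k _ => ?_
      rw [hc'' k, smul_smul]
    · exact Or.inr hT
  · obtain ⟨i, j, hij, hne⟩ : ∃ i j : ℕ, (σ ^ i) g = (σ ^ j) g ∧ i ≠ j := by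
      simpa [Function.Injective] using hinj
    wlog hlt : i < j generalizing i j
    · exact this j i hij.symm hne.symm (by omega)
    obtain ⟨m, rfl⟩ : ∃ m, j = i + m := ⟨j - i, by omega⟩
    have h1 : (σ ^ m) g = g := by
      rw [pow_add, MulAut.mul_apply] at hij
      exact ((σ ^ i).injective hij).symm
    exact Or.inr (tameG_of_periodic (by omega) h1)

end Pool.Agent.L0h53.MD
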