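import Pool.Agent.L0h53.MD.Lin

/-! Tame orbits. -/

set_option autoImplicit false
set_option linter.unusedSectionVars false

namespace Pool.Agent.L0h53.MD

open Set Pool.Agent.W726.NS

section group

variable {G : Type*} [Group G]

/-- the difference map of `σ ^ m` -/
def gd (σ : MulAut G) (m : ℕ) (g : G) : G := g⁻¹ * (σ ^ m) g

/-- the automorphism is quasi-unipotent on the invariant finitely generated abelian subgroups -/
def QUni (σ : MulAut G) : Prop :=
  ∀ A : Subgroup G, Ab A → A.FG → ∀ m : ℕ, 0 < m → (∀ z, (σ ^ m) z ∈ A ↔ z ∈ A) →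
    ∃ j k : ℕ, 0 < j ∧ ∀ a ∈ A, ((gd σ (m * j))^[k]) a = 1

/-- the orbit of `g` is tame -/
def TameG (σ : MulAut G) (g : G) : Prop :=
  ∃ m : ℕ, 0 < m ∧ (∃ k : ℕ, ((gd σ m)^[k]) (gd σ m g) = 1) ∧
    ∀ i j : ℕ, Commute (((gd σ m)^[i]) (gd σ m g)) (((gd σ m)^[j]) (gd σ m g))

lemma gd_comm (σ : MulAut G) (m n i : ℕ) (g : G) :
    ((gd σ m)^[i]) ((σ ^ n) g) = (σ ^ n) (((gd σ m)^[i]) g) := by
  induction i generalizing g with
  | zero => rfl
  | succ i ih =>
    rw [Function.iterate_succ_apply, Function.iterate_succ_apply, ← ih]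
    congr 1
    rw [gd, gd, map_mul, map_inv, ← MulAut.mul_apply, ← MulAut.mul_apply, ← pow_add, ← pow_add,
      add_comm]

lemma tameG_of_shift {σ : MulAut G} {g : G} (n : ℕ) (h : TameG σ ((σ ^ n) g)) : TameG σ g := by
  have e : ∀ (m i : ℕ), ((gd σ m)^[i]) (gd σ m ((σ ^ n) g)) =
      (σ ^ n) (((gd σ m)^[i]) (gd σ m g)) := by
    intro m i
    rw [← Function.iterate_succ_apply, gd_comm, Function.iterate_succ_apply]
  obtain ⟨m, hm, ⟨k, hk⟩, hc⟩ := h
  refine ⟨m, hm, ⟨k, (σ ^ n).injective ?_⟩, fun i j => ?_⟩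
  · rw [← e, hk, map_one]
  · have h1 := hc i j
    rw [e, e] at h1
    have h2 : (σ ^ n) (((gd σ m)^[i]) (gd σ m g) * ((gd σ m)^[j]) (gd σ m g)) =
        (σ ^ n) (((gd σ m)^[j]) (gd σ m g) * ((gd σ m)^[i]) (gd σ m g)) := by
      rw [map_mul, map_mul]; exact h1.eq
    exact (σ ^ n).injective h2

lemma inv_closure (f : MulAut G) (E : Subgroup G) (h : ∀ z, f z ∈ E ↔ z ∈ E) (d : ℕ) :
    ∀ z ∈ Subgroup.closure ((fun e : G => e ^ d) '' (E : Set G)),
      f z ∈ Subgroup.closure ((fun e : G => e ^ d) '' (E : Set G)) := by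
  intro z hz
  induction hz using Subgroup.closure_induction with
  | mem x hx =>
    obtain ⟨e, he, rfl⟩ := hx
    refine Subgroup.subset_closure ⟨f e, (h e).mpr he, ?_⟩
    show (f e) ^ d = f (e ^ d)
    rw [map_pow]
  | one => rw [map_one]; exact Subgroup.one_mem _
  | mul x y _ _ hx hy => rw [map_mul]; exact Subgroup.mul_mem _ hx hy
  | inv x _ hx => rw [map_inv]; exact Subgroup.inv_mem _ hx

lemma relIndex_of_cover {E B : Subgroup G} {R : Finset G} (hR : ∀ g ∈ E, ∃ r ∈ R, r⁻¹ * g ∈ B) :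
    B.relIndex E ≠ 0 := by
  classical
  have hfin : Finite (E ⧸ B.subgroupOf E) := by
    choose! r hr hi using hR
    have hinj : Function.Injective (fun q : E ⧸ B.subgroupOf E =>
        (⟨r (q.out : E), hr _ (q.out : E).2⟩ : R)) := by
      intro q q' hq
      have h1 : r ((q.out : E) : G) = r ((q'.out : E) : G) := congrArg Subtype.val hq
      rw [← QuotientGroup.out_eq' q, ← QuotientGroup.out_eq' q', QuotientGroup.eq,
        Subgroup.mem_subgroupOf]
      have h2 := hi _ (q.out : E).2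
      have h3 := hi _ (q'.out : E).2
      rw [← h1] at h3
      have e : (((q.out : E)⁻¹ * (q'.out : E) : E) : G) =
          ((r ((q.out : E) : G))⁻¹ * ((q.out : E) : G))⁻¹ *
            ((r ((q.out : E) : G))⁻¹ * ((q'.out : E) : G)) := by
        rw [Subgroup.coe_mul, Subgroup.coe_inv]
        group
      rw [e]
      exact B.mul_mem (B.inv_mem h2) h3
    exact Finite.of_injective _ hinj
  exact (Subgroup.finiteIndex_of_finite_quotient (H := B.subgroupOf E)).index_ne_zero

/-- an orbit which stays in a coset of an invariant virtually abelian subgroup is tame -/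
theorem tame_of_cov {σ : MulAut G} (hU : QUni σ) {E : Subgroup G} (hE : Cov E) {D : ℕ} (hD : 0 < D)
    (hinv : ∀ z, (σ ^ D) z ∈ E ↔ z ∈ E) (g : G) (hg : g⁻¹ * (σ ^ D) g ∈ E) : TameG σ g := by
  classical
  obtain ⟨B, hB, hfg, R, hR⟩ := hE
  obtain ⟨d, hd, hp⟩ := cover_pow' hR
  set A := Subgroup.closure ((fun e : G => e ^ d) '' (E : Set G)) with hA
  have hAE : A ≤ E := by
    rw [hA, Subgroup.closure_le]
    rintro _ ⟨e, he, rfl⟩
    exact E.pow_mem he d
  have hAB : A ≤ B := by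
    rw [hA, Subgroup.closure_le]
    rintro _ ⟨e, he, rfl⟩
    exact hp e he
  have hAab : Ab A := hB.mono hAB
  have hAfg : A.FG := hB.fg_of_le hfg hAB
  set τ : MulAut G := σ ^ D with hτ
  have hinv' : ∀ z, τ⁻¹ z ∈ E ↔ z ∈ E := by
    intro z
    rw [← hinv (τ⁻¹ z), MulAut.apply_inv_self]
  have hAinv : ∀ z, τ z ∈ A ↔ z ∈ A := by
    intro z
    constructor
    · intro hz
      have := inv_closure τ⁻¹ E hinv' d _ hz
      rwa [MulAut.inv_apply_self] at this
    · exact inv_closure τ E hinv d z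
  have hn : ∀ (K : Subgroup G), (∀ z, τ z ∈ K ↔ z ∈ K) → ∀ (n : ℕ) z, (τ ^ n) z ∈ K ↔ z ∈ K := by
    intro K hK n
    induction n with
    | zero => intro z; simp
    | succ n ih => intro z; rw [pow_succ', MulAut.mul_apply, hK, ih]
  -- finite index
  have hidx : A.relIndex E ≠ 0 := by
    have h1 : A.relIndex (B ⊓ E) ≠ 0 :=
      (hB.mono inf_le_left).relIndex (hB.fg_of_le hfg inf_le_left) hd fun x hx =>
        Subgroup.subset_closure ⟨x, hx.2, rfl⟩
    have h2 : (B ⊓ E).relIndex E ≠ 0 := by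
      rw [Subgroup.inf_relIndex_right]
      exact relIndex_of_cover hR
    rw [← Subgroup.relIndex_mul_relIndex A (B ⊓ E) E (le_inf hAB hAE) inf_le_right]
    exact mul_ne_zero h1 h2
  have hfi : (A.subgroupOf E).FiniteIndex := ⟨hidx⟩
  have hfin : Finite (E ⧸ A.subgroupOf E) := Subgroup.finite_quotient_of_finiteIndex
  -- the cocycle
  set y : ℕ → G := fun n => g⁻¹ * (τ ^ n) g with hy
  have hyadd : ∀ m n : ℕ, y (m + n) = y m * (τ ^ m) (y n) := by
    intro m n
    simp only [hy]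
    rw [map_mul, map_inv, pow_add, MulAut.mul_apply]
    group
  have hyE : ∀ n, y n ∈ E := by
    intro n
    induction n with
    | zero => simp [hy, E.one_mem]
    | succ n ih =>
      rw [hyadd n 1]
      refine E.mul_mem ih ?_
      exact (hn E hinv n (y 1)).mpr (by simpa [hy] using hg)
  obtain ⟨a, b, hab, heq⟩ := Finite.exists_ne_map_eq_of_infinite
    (fun k : ℕ => (QuotientGroup.mk (⟨y k, hyE k⟩ : E) : E ⧸ A.subgroupOf E))
  wlog hlt : a < b generalizing a b
  · exact this b a hab.symm heq.symm (by omega)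
  obtain ⟨M, rfl⟩ : ∃ M, b = a + M := ⟨b - a, by omega⟩
  have hM : 0 < M := by omega
  have h1 : (y a)⁻¹ * y (a + M) ∈ A := by
    have := QuotientGroup.eq.mp heq
    exact Subgroup.mem_subgroupOf.mp this
  have hyM : y M ∈ A := by
    rw [hyadd a M, inv_mul_cancel_left] at h1
    exact (hn A hAinv a _).mp h1
  have hyMj : ∀ j, y (M * j) ∈ A := by
    intro j
    induction j with
    | zero => simp [hy, A.one_mem]
    | succ j ih =>
      rw [Nat.mul_succ, hyadd]
      exact A.mul_mem ih ((hn A hAinv _ _).mpr hyM)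
  have hpow : ∀ n : ℕ, τ ^ n = σ ^ (D * n) := fun n => by rw [hτ, pow_mul]
  obtain ⟨j, k, hj, hk⟩ := hU A hAab hAfg (D * M) (Nat.mul_pos hD hM) (by
    intro z
    rw [← hpow]
    exact hn A hAinv M z)
  have hgd : gd σ (D * M * j) g ∈ A := by
    have h2 := hyMj j
    have e : gd σ (D * M * j) g = y (M * j) := by
      simp only [hy, gd]
      rw [hpow, mul_assoc]
    rw [e]
    exact h2
  have hgdA : ∀ i, ((gd σ (D * M * j))^[i]) (gd σ (D * M * j) g) ∈ A := by
    intro i
    induction i with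
    | zero => exact hgd
    | succ i ih =>
      rw [Function.iterate_succ_apply']
      refine A.mul_mem (A.inv_mem ih) ?_
      have e : σ ^ (D * M * j) = τ ^ (M * j) := by rw [hpow, mul_assoc]
      rw [e]
      exact (hn A hAinv _ _).mpr ih
  exact ⟨D * M * j, Nat.mul_pos (Nat.mul_pos hD hM) hj, ⟨k, hk _ hgd⟩,
    fun i l => hAab _ (hgdA i) _ (hgdA l)⟩

/-- periodic points are tame -/
lemma tameG_of_periodic {σ : MulAut G} {g : G} {m : ℕ} (hm : 0 < m) (h : (σ ^ m) g = g) :
    TameG σ g := by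
  have h1 : gd σ m g = 1 := by rw [gd, h, inv_mul_cancel]
  have h2 : ∀ i, ((gd σ m)^[i]) 1 = 1 := by
    intro i
    induction i with
    | zero => rfl
    | succ i ih => rw [Function.iterate_succ_apply', ih, gd, map_one, inv_one, one_mul]
  refine ⟨m, hm, ⟨0, h1⟩, fun i j => ?_⟩
  rw [h1, h2, h2]

end group

variable {G X : Type*} [Group G] [MulAction G X] [TopologicalSpace X] [CompactSpace X] [T2Space X]
  [Infinite X]

/-- **The dichotomy.** -/
theorem dich2 [Countable G] (hG : ConvergenceAction G X)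
    (hst : ∀ p : X, Cov (MulAction.stabilizer G p)) (σ : MulAut G) (hU : QUni σ) (g : G)
    (hx : Function.Injective (fun n : ℕ => (σ ^ n) g)) :
    (∃ S : Set ℕ, S.Infinite ∧ ∀ p : X, ∀ y : G,
      {n ∈ S | y⁻¹ * (σ ^ n) g ∈ MulAction.stabilizer G p}.Finite) ∨ TameG σ g := by
  rcases dich1 hG hst σ g hx with h | ⟨n, D, E, hD, hE, hinv, hn⟩
  · exact Or.inl h
  · exact Or.inr (tameG_of_shift n (tame_of_cov hU hE hD hinv _ hn))

end Pool.Agent.L0h53.MD
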