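import Pool.Agent.L0h53.MD.Kro
import Pool.Agent.L0h53.MD.Tam

/-! Automorphisms which are not quasi-unipotent on the abelian subgroups. -/

set_option autoImplicit false
set_option linter.unusedSectionVars false

namespace Pool.Agent.L0h53.MD

variable {G : Type*} [Group G]

theorem not_quni (σ : MulAut G) (h : ¬ QUni σ) : ∃ (A : Subgroup G) (m : ℕ) (l : G → ℂ) (z : ℂ),
    Ab A ∧ 0 < m ∧ 1 < ‖z‖ ∧ (∀ a ∈ A, (σ ^ m) a ∈ A) ∧ (∀ a ∈ A, ∀ b ∈ A, l (a * b) = l a + l b) ∧
    (∀ a ∈ A, l ((σ ^ m) a) = z * l a) ∧ ∃ a ∈ A, l a ≠ 0 := by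
  classical
  unfold QUni at h
  push Not at h
  obtain ⟨A, hA, hfg, m, hm, hinv, hbad⟩ := h
  let _ : CommGroup A := hA.grp
  have hfg' : Group.FG A := (Group.fg_iff_subgroup_fg A).mpr hfg
  have hfg2 : AddGroup.FG (Additive A) := inferInstance
  have hfin : Module.Finite ℤ (Additive A) := Module.Finite.iff_addGroup_fg.mpr hfg2
  let e : A ≃* A :=
    { toFun := fun a => ⟨(σ ^ m) a, (hinv a).mpr a.2⟩
      invFun := fun a => ⟨(σ ^ m)⁻¹ a, by
        rw [← hinv, MulAut.apply_inv_self]; exact a.2⟩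
      left_inv := fun a => Subtype.ext (by simp)
      right_inv := fun a => Subtype.ext (by simp)
      map_mul' := fun a b => Subtype.ext (by simp) }
  have he : ∀ a : A, ((e a : A) : G) = (σ ^ m) a := fun a => rfl
  let F : Additive A ≃ₗ[ℤ] Additive A := (MulEquiv.toAdditive e).toIntLinearEquiv
  have hF : ∀ a : A, F (Additive.ofMul a) = Additive.ofMul (e a) := fun a => rfl
  have hFj : ∀ (j : ℕ) (a : A), (((((F : Additive A →ₗ[ℤ] Additive A) ^ j) (Additive.ofMul a)).toMul : A) : G) =
      (σ ^ (m * j)) a := by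
    intro j
    induction j with
    | zero => intro a; simp
    | succ j ih =>
      intro a
      rw [pow_succ, Module.End.mul_apply]
      have h1 : (F : Additive A →ₗ[ℤ] Additive A) (Additive.ofMul a) = Additive.ofMul (e a) := rfl
      rw [h1, ih, he, Nat.mul_succ, pow_add, MulAut.mul_apply]
  have hgd : ∀ (j k : ℕ) (a : A), ((((((F : Additive A →ₗ[ℤ] Additive A) ^ j - 1) ^ k :
      Module.End ℤ (Additive A)) (Additive.ofMul a)).toMul : A) : G) =
      ((gd σ (m * j))^[k]) a := by
    intro j k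
    induction k with
    | zero => intro a; rfl
    | succ k ih =>
      intro a
      rw [pow_succ, Module.End.mul_apply, Function.iterate_succ_apply, LinearMap.sub_apply]
      have h1 : ((F : Additive A →ₗ[ℤ] Additive A) ^ j) (Additive.ofMul a) -
          (1 : Module.End ℤ (Additive A)) (Additive.ofMul a) = Additive.ofMul
          (((((F : Additive A →ₗ[ℤ] Additive A) ^ j) (Additive.ofMul a)).toMul : A) * a⁻¹) := by
        rw [Module.End.one_apply, sub_eq_add_neg]; rfl
      have h2 : (((((((F : Additive A →ₗ[ℤ] Additive A) ^ j) (Additive.ofMul a)).toMul : A) *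
          a⁻¹ : A)) : G) = gd σ (m * j) a := by
        rw [gd, Subgroup.coe_mul, hFj]
        have h3 := hA ((σ ^ (m * j)) a) (by rw [← hFj]; exact SetLike.coe_mem _) ((a⁻¹ : A) : G)
          (a⁻¹).2
        rw [h3]; rfl
      rw [h1, ih, h2]
  rcases kro (Additive A) F with ⟨j, k, hj, hjk⟩ | ⟨l, z, hz, hl, x, hx⟩
  · exfalso
    obtain ⟨a, ha, hne⟩ := hbad j k hj
    apply hne
    have h1 := hgd j k ⟨a, ha⟩
    rw [hjk] at h1
    exact h1.symm
  · refine ⟨A, m, fun g => if hg : g ∈ A then l (Additive.ofMul ⟨g, hg⟩) else 0, z, hA, hm, hz,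
      fun a ha => (hinv a).mpr ha, fun a ha b hb => ?_, fun a ha => ?_, (x.toMul : A),
      (x.toMul : A).2, ?_⟩
    · simp only
      rw [dif_pos (A.mul_mem ha hb), dif_pos ha, dif_pos hb, ← map_add]
      rfl
    · simp only
      rw [dif_pos ((hinv a).mpr ha), dif_pos ha, ← hl]
      rfl
    · simp only
      rw [dif_pos (x.toMul : A).2]
      exact hx

end Pool.Agent.L0h53.MD
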