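import Pool.Agent.L0h53.MD.Tam
import Pool.Agent.TH261.NP.Sys

/-! Möbius orthogonality of tame orbits, strongly in all representations, with phases. -/

set_option autoImplicit false
set_option linter.unusedSectionVars false

open Finset Filter Topology

namespace Pool.Agent.L0h53.MD

open Pool.Agent.Helper188.NCM Pool.Agent.TH261.AB
open Pool.Agent.TH261.NP (GoodP SN SN_vav SN_norm)

variable {U G : Type} [CStarAlgebra U] [Group G] {u : G → U} {α : U →⋆ₐ[ℂ] U} {σ : MulAut G}

/-- unitaries which multiply like the elements of a group up to scalars, and an endomorphism which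
covers an automorphism of the group -/
structure Dat (u : G → U) (α : U →⋆ₐ[ℂ] U) (σ : MulAut G) : Prop where
  unit : ∀ g, u g ∈ unitary U
  mul : ∀ g h, ∃ c : ℂ, ‖c‖ = 1 ∧ u (g * h) = c • (u g * u h)
  cov : ∀ g, ∃ c : ℂ, ‖c‖ = 1 ∧ α (u g) = c • u (σ g)

theorem Dat.iter (hu : Dat u α σ) (n : ℕ) (g : G) :
    ∃ c : ℂ, ‖c‖ = 1 ∧ (α^[n]) (u g) = c • u ((σ ^ n) g) := by
  induction n generalizing g with
  | zero => exact ⟨1, by simp, by simp⟩
  | succ n ih =>
    obtain ⟨c, hc, h1⟩ := hu.cov g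
    obtain ⟨c', hc', h2⟩ := ih (σ g)
    refine ⟨c * c', by rw [norm_mul, hc, hc', one_mul], ?_⟩
    rw [Function.iterate_succ_apply, h1, iter_smul, h2, smul_smul, pow_succ, MulAut.mul_apply]

theorem Dat.one (hu : Dat u α σ) : ∃ c : ℂ, ‖c‖ = 1 ∧ u 1 = c • 1 := by
  obtain ⟨c, hc, h1⟩ := hu.mul 1 1
  rw [mul_one] at h1
  have h2 := congrArg (fun x => star (u 1) * x) h1
  simp only [mul_smul_comm, ← mul_assoc] at h2
  rw [Unitary.star_mul_self_of_mem (hu.unit 1), one_mul] at h2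
  refine ⟨c⁻¹, inv_norm_one hc, ?_⟩
  rw [h2, smul_smul, inv_mul_cancel₀ (ne_zero_of_norm hc), one_smul]

theorem Dat.comm (hu : Dat u α σ) {g g' : G} (hg : Commute g g') :
    ∃ c : ℂ, ‖c‖ = 1 ∧ u g * u g' = c • (u g' * u g) := by
  obtain ⟨c, hc, h1⟩ := hu.mul g g'
  obtain ⟨c', hc', h2⟩ := hu.mul g' g
  refine ⟨c⁻¹ * c', by rw [norm_mul, inv_norm_one hc, hc', one_mul], ?_⟩
  rw [mul_smul, ← h2, ← hg.eq, h1, smul_smul, inv_mul_cancel₀ (ne_zero_of_norm hc), one_smul]

section rep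

variable {K : Type} [NormedAddCommGroup K] [InnerProductSpace ℂ K] [CompleteSpace K]

/-- **the tame orbits in representations** -/
theorem orb_form (hu : Dat u α σ) (π : U →⋆ₐ[ℂ] (K →L[ℂ] K)) (g : G) (m k r : ℕ)
    (hk : ((gd σ m)^[k]) (gd σ m g) = 1)
    (hd : ∀ i j : ℕ, Commute (((gd σ m)^[i]) (gd σ m g)) (((gd σ m)^[j]) (gd σ m g))) :
    ∃ (A : Type) (_ : AddCommGroup A) (V : A → (K ≃ₗᵢ[ℂ] K)) (B : A →+ A →+ ℝ) (a : ℕ → A)
      (R : ℕ → ℝ) (Y : K →L[ℂ] K), BiProj (fun x => (V x).toLinearIsometry) B ∧ IsPF R ∧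
      ∀ n x, π ((α^[m * n + r]) (u g)) x = Y (ee (R n) • V (newt a (k + 2) n) x) := by
  set h : ℕ → G := fun i => ((gd σ m)^[i]) ((σ ^ r) g) with hh
  have hs : ∀ i, h (i + 1) = (σ ^ r) (((gd σ m)^[i]) (gd σ m g)) := by
    intro i
    simp only [hh]
    rw [gd_comm, Function.iterate_succ_apply]
  have hhk : h (k + 1) = 1 := by rw [hs, hk, map_one]
  have hcomm : ∀ i j, CommS (opU π (u (h (i + 1))) (hu.unit _))
      (opU π (u (h (j + 1))) (hu.unit _)) := by
    intro i j
    have h0 : Commute (h (i + 1)) (h (j + 1)) := by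
      rw [hs, hs]
      exact (hd i j).map (σ ^ r)
    obtain ⟨c, hc, h1⟩ := hu.comm h0
    refine ⟨c, hc, fun x => ?_⟩
    simp only [opU_apply]
    rw [← mul_apply_eq_comp, ← mul_apply_eq_comp, ← map_mul, h1, map_smul, map_mul, smul_apply]
  obtain ⟨A, iA, V, B, a', hV, ha, -⟩ :=
    exists_biproj (fun i => opU π (u (h (i + 1))) (hu.unit _)) (k + 1) fun i _ j _ => hcomm i j
  have hstep : ∀ i, ∃ θ : ℝ, (α^[m]) (u (h i)) = ee θ • (u (h i) * u (h (i + 1))) := by
    intro i
    obtain ⟨c, hc, h1⟩ := hu.iter m (h i)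
    obtain ⟨c', hc', h2⟩ := hu.mul (h i) (h (i + 1))
    have e : (σ ^ m) (h i) = h i * h (i + 1) := by
      simp only [hh, Function.iterate_succ_apply']
      rw [gd, mul_inv_cancel_left]
    obtain ⟨θ, hθ⟩ := exists_ee (z := c * c') (by rw [norm_mul, hc, hc', one_mul])
    refine ⟨θ, ?_⟩
    rw [h1, e, h2, smul_smul, hθ]
  choose θ hθ using hstep
  obtain ⟨R, hR, hX⟩ := orbit_formula hV k (fun i n x => π ((α^[m * n]) (u (h (i + 1)))) x) a'
    (fun i => θ (i + 1))
    (fun i hi x => by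
      rw [mul_zero, Function.iterate_zero, id, ha i (by omega), opU_apply])
    (fun i _ n x => by
      rw [Nat.mul_succ, Function.iterate_add_apply, hθ, iter_smul, Pool.Agent.TH261.AB.iter_mul, map_smul, map_mul]
      rfl)
    (fun n x => by
      obtain ⟨c, hc, h1⟩ := hu.one
      rw [ha k (by omega), opU_apply, hhk, h1, iter_smul, iter_one])
  -- summation
  let a : ℕ → A := fun i => Nat.casesOn i 0 a'
  set P : ℕ → A := newt a (k + 2) with hP
  set g' : ℕ → ℝ := fun n => θ 0 + R n + B (P n) (newt a' (k + 1) n) with hg'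
  have hgP : IsPF g' := ((IsPF.const _).add hR).add (IsPF.newt₂ B _ _ _ _)
  set S : ℕ → ℝ := fun n => ∑ j ∈ range n, g' j with hS
  have hSP : IsPF S := hgP.antidiff fun n => by rw [hS]; simp only [Finset.sum_range_succ]
  have hX0 : ∀ n x, π ((α^[m * n]) (u (h 0))) x = π (u (h 0)) (ee (S n) • V (P n) x) := by
    intro n
    induction n with
    | zero =>
      intro x
      have e : P 0 = 0 := by
        rw [hP, newt, Finset.sum_range_succ']
        simp [a]
      rw [mul_zero, Function.iterate_zero, id, e, hS]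
      have h3 : V 0 x = x := BiProj.zero hV x
      simp [ee_zero, h3]
    | succ n ihn =>
      intro x
      have hV' := hV (P n) (newt a' (k + 1) n) x
      simp only [LinearIsometryEquiv.coe_toLinearIsometry] at hV'
      have e2 : P (n + 1) = P n + newt a' (k + 1) n := by
        rw [hP, newt_diff]
      rw [Nat.mul_succ, Function.iterate_add_apply, hθ, iter_smul,
        Pool.Agent.TH261.AB.iter_mul, map_smul, map_mul, smul_apply, mul_apply_eq_comp]
      have h4 := hX n x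
      rw [show (0 : ℕ) + 1 = 1 from rfl] at *
      rw [h4, ihn, LinearIsometryEquiv.map_smul, hV', e2, ← map_smul, smul_smul, smul_smul,
        smul_smul, ← ee_add, ← ee_add, ← ee_add]
      congr 3
      rw [hS]
      simp only [Finset.sum_range_succ, hg']
      ring
  obtain ⟨c, hc, h1⟩ := hu.iter r g
  refine ⟨A, iA, V, B, a, S, c • π (u ((σ ^ r) g)), hV, hSP, fun n x => ?_⟩
  rw [Function.iterate_add_apply, h1, iter_smul, map_smul, smul_apply]
  have h3 := hX0 n x
  rw [show h 0 = (σ ^ r) g from rfl] at h3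
  rw [h3]
  rfl

/-- Möbius orthogonality of tame orbits -/
theorem orb_strong (hu : Dat u α σ) (π : U →⋆ₐ[ℂ] (K →L[ℂ] K)) (g : G) {m : ℕ} (hm : 0 < m) (k : ℕ)
    (hk : ((gd σ m)^[k]) (gd σ m g) = 1)
    (hd : ∀ i j : ℕ, Commute (((gd σ m)^[i]) (gd σ m g)) (((gd σ m)^[j]) (gd σ m g)))
    (τ : ℝ) {r : ℕ} (hr : r < m) (ξ : K) :
    Tendsto (fun N : ℕ => (N : ℂ)⁻¹ • ∑ j ∈ range N, mob (m * j + r) •
      (ee ((m * j + r : ℕ) * τ) • π ((α^[m * j + r]) (u g)) ξ)) atTop (𝓝 0) := by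
  obtain ⟨A, iA, V, B, a, R, Y, hV, hR, h1⟩ := orb_form hu π g m k r hk hd
  have h2 := main_poly (r := r) hV hm hr (k + 1) a (fun j => R j + ((m : ℝ) * j + r) * τ)
    (hR.add ((((IsPF.const (m : ℝ)).mul IsPF.id).add (IsPF.const (r : ℝ))).mul (IsPF.const τ))) ξ
  have h3 := (Y.continuous.tendsto 0).comp h2
  rw [map_zero] at h3
  refine h3.congr fun N => ?_
  rw [Function.comp_apply, TN, map_smul, map_sum]
  congr 1
  refine Finset.sum_congr rfl fun j _ => ?_
  rw [h1, map_smul, map_smul, map_smul, smul_smul (ee _) (ee _), ← ee_add,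
    LinearIsometryEquiv.coe_toLinearIsometry]
  congr 3
  push_cast
  ring

end rep

/-- the tame generators -/
theorem goodP_tame (hu : Dat u α σ) {g : G} (hg : TameG σ g) : GoodP α (u g) := by
  obtain ⟨m, hm, ⟨k, hk⟩, hd⟩ := hg
  intro τ K _ _ _ π ξ
  refine vav_of_residues (C := ‖u g‖ * ‖ξ‖) (by positivity) (fun n => ?_) hm fun r hr => ?_
  · rw [norm_smul, norm_smul, norm_ee, one_mul]
    calc _ ≤ 1 * (‖u g‖ * ‖ξ‖) := by
          gcongr
          · exact norm_mob_le _
          · refine (ContinuousLinearMap.le_opNorm _ _).trans ?_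
            gcongr
            exact (NonUnitalStarAlgHom.norm_apply_le π _).trans (iter_norm α n _)
      _ = _ := one_mul _
  · exact orb_strong hu π g hm k hk hd τ hr ξ

end Pool.Agent.L0h53.MD
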