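import Pool.Agent.L0h53.MD.Rie
import Pool.Agent.L0h53.MD.Nqu
import Pool.Agent.L0h53.MD.Orb
import Pool.Agent.L0h54.SK.Mform

/-! Automorphisms of entropy zero are quasi-unipotent on the invariant abelian subgroups. -/

set_option autoImplicit false
set_option linter.unusedSectionVars false

namespace Pool.Agent.L0h53.MD

open Finset Filter
open scoped InnerProductSpace ComplexOrder Topology Matrix.Norms.L2Operator
open Pool.Agent.L0h54.SK (ep mat_bound mto mto_norm)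

universe v

variable {U G : Type} [CStarAlgebra U] [Group G] {u : G → U} {α : U →⋆ₐ[ℂ] U} {σ : MulAut G}

theorem quni_of_ent (hu : ∀ g, u g ∈ unitary U) (hmul : ∀ g h, u (g * h) = u g * u h)
    (hα : ∀ g, ∃ c : ℂ, ‖c‖ = 1 ∧ α (u g) = c • u (σ g))
    (τ : U →L[ℂ] ℂ) (h1 : τ 1 = 1) (h0 : ∀ g, g ≠ 1 → τ (u g) = 0)
    (hp : ∀ x, 0 ≤ τ (star x * x)) {Y : Type v} [NormedAddCommGroup Y] [NormedSpace ℂ Y]
    (π : U →ₗ[ℂ] Y) (hπ : ∀ x, ‖π x‖ = ‖x‖)
    (H : ∀ (x : U) (δ η : ℝ), 0 < δ → 0 < η → ∀ᶠ n : ℕ in atTop, ∃ k : ℕ,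
      (k : ℝ) ≤ Real.exp (η * n) ∧
      ∃ (φ : U →ₗ[ℂ] Matrix (Fin k) (Fin k) ℂ) (ψ : Matrix (Fin k) (Fin k) ℂ →ₗ[ℂ] Y),
      (∀ a, ‖φ a‖ ≤ ‖a‖) ∧ (∀ b, ‖ψ b‖ ≤ ‖b‖) ∧
        ∀ i < n, ‖ψ (φ ((α^[i]) x)) - π ((α^[i]) x)‖ ≤ δ) : QUni σ := by
  classical
  by_contra hq
  have hD : Dat u α σ := ⟨hu, fun g h => ⟨1, norm_one, by rw [hmul, one_smul]⟩, hα⟩
  obtain ⟨A, m, l, z, hA, hm, hz, hinv, hadd, hlz, a₀, ha₀, hne⟩ := not_quni σ hq
  obtain ⟨T, hT⟩ := pow_unbounded_of_one_lt 4 hz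
  have hT0 : 0 < T := by
    rcases Nat.eq_zero_or_pos T with h | h
    · rw [h, pow_zero] at hT; norm_num at hT
    · exact h
  have hinvn : ∀ n : ℕ, (σ ^ (m * n)) a₀ ∈ A ∧ l ((σ ^ (m * n)) a₀) = z ^ n * l a₀ := by
    intro n
    induction n with
    | zero => simpa using ha₀
    | succ n ih =>
      have e : (σ ^ (m * (n + 1))) a₀ = (σ ^ m) ((σ ^ (m * n)) a₀) := by
        rw [← MulAut.mul_apply, ← pow_add]
        congr 2
        ring
      rw [e]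
      refine ⟨hinv _ ih.1, ?_⟩
      rw [hlz _ ih.1, ih.2, pow_succ]
      ring
  set P : ℕ := m * T with hP
  have hP0 : 0 < P := Nat.mul_pos hm hT0
  have hPi : ∀ i : ℕ, P * i = m * (T * i) := fun i => by rw [hP, mul_assoc]
  let _ : CommGroup A := hA.grp
  let h : ℕ → A := fun i => ⟨(σ ^ (P * i)) a₀, by rw [hPi]; exact (hinvn _).1⟩
  have hh : ∀ i, l (h i : G) = (z ^ T) ^ i * l a₀ := by
    intro i
    show l ((σ ^ (P * i)) a₀) = _
    rw [hPi, (hinvn _).2, pow_mul]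
  set x : ℕ → U := fun i => (α^[P * i]) (u a₀) with hx
  choose c hc hcx using fun i : ℕ => hD.iter (P * i) a₀
  have hxc : ∀ i, x i = c i • u (h i) := fun i => hcx i
  have hlow : ∀ (ε : ℕ → ℂ), (∀ i, ‖ε i‖ = 1) → ∀ n : ℕ,
      (n : ℝ) / 2 ≤ ‖∑ i ∈ range n, ε i • x i‖ := by
    intro ε hε n
    have h3 := riesz_lower (fun a : A => u a) (fun a => hu a) (fun a b => hmul a b) τ h1
      (fun a ha => h0 a fun e => ha (Subtype.ext e)) hp (L := fun a : A => l a)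
      (fun a b => hadd a a.2 b b.2) h (z := z ^ T) (l₀ := l a₀)
      (by rw [norm_pow]; exact hT.le) hne hh n (fun i => ε i * c i)
      (fun i => by rw [norm_mul, hε, hc, one_mul])
    refine h3.trans (le_of_eq ?_)
    congr 1
    refine sum_congr rfl fun i _ => ?_
    rw [hxc, smul_smul]
  have hxn : ∀ i, ‖x i‖ ≤ 1 := by
    intro i
    refine (Pool.Agent.TH261.AB.iter_norm α _ _).trans ?_
    exact Pool.Agent.Helper188.NCM.norm_unitary_le (hu a₀)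
  obtain ⟨η, hη, L₀, hL₀, hmat⟩ := mat_bound (1 / 16) (by norm_num)
  have hPr : (0 : ℝ) < P := by exact_mod_cast hP0
  obtain ⟨N₀, hN₀⟩ := eventually_atTop.mp (H (u a₀) (1 / 8) (η / P) (by norm_num) (by positivity))
  set L : ℕ := max L₀ N₀ with hL
  have hL1 : 1 ≤ L := hL₀.trans (le_max_left _ _)
  have hLr : (1 : ℝ) ≤ L := by exact_mod_cast hL1
  obtain ⟨k, hk, φ, ψ, hφ, hψ, happ⟩ := hN₀ (P * L)
    ((le_max_right L₀ N₀).trans (Nat.le_mul_of_pos_left L hP0))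
  have hk' : (k : ℝ) ≤ Real.exp (η * L) := by
    refine hk.trans (le_of_eq ?_)
    congr 1
    push_cast
    field_simp
  have happ' : ∀ i < L, ‖ψ (φ (x i)) - π (x i)‖ ≤ 1 / 8 := fun i hi =>
    happ (P * i) (Nat.mul_lt_mul_of_pos_left hi hP0)
  set a : ℕ → (EuclideanSpace ℂ (Fin k) →L[ℂ] EuclideanSpace ℂ (Fin k)) :=
    fun i => mto k (φ (x i)) with ha
  have hup := hmat L (le_max_left _ _) k hk' (EuclideanSpace ℂ (Fin k))
    (EuclideanSpace.basisFun (Fin k) ℂ) a 1 (fun i _ => by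
      rw [ha]; simp only
      rw [mto_norm]
      exact (hφ _).trans (hxn i))
  have hE : ∀ E ∈ (range L).powerset, (3 / 8 : ℝ) * L ≤ ‖∑ i ∈ range L, (ep E i : ℂ) • a i‖ := by
    intro E _
    have hepn : ∀ i, ‖((ep E i : ℝ) : ℂ)‖ = 1 := by
      intro i
      unfold ep
      split_ifs <;> simp
    have h2 := hlow (fun i => ((ep E i : ℝ) : ℂ)) hepn L
    have e1 : mto k (φ (∑ i ∈ range L, ((ep E i : ℝ) : ℂ) • x i)) =
        ∑ i ∈ range L, ((ep E i : ℝ) : ℂ) • a i := by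
      rw [map_sum, map_sum]
      refine sum_congr rfl fun i _ => ?_
      rw [map_smul, map_smul]
    have e2 : ‖ψ (φ (∑ i ∈ range L, ((ep E i : ℝ) : ℂ) • x i))‖ ≤
        ‖∑ i ∈ range L, ((ep E i : ℝ) : ℂ) • a i‖ := by
      rw [← e1, mto_norm]
      exact hψ _
    have e3 : ‖ψ (φ (∑ i ∈ range L, ((ep E i : ℝ) : ℂ) • x i)) -
        π (∑ i ∈ range L, ((ep E i : ℝ) : ℂ) • x i)‖ ≤ 1 / 8 * L := by
      rw [map_sum, map_sum, map_sum, ← sum_sub_distrib]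
      refine (norm_sum_le _ _).trans ?_
      calc ∑ i ∈ range L, ‖ψ (φ (((ep E i : ℝ) : ℂ) • x i)) - π (((ep E i : ℝ) : ℂ) • x i)‖
          ≤ ∑ _i ∈ range L, (1 / 8 : ℝ) := by
            refine sum_le_sum fun i hi => ?_
            rw [map_smul, map_smul, map_smul, ← smul_sub, norm_smul, hepn, one_mul]
            exact happ' i (mem_range.mp hi)
        _ = 1 / 8 * L := by rw [sum_const, card_range, nsmul_eq_mul]; ring
    have e4 : ‖π (∑ i ∈ range L, ((ep E i : ℝ) : ℂ) • x i)‖ ≤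
        ‖ψ (φ (∑ i ∈ range L, ((ep E i : ℝ) : ℂ) • x i))‖ +
        ‖ψ (φ (∑ i ∈ range L, ((ep E i : ℝ) : ℂ) • x i)) -
        π (∑ i ∈ range L, ((ep E i : ℝ) : ℂ) • x i)‖ := by
      have := norm_sub_le (ψ (φ (∑ i ∈ range L, ((ep E i : ℝ) : ℂ) • x i)))
        (ψ (φ (∑ i ∈ range L, ((ep E i : ℝ) : ℂ) • x i)) -
        π (∑ i ∈ range L, ((ep E i : ℝ) : ℂ) • x i))
      rwa [sub_sub_cancel] at this
    rw [hπ] at e4
    linarith
  have hsum := sum_le_sum hE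
  rw [sum_const, card_powerset, card_range, nsmul_eq_mul] at hsum
  push_cast at hsum
  have h7 := hsum.trans hup
  have h8 : (0 : ℝ) < 2 ^ L := by positivity
  have h9 := le_of_mul_le_mul_left h7 h8
  linarith

end Pool.Agent.L0h53.MD
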