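import Pool.Agent.TH261.AB.Final

/-! Extension of states to a larger algebra, with the GNS representation. -/

set_option autoImplicit false
set_option linter.unusedSectionVars false

namespace Pool.Agent.L0h53.MD

open scoped InnerProductSpace ComplexOrder

theorem ext_gns {U : Type} [CStarAlgebra U] {B : Type} [CStarAlgebra B] (τ : U →L[ℂ] ℂ)
    (h1 : τ 1 = 1) (hp : ∀ x, 0 ≤ τ (star x * x)) (κ : U →⋆ₐ[ℂ] B) (hκ : Function.Injective κ) :
    ∃ (K : Type) (_ : NormedAddCommGroup K) (_ : InnerProductSpace ℂ K) (_ : CompleteSpace K)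
      (π : B →⋆ₐ[ℂ] (K →L[ℂ] K)) (Ω : K), ∀ x, ⟪Ω, π (κ x) Ω⟫_ℂ = τ x := by
  obtain ⟨K₀, _, _, _, π₀, Ω₀, hΩ₀, -⟩ := H759R2.Kad.prove7_gns U τ.toLinearMap hp
  have hΩ₀' : ∀ a, ⟪Ω₀, π₀ a Ω₀⟫_ℂ = τ a := hΩ₀
  have hn0 : ‖Ω₀‖ = 1 := by
    have := hΩ₀' 1
    rw [map_one, h1, one_apply_eq_self, inner_self_eq_norm_sq_to_K] at this
    have h3 : ‖Ω₀‖ ^ 2 = 1 := by
      have h4 : (((‖Ω₀‖ ^ 2 : ℝ)) : ℂ) = ((1 : ℝ) : ℂ) := by
        push_cast
        exact this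
      exact Complex.ofReal_injective h4
    exact (pow_eq_one_iff_of_nonneg (norm_nonneg _) two_ne_zero).mp h3
  have hτn : ∀ a, ‖τ a‖ ≤ 1 * ‖a‖ := by
    intro a
    rw [← hΩ₀']
    refine (norm_inner_le_norm _ _).trans ?_
    rw [hn0, one_mul, one_mul]
    refine (ContinuousLinearMap.le_opNorm _ _).trans ?_
    rw [hn0, mul_one]
    exact NonUnitalStarAlgHom.norm_apply_le π₀ _
  have hτ1 : ‖τ‖ ≤ 1 := ContinuousLinearMap.opNorm_le_bound _ zero_le_one hτn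
  have hiso : ∀ x : U, ‖κ x‖ = ‖x‖ := fun x => NonUnitalStarAlgHom.norm_map κ hκ x
  let κl : U →ₗᵢ[ℂ] B := ⟨κ.toAlgHom.toLinearMap, hiso⟩
  let e := κl.equivRange
  let p : Submodule ℂ B := LinearMap.range κl.toLinearMap
  obtain ⟨ψ, hψ, hψn⟩ := exists_extension_norm_eq p (τ.comp
    (e.symm.toContinuousLinearEquiv : p →L[ℂ] U))
  have hψκ : ∀ x : U, ψ (κ x) = τ x := by
    intro x
    have := hψ (e x)
    have h2 : ((e x : p) : B) = κ x := rfl
    rw [h2] at this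
    rw [this]
    simp
  have hψn' : ‖ψ‖ ≤ 1 := by
    rw [hψn]
    refine ContinuousLinearMap.opNorm_le_bound _ zero_le_one fun y => ?_
    rw [ContinuousLinearMap.comp_apply]
    refine (τ.le_opNorm _).trans ?_
    have : ‖(e.symm.toContinuousLinearEquiv : p →L[ℂ] U) y‖ = ‖y‖ := e.symm.norm_map y
    rw [this]
    gcongr
  have hψ1 : ψ 1 = 1 := by
    have := hψκ 1
    rw [map_one κ, h1] at this
    exact this
  have hne : Nontrivial B := by
    refine ⟨1, 0, fun h0 => ?_⟩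
    rw [h0, map_zero] at hψ1
    exact zero_ne_one hψ1
  have hψ2 : ‖ψ‖ = 1 := by
    refine le_antisymm hψn' ?_
    have := ψ.le_opNorm 1
    rw [hψ1, norm_one, CStarRing.norm_one, mul_one] at this
    exact this
  have hpos := H759R2.Kad.RState.pos_of_norm ψ hψ2 hψ1
  obtain ⟨K', _, _, _, π', Ω, hΩ, -⟩ := H759R2.Kad.prove7_gns B ψ.toLinearMap hpos
  have hΩ' : ∀ a, ⟪Ω, π' a Ω⟫_ℂ = ψ a := hΩ
  exact ⟨K', _, _, _, π', Ω, fun x => by rw [hΩ', hψκ]⟩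

end Pool.Agent.L0h53.MD
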