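import Pool.Agent.L0h53.MD.Low
import Pool.Agent.L0h53.MD.Sta
import Pool.Agent.L0h53.MD.Nqu
import Pool.Agent.L0h53.MD.Orb

/-! Automorphisms of entropy zero of twisted group algebras are quasi-unipotent on the invariant abelian subgroups. -/

set_option autoImplicit false
set_option linter.unusedSectionVars false

namespace Pool.Agent.L0h53.MD

open Finset Filter
open scoped InnerProductSpace ComplexOrder Topology Matrix.Norms.L2Operator
open Pool.Agent.L0h54.SK (ep mat_bound)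

variable {U G : Type} [CStarAlgebra U] [Group G] {u : G → U} {α : U →⋆ₐ[ℂ] U} {σ : MulAut G}

theorem quni_of_ent2 (hD : Dat u α σ)
    (τ : U →L[ℂ] ℂ) (h1 : τ 1 = 1) (h0 : ∀ g, g ≠ 1 → τ (u g) = 0)
    (hp : ∀ x, 0 ≤ τ (star x * x)) {Y : Type} [NormedAddCommGroup Y] [InnerProductSpace ℂ Y]
    [CompleteSpace Y] (π : U →⋆ₐ[ℂ] (Y →L[ℂ] Y)) (hπ : Function.Injective π)
    (H : ∀ (x : U) (δ η : ℝ), 0 < δ → 0 < η → ∀ᶠ n : ℕ in atTop, ∃ k : ℕ,
      (k : ℝ) ≤ Real.exp (η * n) ∧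
      ∃ (φ : U →ₗ[ℂ] Matrix (Fin k) (Fin k) ℂ) (ψ : Matrix (Fin k) (Fin k) ℂ →ₗ[ℂ] (Y →L[ℂ] Y))
        (Kr : Fin k → Fin k → (Y →L[ℂ] Y)),
      (∀ a, ‖φ a‖ ≤ ‖a‖) ∧ (∀ b, ‖ψ b‖ ≤ ‖b‖) ∧
        (∀ p q, ψ (Matrix.single p q 1) = ∑ l, star (Kr l p) * Kr l q) ∧
        ∀ i < n, ‖ψ (φ ((α^[i]) x)) - π ((α^[i]) x)‖ ≤ δ) : QUni σ := by
  classical
  by_contra hq
  obtain ⟨hu, hmul, hα⟩ := id hD
  obtain ⟨A, m, l, z, hA, hm, hz, hinv, hadd, hlz, a₀, ha₀, hne⟩ := not_quni σ hq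
  obtain ⟨T, hT⟩ := pow_unbounded_of_one_lt 4 hz
  have hT0 : 0 < T := by
    rcases Nat.eq_zero_or_pos T with h | h
    · rw [h, pow_zero] at hT; norm_num at hT
    · exact h
  have hinvn : ∀ n : ℕ, (σ ^ (m * n)) a₀ ∈ A ∧ l ((σ ^ (m * n)) a₀) = z ^ n * l a₀ := by
    intro n
    induction n with
    | zero => simpa using ha₀
    | succ n ih =>
      have e : (σ ^ (m * (n + 1))) a₀ = (σ ^ m) ((σ ^ (m * n)) a₀) := by
        rw [← MulAut.mul_apply, ← pow_add]
        congr 2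
        ring
      rw [e]
      refine ⟨hinv _ ih.1, ?_⟩
      rw [hlz _ ih.1, ih.2, pow_succ]
      ring
  set P : ℕ := m * T with hP
  have hP0 : 0 < P := Nat.mul_pos hm hT0
  have hPi : ∀ i : ℕ, P * i = m * (T * i) := fun i => by rw [hP, mul_assoc]
  let _ : CommGroup A := hA.grp
  let h : ℕ → A := fun i => ⟨(σ ^ (P * i)) a₀, by rw [hPi]; exact (hinvn _).1⟩
  have hh : ∀ i, l (h i : G) = (z ^ T) ^ i * l a₀ := by
    intro i
    show l ((σ ^ (P * i)) a₀) = _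
    rw [hPi, (hinvn _).2, pow_mul]
  set x : ℕ → U := fun i => (α^[P * i]) (u a₀) with hx
  choose c hc hcx using fun i : ℕ => hD.iter (P * i) a₀
  have hxc : ∀ i, x i = c i • u (h i) := fun i => hcx i
  have hxn : ∀ i, ‖x i‖ ≤ 1 := by
    intro i
    refine (Pool.Agent.TH261.AB.iter_norm α _ _).trans ?_
    exact Pool.Agent.Helper188.NCM.norm_unitary_le (hu a₀)
  obtain ⟨K, _, _, _, π', Ω, hΩ⟩ := ext_gns τ h1 hp π hπ
  have hlow := fun (n : ℕ) (ε : ℕ → ℂ) (hε : ∀ i, ‖ε i‖ = 1) =>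
    twist_lower (fun a : A => u a) (fun a => hu a) (fun a b => hmul a b) τ h1
      (fun a ha => h0 a fun e => ha (Subtype.ext e)) (π'.comp π) Ω (fun a => hΩ a)
      (L := fun a : A => l a) (fun a b => hadd a a.2 b b.2) h (z := z ^ T) (l₀ := l a₀)
      (by rw [norm_pow]; exact hT.le) hne hh n ε hε
  obtain ⟨η, hη, L₀, hL₀, hmat⟩ := mat_bound (1 / 16) (by norm_num)
  have hPr : (0 : ℝ) < P := by exact_mod_cast hP0
  obtain ⟨N₀, hN₀⟩ := eventually_atTop.mp
    (H (u a₀) (1 / 10) (η / 2 / P) (by norm_num) (by positivity))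
  set L : ℕ := max L₀ N₀ with hL
  have hL1 : 1 ≤ L := hL₀.trans (le_max_left _ _)
  have hLr : (1 : ℝ) ≤ L := by exact_mod_cast hL1
  obtain ⟨k, hk, φ, ψ, Kr, hφ, hψ, hKr, happ⟩ := hN₀ (P * L)
    ((le_max_right L₀ N₀).trans (Nat.le_mul_of_pos_left L hP0))
  have hk' : ((k * k : ℕ) : ℝ) ≤ Real.exp (η * L) := by
    have e : (k : ℝ) ≤ Real.exp (η / 2 * L) := by
      refine hk.trans (le_of_eq ?_)
      congr 1
      push_cast
      field_simp
    have e2 : Real.exp (η * L) = Real.exp (η / 2 * L) * Real.exp (η / 2 * L) := by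
      rw [← Real.exp_add]
      congr 1
      ring
    rw [e2]
    push_cast
    gcongr
  have happ' : ∀ i < L, ‖ψ (φ (x i)) - π (x i)‖ ≤ 1 / 10 := fun i hi =>
    happ (P * i) (Nat.mul_lt_mul_of_pos_left hi hP0)
  -- compose with the representation
  set ψ' : Matrix (Fin k) (Fin k) ℂ →ₗ[ℂ] (K →L[ℂ] K) :=
    (π'.toAlgHom.toLinearMap).comp ψ with hψ'
  have hψ'a : ∀ a, ψ' a = π' (ψ a) := fun a => rfl
  have hψ'n : ∀ a, ‖ψ' a‖ ≤ ‖a‖ := fun a => by
    rw [hψ'a]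
    exact (NonUnitalStarAlgHom.norm_apply_le π' _).trans (hψ a)
  have hKr' : ∀ p q, ψ' (Matrix.single p q 1) = ∑ l, star (π' (Kr l p)) * π' (Kr l q) := by
    intro p q
    rw [hψ'a, hKr, map_sum]
    refine sum_congr rfl fun l _ => ?_
    rw [map_mul, map_star]
  set a : ℕ → Matrix (Fin k) (Fin k) ℂ := fun i => φ (x i) with ha
  have han : ∀ i, ‖a i‖ ≤ 1 := fun i => (hφ _).trans (hxn i)
  have hup := hmat L (le_max_left _ _) (k * k) hk' (EuclideanSpace ℂ (Fin k × Fin k))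
    ((EuclideanSpace.basisFun (Fin k × Fin k) ℂ).reindex finProdFinEquiv) (fun i => Th (a i)) 1
    (fun i _ => Th_norm (han i))
  have hE : ∀ E ∈ (range L).powerset,
      (1 / 4 : ℝ) * L ≤ ‖∑ i ∈ range L, (ep E i : ℂ) • Th (a i)‖ := by
    intro E _
    have hepn : ∀ i, ‖((ep E i : ℝ) : ℂ)‖ = 1 := by
      intro i
      unfold ep
      split_ifs <;> simp
    obtain ⟨hw, hG⟩ := hlow L (fun i => ((ep E i : ℝ) : ℂ)) hepn
    set w : (range L).powerset → K := fun S => (π'.comp π) (u (∏ i ∈ S.1, h i : A)) Ω with hw'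
    set ε : (range L).powerset → ℂ := fun S => ∏ i ∈ S.1, ((ep E i : ℝ) : ℂ) with hε'
    have hεn : ∀ S, ‖ε S‖ = 1 := by
      intro S
      rw [hε', norm_prod]
      exact prod_eq_one fun i _ => hepn i
    have hcard : (Fintype.card (range L).powerset : ℝ) = 2 ^ L := by
      rw [Fintype.card_coe, card_powerset, card_range]
      push_cast
      rfl
    have h3 := Gf_sum_le hw hεn ψ' hψ'n (fun l q => π' (Kr l q)) hKr' (range L)
      (fun i => ((ep E i : ℝ) : ℂ)) a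
    rw [hcard] at h3
    -- the value for the unitaries
    have h4 : ∑ i ∈ range L, ((ep E i : ℝ) : ℂ) * Gf w ε (π' (π (x i))) = L * 2 ^ (L - 1) := by
      have : ∀ i ∈ range L, ((ep E i : ℝ) : ℂ) * Gf w ε (π' (π (x i))) = 2 ^ (L - 1) := by
        intro i hi
        have e := hG i (mem_range.mp hi) (c i) (hc i)
        rw [← hxc] at e
        have e' : Gf w ε (π' (π (x i))) = 2 ^ (L - 1) * star ((ep E i : ℝ) : ℂ) := e
        rw [e']
        have e3 : ((ep E i : ℝ) : ℂ) * star ((ep E i : ℝ) : ℂ) = 1 := by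
          rw [Complex.star_def, Complex.mul_conj, Complex.normSq_eq_norm_sq, hepn]
          simp
        linear_combination (2 : ℂ) ^ (L - 1) * e3
      rw [sum_congr rfl this, sum_const, card_range, nsmul_eq_mul]
    have h5 : ‖∑ i ∈ range L, ((ep E i : ℝ) : ℂ) * Gf w ε (ψ' (a i)) -
        ∑ i ∈ range L, ((ep E i : ℝ) : ℂ) * Gf w ε (π' (π (x i)))‖ ≤ L * (1 / 4 * 2 ^ L) := by
      rw [← sum_sub_distrib]
      refine (norm_sum_le _ _).trans ?_
      calc ∑ i ∈ range L, ‖((ep E i : ℝ) : ℂ) * Gf w ε (ψ' (a i)) -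
            ((ep E i : ℝ) : ℂ) * Gf w ε (π' (π (x i)))‖
          ≤ ∑ _i ∈ range L, (1 / 4 * 2 ^ L : ℝ) := by
            refine sum_le_sum fun i hi => ?_
            rw [← mul_sub, norm_mul, hepn, one_mul]
            have e := Gf_sub_le hw hεn (y := ψ' (a i)) (y' := π' (π (x i)))
              ((hψ'n _).trans (han i))
              ((NonUnitalStarAlgHom.norm_apply_le π' _).trans
                ((NonUnitalStarAlgHom.norm_apply_le π _).trans (hxn i)))
              (δ := 1 / 10) (by norm_num) (by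
                rw [hψ'a, ← map_sub]
                exact (NonUnitalStarAlgHom.norm_apply_le π' _).trans (happ' i (mem_range.mp hi)))
            rw [hcard] at e
            refine e.trans (le_of_eq ?_)
            ring
        _ = _ := by rw [sum_const, card_range, nsmul_eq_mul]
    have h6 : (L : ℝ) * 2 ^ (L - 1) ≤
        ‖∑ i ∈ range L, ((ep E i : ℝ) : ℂ) * Gf w ε (ψ' (a i))‖ + L * (1 / 4 * 2 ^ L) := by
      have e : ‖((L : ℂ) * 2 ^ (L - 1) : ℂ)‖ = (L : ℝ) * 2 ^ (L - 1) := by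
        rw [norm_mul, norm_pow, Complex.norm_natCast, Complex.norm_ofNat]
      rw [← e, ← h4]
      have := norm_sub_le (∑ i ∈ range L, ((ep E i : ℝ) : ℂ) * Gf w ε (ψ' (a i)))
        (∑ i ∈ range L, ((ep E i : ℝ) : ℂ) * Gf w ε (ψ' (a i)) -
        ∑ i ∈ range L, ((ep E i : ℝ) : ℂ) * Gf w ε (π' (π (x i))))
      rw [sub_sub_cancel] at this
      linarith
    obtain ⟨M, hM⟩ : ∃ M, L = M + 1 := ⟨L - 1, by omega⟩
    have h7 : (2 : ℝ) ^ L = 2 * 2 ^ (L - 1) := by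
      rw [hM, Nat.add_sub_cancel, pow_succ]
      ring
    have h8 : (0 : ℝ) < 2 ^ (L - 1) := by positivity
    set S := ‖∑ i ∈ range L, ((ep E i : ℝ) : ℂ) • Th (a i)‖
    have h9 : ((1 / 4 : ℝ) * L) * (2 * 2 ^ (L - 1)) ≤ S * (2 * 2 ^ (L - 1)) := by
      rw [h7] at h3 h6
      linarith
    exact le_of_mul_le_mul_right h9 (by positivity)
  have hsum := sum_le_sum hE
  rw [sum_const, card_powerset, card_range, nsmul_eq_mul] at hsum
  push_cast at hsum
  have h7 := hsum.trans hup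
  have h8 : (0 : ℝ) < 2 ^ L := by positivity
  have h9 := le_of_mul_le_mul_left h7 h8
  linarith

end Pool.Agent.L0h53.MD
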