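import Mathlib

/-! Finitely generated abelian subgroups. -/

set_option autoImplicit false
set_option linter.unusedSectionVars false

namespace Pool.Agent.L0h53.MD

variable {G : Type*} [Group G]

/-- the elements of a subgroup commute -/
def Ab (B : Subgroup G) : Prop := ∀ x ∈ B, ∀ y ∈ B, x * y = y * x

lemma Ab.mono {B K : Subgroup G} (h : Ab B) (hK : K ≤ B) : Ab K :=
  fun x hx y hy => h x (hK hx) y (hK hy)

/-- the commutative group -/
@[reducible] def Ab.grp {B : Subgroup G} (h : Ab B) : CommGroup B :=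
  { (inferInstance : Group B) with
    mul_comm := fun x y => Subtype.ext (h x x.2 y y.2) }

/-- a subgroup of a finitely generated commutative group is finitely generated -/
lemma fg_comm (B : Type*) [CommGroup B] [Group.FG B] (K : Subgroup B) : K.FG := by
  have h1 : AddGroup.FG (Additive B) := inferInstance
  have h2 : Module.Finite ℤ (Additive B) := Module.Finite.iff_addGroup_fg.mpr h1
  have h3 : IsNoetherian ℤ (Additive B) := inferInstance
  have h4 := h3.noetherian (AddSubgroup.toIntSubmodule (Subgroup.toAddSubgroup K))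
  rw [Submodule.fg_iff_addSubgroup_fg, AddSubgroup.toIntSubmodule_toAddSubgroup] at h4
  exact (Subgroup.fg_iff_add_fg K).mpr h4

lemma Ab.fg_of_le {B K : Subgroup G} (h : Ab B) (hB : B.FG) (hK : K ≤ B) : K.FG := by
  let _ : CommGroup B := h.grp
  have h1 : Group.FG B := (Group.fg_iff_subgroup_fg B).mpr hB
  obtain ⟨S, hS⟩ := fg_comm B (K.subgroupOf B)
  classical
  refine ⟨S.image B.subtype, ?_⟩
  rw [Finset.coe_image, ← MonoidHom.map_closure, hS, Subgroup.map_subgroupOf_eq_of_le hK]

/-- the torsion is finite -/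
lemma finite_torsion_comm (B : Type*) [CommGroup B] [Group.FG B] :
    {x : B | IsOfFinOrder x}.Finite := by
  have h1 : Group.FG (CommGroup.torsion B) :=
    (Group.fg_iff_subgroup_fg _).mpr (fg_comm B (CommGroup.torsion B))
  have h2 : Finite (CommGroup.torsion B) :=
    CommGroup.finite_of_fg_isMulTorsion _ (CommMonoid.torsion.isMulTorsion (G := B))
  exact Set.toFinite ((CommGroup.torsion B : Subgroup B) : Set B)

lemma Ab.finite_torsion {B : Subgroup G} (h : Ab B) (hB : B.FG) :
    {x : G | x ∈ B ∧ IsOfFinOrder x}.Finite := by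
  let _ : CommGroup B := h.grp
  have h1 : Group.FG B := (Group.fg_iff_subgroup_fg B).mpr hB
  have h2 := finite_torsion_comm B
  refine (h2.image (fun x : B => (x : G))).subset ?_
  rintro x ⟨hx, hx'⟩
  refine ⟨⟨x, hx⟩, ?_, rfl⟩
  rw [Set.mem_ofPred_eq, isOfFinOrder_iff_pow_eq_one]
  obtain ⟨n, hn, h3⟩ := isOfFinOrder_iff_pow_eq_one.mp hx'
  exact ⟨n, hn, Subtype.ext h3⟩

/-- finite index of a subgroup which contains all `d`-th powers -/
lemma Ab.relIndex {B K : Subgroup G} (h : Ab B) (hB : B.FG) {d : ℕ} (hd : 0 < d)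
    (hp : ∀ x ∈ B, x ^ d ∈ K) : K.relIndex B ≠ 0 := by
  let _ : CommGroup B := h.grp
  have h1 : Group.FG B := (Group.fg_iff_subgroup_fg B).mpr hB
  have h2 := Subgroup.finiteIndex_range_powMonoidHom_of_fg B hd.ne'
  have h3 : (powMonoidHom (α := B) d).range ≤ K.subgroupOf B := by
    rintro _ ⟨x, rfl⟩
    exact Subgroup.mem_subgroupOf.mpr (hp x x.2)
  exact (Subgroup.finiteIndex_of_le h3).index_ne_zero

end Pool.Agent.L0h53.MD
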