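import Pool.Agent.W726.NS.Dyn
import Pool.Agent.L0h53.MD.Fg

/-! Elements of infinite order of a convergence group with virtually abelian point stabilisers. -/

set_option autoImplicit false
set_option linter.unusedSectionVars false

namespace Pool.Agent.L0h53.MD

open Filter Topology Set Pool.Agent.W726.NS
open scoped Pointwise

section cov

variable {G : Type*} [Group G]

/-- finitely many cosets of a finitely generated abelian group cover `H` -/
def Cov (H : Subgroup G) : Prop :=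
  ∃ B : Subgroup G, Ab B ∧ B.FG ∧ ∃ R : Finset G, ∀ g ∈ H, ∃ r ∈ R, r⁻¹ * g ∈ B

lemma Cov.mono {H K : Subgroup G} (h : Cov H) (hK : K ≤ H) : Cov K := by
  obtain ⟨B, h1, h2, R, hR⟩ := h
  exact ⟨B, h1, h2, R, fun g hg => hR g (hK hg)⟩

lemma cov_of_relIndex {H B : Subgroup G} (h1 : Ab B) (h2 : B.FG) (h : B.relIndex H ≠ 0) : Cov H := by
  classical
  set K := B.subgroupOf H with hK
  have hKf : K.FiniteIndex := ⟨h⟩
  have hfin : Finite (H ⧸ K) := Subgroup.finite_quotient_of_finiteIndex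
  have := Fintype.ofFinite (H ⧸ K)
  refine ⟨B, h1, h2, Finset.univ.image (fun q : H ⧸ K => ((q.out : H) : G)), fun g hg => ?_⟩
  refine ⟨_, Finset.mem_image_of_mem _ (Finset.mem_univ (QuotientGroup.mk ⟨g, hg⟩)), ?_⟩
  have h1 : (QuotientGroup.mk ⟨g, hg⟩ : H ⧸ K).out⁻¹ * ⟨g, hg⟩ ∈ K := by
    rw [← QuotientGroup.eq]; exact QuotientGroup.out_eq' _
  exact Subgroup.mem_subgroupOf.mp h1

lemma cover_pow' {H B : Subgroup G} {R : Finset G} (hR : ∀ g ∈ H, ∃ r ∈ R, r⁻¹ * g ∈ B) :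
    ∃ d : ℕ, 0 < d ∧ ∀ g ∈ H, g ^ d ∈ B := by
  classical
  refine ⟨(R.card).factorial, Nat.factorial_pos _, fun g hg => ?_⟩
  choose! r hr hi using fun (n : ℕ) => hR (g ^ n) (H.pow_mem hg n)
  obtain ⟨m, hm, n, hn, hmn, hrr⟩ := Finset.exists_ne_map_eq_of_card_lt_of_maps_to
    (s := Finset.range (R.card + 1)) (t := R) (by simp) (f := r) (fun n _ => hr n)
  wlog hlt : m < n generalizing m n
  · exact this n hn m hm hmn.symm hrr.symm (by omega)
  have h1 : g ^ (n - m) ∈ B := by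
    have e1 := hi m
    have e2 := hi n
    rw [← hrr] at e2
    have e3 : g ^ (n - m) = ((r m)⁻¹ * g ^ m)⁻¹ * ((r m)⁻¹ * g ^ n) := by
      have e4 : g ^ n = g ^ m * g ^ (n - m) := by rw [← pow_add]; congr 1; omega
      rw [e4]; group
    rw [e3]
    exact B.mul_mem (B.inv_mem e1) e2
  have h2 : n - m ∣ (R.card).factorial := by
    refine Nat.dvd_factorial (by omega) ?_
    have := Finset.mem_range.mp hn
    omega
  obtain ⟨q, hq⟩ := h2
  rw [hq, pow_mul]
  exact B.pow_mem h1 q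

lemma not_fin_conj {g h : G} (hh : ¬ IsOfFinOrder h) : ¬ IsOfFinOrder (g * h * g⁻¹) := by
  intro h1
  apply hh
  obtain ⟨n, hn, h2⟩ := isOfFinOrder_iff_pow_eq_one.mp h1
  rw [conj_pow, conj_eq_one_iff] at h2
  exact isOfFinOrder_iff_pow_eq_one.mpr ⟨n, hn, h2⟩

/-- powers of `h` and `k` commute -/
def Rel (h k : G) : Prop := ∃ m n : ℕ, 0 < m ∧ 0 < n ∧ Commute (h ^ m) (k ^ n)

lemma Rel.symm {h k : G} (hr : Rel h k) : Rel k h := by
  obtain ⟨m, n, hm, hn, hc⟩ := hr
  exact ⟨n, m, hn, hm, hc.symm⟩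

lemma Rel_map (σ : MulAut G) (h k : G) : Rel (σ h) (σ k) ↔ Rel h k := by
  constructor
  · rintro ⟨m, n, hm, hn, hc⟩
    refine ⟨m, n, hm, hn, ?_⟩
    have : σ (h ^ m * k ^ n) = σ (k ^ n * h ^ m) := by
      rw [map_mul, map_mul, map_pow, map_pow]; exact hc.eq
    exact σ.injective this
  · rintro ⟨m, n, hm, hn, hc⟩
    refine ⟨m, n, hm, hn, ?_⟩
    rw [← map_pow, ← map_pow]
    exact hc.map σ

end cov

variable {G X : Type*} [Group G] [MulAction G X]

variable (X) in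
/-- the points fixed by a power of `h` -/
def Fx (h : G) : Set X := {x | ∃ n : ℕ, 0 < n ∧ h ^ n • x = x}

lemma pow_fix {g : G} {x : X} (h : g • x = x) (n : ℕ) : g ^ n • x = x := by
  have h1 : g ∈ MulAction.stabilizer G x := h
  exact (MulAction.stabilizer G x).pow_mem h1 n

lemma Fx_pow (h : G) {n : ℕ} (hn : 0 < n) : Fx X (h ^ n) = Fx X h := by
  ext x
  constructor
  · rintro ⟨m, hm, h1⟩
    exact ⟨n * m, Nat.mul_pos hn hm, by rwa [pow_mul]⟩
  · rintro ⟨m, hm, h1⟩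
    refine ⟨m, hm, ?_⟩
    rw [← pow_mul, mul_comm, pow_mul]
    exact pow_fix h1 n

lemma Fx_conj (g h : G) : Fx X (g * h * g⁻¹) = g • Fx X h := by
  ext x
  rw [Set.mem_smul_set_iff_inv_smul_mem]
  constructor
  · rintro ⟨n, hn, h1⟩
    refine ⟨n, hn, ?_⟩
    rw [conj_pow, mul_smul, mul_smul] at h1
    rw [eq_inv_smul_iff]
    exact h1
  · rintro ⟨n, hn, h1⟩
    refine ⟨n, hn, ?_⟩
    rw [conj_pow, mul_smul, mul_smul, h1, smul_inv_smul]

lemma sub_Fx {S : Set X} (hS : S.Finite) {k : G} (hk : ∀ x ∈ S, k • x ∈ S) : S ⊆ Fx X k := by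
  intro x hx
  have hpow : ∀ i : ℕ, k ^ i • x ∈ S := by
    intro i
    induction i with
    | zero => simpa using hx
    | succ i ih => rw [pow_succ', mul_smul]; exact hk _ ih
  have : Finite S := hS.to_subtype
  obtain ⟨i, j, hij, he⟩ := Finite.exists_ne_map_eq_of_infinite (fun i : ℕ => (⟨_, hpow i⟩ : S))
  wlog hlt : i < j generalizing i j
  · exact this j i hij.symm he.symm (by omega)
  have he' : k ^ i • x = k ^ j • x := congrArg Subtype.val he
  refine ⟨j - i, by omega, ?_⟩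
  have h1 : k ^ j = k ^ i * k ^ (j - i) := by rw [← pow_add]; congr 1; omega
  rw [h1, mul_smul] at he'
  exact (smul_left_cancel _ he').symm

variable [TopologicalSpace X] [CompactSpace X] [T2Space X]

theorem Fx_finite (hG : ConvergenceAction G X) {h : G} (hh : ¬ IsOfFinOrder h) :
    (Fx X h).Finite := by
  classical
  obtain ⟨hcont, hconv⟩ := hG
  have hinj : Function.Injective (fun k : ℕ => h ^ (k + 1).factorial) := by
    intro i j hij
    have h1 := (injective_pow_iff_not_isOfFinOrder.mpr hh) hij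
    rcases Nat.lt_or_ge (i + 1) 2 with h3 | h3
    · rcases Nat.lt_or_ge (j + 1) 2 with h4 | h4
      · omega
      · have h5 : i + 1 = 1 := by omega
        rw [h5] at h1
        have h6 : (j + 1).factorial = 1 := h1.symm
        rw [Nat.factorial_eq_one] at h6
        omega
    · have := (Nat.factorial_inj (n := i + 1) (m := j + 1) (by omega)).mp h1
      omega
  obtain ⟨φ, hφ, a, b, hab⟩ := hconv _ hinj
  refine (Set.toFinite ({a, b} : Set X)).subset fun x hx => ?_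
  by_contra hne
  have h1 : x ≠ a := fun h => hne (by rw [h]; exact Or.inl rfl)
  have h2 : x ≠ b := fun h => hne (by rw [h]; exact Or.inr rfl)
  obtain ⟨n, hn, h3⟩ := hx
  have h4 := hab {x}ᶜ (isOpen_compl_singleton.mem_nhds (fun h => h1 (by simpa using h.symm)))
    {x}ᶜ (isOpen_compl_singleton.mem_nhds (fun h => h2 (by simpa using h.symm)))
  obtain ⟨k, h5, hk⟩ := (h4.and (eventually_ge_atTop n)).exists
  have h6 := h5 x (by simp)
  apply h6
  have h7 : n ∣ (φ k + 1).factorial :=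
    Nat.dvd_factorial hn ((hk.trans (hφ.id_le k)).trans (Nat.le_succ _))
  obtain ⟨q, hq⟩ := h7
  show h ^ (φ k + 1).factorial • x = x
  rw [hq, pow_mul]
  exact pow_fix h3 q

theorem Fx_nonempty (hG : ConvergenceAction G X) [Infinite X] {h : G} (hh : ¬ IsOfFinOrder h) :
    (Fx X h).Nonempty := by
  obtain ⟨a, ha⟩ := Ep_le_stabilizer hG h hh
  refine ⟨a, 1, one_pos, ?_⟩
  rw [pow_one]
  exact ha (by simpa using zpow_mem_Ep h 1)

lemma Fx_sub_of_comm (hG : ConvergenceAction G X) {h k : G} (hh : ¬ IsOfFinOrder h)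
    (hr : Rel h k) : Fx X h ⊆ Fx X k := by
  obtain ⟨m, n, hm, hn, hc⟩ := hr
  rw [← Fx_pow k hn]
  refine sub_Fx (Fx_finite hG hh) fun x hx => ?_
  rw [← Fx_pow h hm] at hx ⊢
  obtain ⟨j, hj, h1⟩ := hx
  refine ⟨j, hj, ?_⟩
  rw [← mul_smul, (hc.pow_left j).eq, mul_smul, h1]

lemma Rel.fx (hG : ConvergenceAction G X) {h k : G} (hh : ¬ IsOfFinOrder h)
    (hk : ¬ IsOfFinOrder k) (hr : Rel h k) : Fx X h = Fx X k :=
  Subset.antisymm (Fx_sub_of_comm hG hh hr) (Fx_sub_of_comm hG hk hr.symm)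

lemma rel_of_mem {a : X} (hc : Cov (MulAction.stabilizer G a)) {h k : G} (h1 : a ∈ Fx X h)
    (h2 : a ∈ Fx X k) : Rel h k := by
  obtain ⟨B, hB, -, R, hR⟩ := hc
  obtain ⟨d, hd, hp⟩ := cover_pow' hR
  obtain ⟨m, hm, e1⟩ := h1
  obtain ⟨n, hn, e2⟩ := h2
  refine ⟨m * d, n * d, Nat.mul_pos hm hd, Nat.mul_pos hn hd, ?_⟩
  rw [pow_mul, pow_mul]
  exact hB _ (hp _ e1) _ (hp _ e2)

variable (X) in
/-- the stabiliser of the fixed points -/
def En (h : G) : Subgroup G := MulAction.stabilizer G (Fx X h)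

lemma mem_En_iff {h g : G} : g ∈ En X h ↔ g • Fx X h = Fx X h := Iff.rfl

lemma smul_mem_of_En {h g : G} (hg : g ∈ En X h) {x : X} (hx : x ∈ Fx X h) : g • x ∈ Fx X h := by
  rw [mem_En_iff] at hg
  rw [← hg]
  exact Set.smul_mem_smul_set hx

variable [Infinite X]

/-- the stabiliser is determined by the group -/
lemma mem_En (hG : ConvergenceAction G X) (hst : ∀ p : X, Cov (MulAction.stabilizer G p)) {h : G}
    (hh : ¬ IsOfFinOrder h) (g : G) : g ∈ En X h ↔ Rel (g * h * g⁻¹) h := by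
  rw [mem_En_iff, ← Fx_conj]
  constructor
  · intro he
    obtain ⟨a, ha⟩ := Fx_nonempty hG hh
    exact rel_of_mem (hst a) (by rw [he]; exact ha) ha
  · intro hr
    exact hr.fx hG (not_fin_conj hh) hh

lemma En_map (hG : ConvergenceAction G X) (hst : ∀ p : X, Cov (MulAction.stabilizer G p))
    (σ : MulAut G) {h : G} (hh : ¬ IsOfFinOrder h) (g : G) :
    σ g ∈ En X (σ h) ↔ g ∈ En X h := by
  have hh' : ¬ IsOfFinOrder (σ h) := by
    intro hf
    apply hh
    obtain ⟨n, hn, h2⟩ := isOfFinOrder_iff_pow_eq_one.mp hf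
    refine isOfFinOrder_iff_pow_eq_one.mpr ⟨n, hn, σ.injective ?_⟩
    rw [map_pow, h2, map_one]
  rw [mem_En hG hst hh', mem_En hG hst hh, ← map_inv, ← map_mul, ← map_mul, Rel_map]

lemma En_cov (hG : ConvergenceAction G X) (hst : ∀ p : X, Cov (MulAction.stabilizer G p)) {h : G}
    (hh : ¬ IsOfFinOrder h) : Cov (En X h) := by
  classical
  obtain ⟨a, ha⟩ := Fx_nonempty hG hh
  obtain ⟨B, h1, h2, R, hR⟩ := hst a
  have hfin := Fx_finite hG hh
  set w : X → G := fun x => if hx : ∃ g : G, g • a = x then hx.choose else 1 with hw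
  refine ⟨B, h1, h2, (hfin.toFinset ×ˢ R).image (fun p => w p.1 * p.2), fun g hg => ?_⟩
  have h3 : g • a ∈ Fx X h := smul_mem_of_En hg ha
  have h4 : w (g • a) • a = g • a := by
    have hx : ∃ g' : G, g' • a = g • a := ⟨g, rfl⟩
    simp only [hw]
    rw [dif_pos hx]
    exact hx.choose_spec
  have h5 : (w (g • a))⁻¹ * g ∈ MulAction.stabilizer G a := by
    rw [MulAction.mem_stabilizer_iff, mul_smul, inv_smul_eq_iff]
    exact h4.symm
  obtain ⟨r, hr, h6⟩ := hR _ h5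
  refine ⟨w (g • a) * r, Finset.mem_image.mpr ⟨(g • a, r), ?_, rfl⟩, ?_⟩
  · rw [Finset.mem_product]
    exact ⟨hfin.mem_toFinset.mpr h3, hr⟩
  · have e : (w (g • a) * r)⁻¹ * g = r⁻¹ * ((w (g • a))⁻¹ * g) := by group
    rw [e]; exact h6

lemma En_eq_of_mem (hG : ConvergenceAction G X) (hst : ∀ p : X, Cov (MulAction.stabilizer G p))
    {h k : G} (hh : ¬ IsOfFinOrder h) (hk : ¬ IsOfFinOrder k) (hkh : k ∈ En X h) :
    En X h = En X k := by
  have h1 : Fx X h ⊆ Fx X k := sub_Fx (Fx_finite hG hh) fun x hx => smul_mem_of_En hkh hx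
  obtain ⟨a, ha⟩ := Fx_nonempty hG hh
  have h2 := rel_of_mem (hst a) ha (h1 ha)
  rw [En, En, h2.fx hG hh hk]

lemma mem_En_of_comm (hG : ConvergenceAction G X) (hst : ∀ p : X, Cov (MulAction.stabilizer G p))
    {h g : G} (hh : ¬ IsOfFinOrder h) (hc : g * h = h * g) : g ∈ En X h := by
  rw [mem_En hG hst hh]
  have e : g * h * g⁻¹ = h := by rw [hc, mul_inv_cancel_right]
  rw [e]
  exact ⟨1, 1, one_pos, one_pos, Commute.refl _⟩

end Pool.Agent.L0h53.MD
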