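import Pool.Agent.L0h53.MD.Tam

/-! Automorphisms with an inner power. -/

set_option autoImplicit false
set_option linter.unusedSectionVars false

namespace Pool.Agent.L0h53.MD

open Set Pool.Agent.W726.NS

variable {G X : Type*} [Group G] [MulAction G X] [TopologicalSpace X] [CompactSpace X] [T2Space X]
  [Infinite X]

/-- automorphisms with an inner power are quasi-unipotent on the invariant finitely generated
abelian subgroups -/
theorem quni_of_inner (hG : ConvergenceAction G X) (hst : ∀ p : X, Cov (MulAction.stabilizer G p))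
    (σ : MulAut G) {m : ℕ} (hm : 0 < m) {c : G} (hc : ∀ x, (σ ^ m) x = c * x * c⁻¹) : QUni σ := by
  classical
  intro A hA hfg m' hm' hinv
  have hconj : ∀ (n : ℕ) (x : G), (σ ^ (m * n)) x = c ^ n * x * (c ^ n)⁻¹ := by
    intro n
    induction n with
    | zero => intro x; simp
    | succ n ih =>
      intro x
      rw [Nat.mul_succ, pow_add, MulAut.mul_apply, hc, ih, pow_succ]
      group
  have hinvn : ∀ (n : ℕ) z, (σ ^ (m' * n)) z ∈ A ↔ z ∈ A := by
    intro n
    induction n with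
    | zero => intro z; simp
    | succ n ih => intro z; rw [Nat.mul_succ, pow_add, MulAut.mul_apply, ih, hinv]
  -- the differences have finite order
  obtain ⟨d, hd, htor⟩ : ∃ d : ℕ, 0 < d ∧ ∀ a ∈ A, IsOfFinOrder (a⁻¹ * (σ ^ (m' * (m * d))) a) := by
    by_cases hinf : ∃ h ∈ A, ¬ IsOfFinOrder h
    · obtain ⟨h, hhA, hh⟩ := hinf
      have e0 : ∀ d x, (σ ^ (m' * (m * d))) x = (c ^ m') ^ d * x * ((c ^ m') ^ d)⁻¹ := by
        intro d x
        rw [show m' * (m * d) = m * (m' * d) by ring, hconj, pow_mul]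
      have h1 : c ^ m' * h * (c ^ m')⁻¹ ∈ A := by
        have := (hinvn (m * 1) h).mpr hhA
        rwa [e0, pow_one] at this
      have h2 : c ^ m' ∈ En X h := by
        rw [mem_En hG hst hh]
        refine ⟨1, 1, one_pos, one_pos, ?_⟩
        rw [pow_one, pow_one]
        exact hA _ h1 _ hhA
      obtain ⟨B, hB, -, R, hR⟩ := En_cov hG hst hh
      obtain ⟨d, hd, hp⟩ := cover_pow' hR
      refine ⟨d, hd, fun a ha => ?_⟩
      have h3 : a ∈ En X h := mem_En_of_comm hG hst hh (hA a ha h hhA)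
      have h4 := hB _ (hp _ h2) _ (hp _ h3)
      have h5 : (σ ^ (m' * (m * d))) (a ^ d) = a ^ d := by
        rw [e0, h4, mul_inv_cancel_right]
      have h6 : Commute (a⁻¹) ((σ ^ (m' * (m * d))) a) :=
        hA _ (A.inv_mem ha) _ ((hinvn _ a).mpr ha)
      refine isOfFinOrder_iff_pow_eq_one.mpr ⟨d, hd, ?_⟩
      rw [h6.mul_pow, ← map_pow, h5, inv_pow, inv_mul_cancel]
    · push Not at hinf
      exact ⟨1, one_pos, fun a ha => hinf _ (A.mul_mem (A.inv_mem ha) ((hinvn _ a).mpr ha))⟩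
  set ρ : MulAut G := σ ^ (m' * (m * d)) with hρ
  have hρA : ∀ z, ρ z ∈ A ↔ z ∈ A := hinvn _
  set T : Set G := {x : G | x ∈ A ∧ IsOfFinOrder x} with hT
  have hTfin : T.Finite := hA.finite_torsion hfg
  have hρT : ∀ x ∈ T, ρ x ∈ T := by
    rintro x ⟨hx, hx'⟩
    exact ⟨(hρA x).mpr hx, MonoidHom.isOfFinOrder (MulEquiv.toMonoidHom ρ) hx'⟩
  have hρTn : ∀ (n : ℕ), ∀ x ∈ T, (ρ ^ n) x ∈ T := by
    intro n
    induction n with
    | zero => intro x hx; simpa using hx
    | succ n ih => intro x hx; rw [pow_succ', MulAut.mul_apply]; exact hρT _ (ih x hx)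
  have hmulT : ∀ x ∈ T, ∀ y ∈ T, x * y ∈ T := by
    rintro x ⟨hx, hx'⟩ y ⟨hy, hy'⟩
    exact ⟨A.mul_mem hx hy, (show Commute x y from hA x hx y hy).isOfFinOrder_mul hx' hy'⟩
  have hfix := sub_Fx (G := MulAut G) (X := G) hTfin (k := ρ) hρT
  have hfix' : ∀ x ∈ T, ∃ n : ℕ, 0 < n ∧ (ρ ^ n) x = x := fun x hx => hfix hx
  choose! q hq hq' using hfix'
  set p : ℕ := ∏ x ∈ hTfin.toFinset, q x with hp
  have hp0 : 0 < p := Finset.prod_pos fun x hx => hq x (hTfin.mem_toFinset.mp hx)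
  have hpfix : ∀ x ∈ T, (ρ ^ p) x = x := by
    intro x hx
    obtain ⟨s, hs⟩ := Finset.dvd_prod_of_mem q (hTfin.mem_toFinset.mpr hx)
    rw [hp, hs, pow_mul]
    exact pow_fix (G := MulAut G) (X := G) (hq' x hx) s
  refine ⟨m * d * p, 2, Nat.mul_pos (Nat.mul_pos hm hd) hp0, fun a ha => ?_⟩
  have hpow : σ ^ (m' * (m * d * p)) = ρ ^ p := by
    rw [hρ, ← pow_mul]; congr 1; ring
  have hdiff : ∀ n : ℕ, a⁻¹ * (ρ ^ n) a ∈ T := by
    intro n
    induction n with
    | zero => simp [hT, A.one_mem, IsOfFinOrder.one]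
    | succ n ih =>
      have e : a⁻¹ * (ρ ^ (n + 1)) a = (a⁻¹ * (ρ ^ n) a) * (ρ ^ n) (a⁻¹ * ρ a) := by
        rw [pow_succ, MulAut.mul_apply, map_mul, map_inv]; group
      rw [e]
      exact hmulT _ ih _ (hρTn n _ ⟨A.mul_mem (A.inv_mem ha) ((hρA a).mpr ha), htor a ha⟩)
  show gd σ (m' * (m * d * p)) (gd σ (m' * (m * d * p)) a) = 1
  rw [gd, gd, hpow, hpfix _ (hdiff p), inv_mul_cancel]

end Pool.Agent.L0h53.MD
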