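import Mathlib
import Pool.Agent.L0h53.MD.Fix

/-! Kronecker's theorem for automorphisms of finitely generated abelian groups. -/

set_option autoImplicit false
set_option linter.unusedSectionVars false

namespace Pool.Agent.L0h53.MD

open Polynomial Finset

theorem dvd_of_roots_le_one (p : ℤ[X]) (hp : p.Monic) (h0 : p.coeff 0 ≠ 0)
    (h : ∀ z ∈ (p.map (Int.castRingHom ℂ)).roots, ‖z‖ ≤ 1) :
    ∃ j k : ℕ, 0 < j ∧ p ∣ (X ^ j - 1) ^ k := by
  classical
  set q : ℂ[X] := p.map (Int.castRingHom ℂ) with hq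
  have hqm : q.Monic := hp.map _
  have hM : q.mahlerMeasure = 1 := by
    rw [mahlerMeasure_eq_leadingCoeff_mul_prod_roots, hqm.leadingCoeff, norm_one, one_mul]
    refine Multiset.prod_eq_one fun x hx => ?_
    obtain ⟨z, hz, rfl⟩ := Multiset.mem_map.mp hx
    exact max_eq_left (h z hz)
  have hz0 : ∀ z ∈ q.roots, z ≠ 0 := by
    rintro z hz rfl
    rw [mem_roots hqm.ne_zero, IsRoot.def, ← coeff_zero_eq_eval_zero, hq, coeff_map] at hz
    apply h0
    simpa using hz
  have hroot : ∀ z ∈ q.roots, ∃ n : ℕ, 0 < n ∧ z ^ n = 1 := by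
    intro z hz
    refine pow_eq_one_of_mahlerMeasure_eq_one (p := p) hM (hz0 z hz) ?_
    rw [aroots_def]
    exact hz
  choose! n hn hn' using hroot
  set j := ∏ z ∈ q.roots.toFinset, n z with hj
  have hj0 : 0 < j := Finset.prod_pos fun z hz => hn z (Multiset.mem_toFinset.mp hz)
  have hj1 : ∀ z ∈ q.roots, z ^ j = 1 := by
    intro z hz
    obtain ⟨s, hs⟩ := Finset.dvd_prod_of_mem n (Multiset.mem_toFinset.mpr hz)
    rw [hj, hs, pow_mul, hn' z hz, one_pow]
  refine ⟨j, Multiset.card q.roots, hj0, ?_⟩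
  rw [← map_dvd_map (Int.castRingHom ℂ) (RingHom.injective_int _) hp]
  have h1 : q = (q.roots.map fun a => X - C a).prod :=
    ((IsAlgClosed.splits q).eq_prod_roots_of_monic hqm)
  have h2 : (Polynomial.map (Int.castRingHom ℂ) ((X ^ j - 1) ^ Multiset.card q.roots) : ℂ[X]) =
      (q.roots.map fun _ => (X ^ j - 1 : ℂ[X])).prod := by
    rw [Multiset.map_const', Multiset.prod_replicate]
    simp
  rw [h2]
  rw [← hq]
  conv_lhs => rw [h1]
  refine Multiset.prod_dvd_prod_of_dvd _ _ fun z hz => ?_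
  rw [dvd_iff_isRoot, IsRoot.def]
  simp [hj1 z hz]

/-- torsion free case -/
theorem kro_free (M : Type*) [AddCommGroup M] [Module.Finite ℤ M] [Module.Free ℤ M]
    (F : M ≃ₗ[ℤ] M) :
    (∃ j k : ℕ, 0 < j ∧ (((F : M →ₗ[ℤ] M) ^ j - 1) ^ k : Module.End ℤ M) = 0) ∨
    ∃ (l : M →+ ℂ) (z : ℂ), 1 < ‖z‖ ∧ (∀ x, l (F x) = z * l x) ∧ ∃ x, l x ≠ 0 := by
  classical
  set f : Module.End ℤ M := (F : M →ₗ[ℤ] M) with hf
  set p := f.charpoly with hp
  have hpm : p.Monic := f.charpoly_monic
  have h0 : p.coeff 0 ≠ 0 := by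
    intro h0
    have h1 := LinearMap.det_eq_sign_charpoly_coeff f
    rw [← hp, h0, mul_zero] at h1
    have h2 := LinearEquiv.isUnit_det' F
    rw [← hf, h1] at h2
    exact not_isUnit_zero h2
  by_cases h : ∀ z ∈ (p.map (Int.castRingHom ℂ)).roots, ‖z‖ ≤ 1
  · obtain ⟨j, k, hj, q, hq⟩ := dvd_of_roots_le_one p hpm h0 h
    refine Or.inl ⟨j, k, hj, ?_⟩
    have h1 : aeval f ((X ^ j - 1 : ℤ[X]) ^ k) = 0 := by
      rw [hq, map_mul, hp, LinearMap.aeval_self_charpoly, zero_mul]
    simpa using h1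
  · push Not at h
    obtain ⟨z, hz, hz1⟩ := h
    right
    set b := Module.Free.chooseBasis ℤ M with hb
    set P := LinearMap.toMatrix b b f with hP
    have hPc : P.charpoly = p := LinearMap.charpoly_toMatrix f b
    set Q := P.map (Int.castRingHom ℂ) with hQ
    have hQc : Q.charpoly = p.map (Int.castRingHom ℂ) := by
      rw [hQ, Matrix.charpoly_map, hPc]
    have hdet : (Matrix.scalar _ z - Q).det = 0 := by
      rw [← Matrix.eval_charpoly, hQc]
      exact (mem_roots (hpm.map _).ne_zero).mp hz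
    obtain ⟨w, hw0, hw⟩ := Matrix.exists_vecMul_eq_zero_iff.mpr hdet
    have hw' : Matrix.vecMul w Q = z • w := by
      rw [Matrix.vecMul_sub, sub_eq_zero] at hw
      rw [← hw]
      ext i
      simp [Matrix.scalar_apply, Matrix.vecMul_diagonal, mul_comm]
    let l : M →+ ℂ := AddMonoidHom.mk' (fun x => ∑ i, w i * ((b.repr x i : ℤ) : ℂ)) (by
      intro x y
      simp only [map_add, Finsupp.add_apply, Int.cast_add, mul_add, Finset.sum_add_distrib])
    have hl : ∀ x, l x = ∑ i, w i * ((b.repr x i : ℤ) : ℂ) := fun x => rfl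
    refine ⟨l, z, hz1, fun x => ?_, ?_⟩
    · have h1 : ∀ i, b.repr (F x) i = ∑ j, P i j * b.repr x j := by
        intro i
        have := LinearMap.toMatrix_mulVec_repr b b f x
        have h2 := congrFun this i
        rw [Matrix.mulVec, dotProduct] at h2
        exact h2.symm
      rw [hl, hl]
      have h3 : ∀ j, z * w j = ∑ i, w i * Q i j := by
        intro j
        have := congrFun hw' j
        rw [Matrix.vecMul, dotProduct, Pi.smul_apply, smul_eq_mul] at this
        exact this.symm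
      calc ∑ i, w i * ((b.repr (F x) i : ℤ) : ℂ)
          = ∑ i, ∑ j, w i * (Q i j * ((b.repr x j : ℤ) : ℂ)) := by
            refine Finset.sum_congr rfl fun i _ => ?_
            rw [h1, Int.cast_sum, Finset.mul_sum]
            refine Finset.sum_congr rfl fun j _ => ?_
            rw [hQ, Matrix.map_apply, Int.cast_mul]
            rfl
        _ = ∑ j, ∑ i, w i * (Q i j * ((b.repr x j : ℤ) : ℂ)) := Finset.sum_comm
        _ = z * ∑ j, w j * ((b.repr x j : ℤ) : ℂ) := by
            rw [Finset.mul_sum]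
            refine Finset.sum_congr rfl fun j _ => ?_
            rw [← mul_assoc, h3, Finset.sum_mul]
            refine Finset.sum_congr rfl fun i _ => ?_
            ring
    · obtain ⟨i, hi⟩ : ∃ i, w i ≠ 0 := by
        by_contra hcon
        push Not at hcon
        exact hw0 (funext hcon)
      refine ⟨b i, ?_⟩
      rw [hl, Finset.sum_eq_single i]
      · simpa using hi
      · intro j _ hj
        simp [Finsupp.single_apply, hj.symm]
      · intro h; exact absurd (Finset.mem_univ i) h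

/-- the general case -/
theorem kro (M : Type*) [AddCommGroup M] [Module.Finite ℤ M] (F : M ≃ₗ[ℤ] M) :
    (∃ j k : ℕ, 0 < j ∧ ∀ x, (((F : M →ₗ[ℤ] M) ^ j - 1) ^ k : Module.End ℤ M) x = 0) ∨
    ∃ (l : M →+ ℂ) (z : ℂ), 1 < ‖z‖ ∧ (∀ x, l (F x) = z * l x) ∧ ∃ x, l x ≠ 0 := by
  classical
  set T := Submodule.torsion ℤ M with hT
  have hmem : ∀ x, F x ∈ T ↔ x ∈ T := by
    intro x
    rw [hT, Submodule.mem_torsion_iff, Submodule.mem_torsion_iff]
    constructor
    · rintro ⟨a, ha⟩
      refine ⟨a, F.injective ?_⟩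
      rw [map_zero]
      rw [← ha]
      exact F.map_smul (a : ℤ) x
    · rintro ⟨a, ha⟩
      refine ⟨a, ?_⟩
      have h1 := congrArg F ha
      rw [map_zero] at h1
      rw [← h1]
      exact (F.map_smul (a : ℤ) x).symm
  have hmap : T.map (F : M →ₗ[ℤ] M) = T := by
    ext x
    constructor
    · rintro ⟨y, hy, rfl⟩
      exact (hmem y).mpr hy
    · intro hx
      refine ⟨F.symm x, ?_, by simp⟩
      have := (hmem (F.symm x))
      rw [LinearEquiv.apply_symm_apply] at this
      exact this.mp hx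
  let F' : (M ⧸ T) ≃ₗ[ℤ] (M ⧸ T) := Submodule.Quotient.equiv T T F hmap
  have hF' : ∀ x, F' (T.mkQ x) = T.mkQ (F x) := fun x => rfl
  have hfree : Module.Free ℤ (M ⧸ T) := inferInstance
  have hTfin : Finite T := by
    have h1 : Module.Finite ℤ T := inferInstance
    exact Module.finite_of_fg_torsion T (Submodule.torsion_isTorsion (R := ℤ) (M := M))
  rcases kro_free (M ⧸ T) F' with ⟨j, k, hj, h⟩ | ⟨l, z, hz, h1, x, h2⟩
  · left
    set f : Module.End ℤ M := (F : M →ₗ[ℤ] M) with hf
    set f' : Module.End ℤ (M ⧸ T) := (F' : (M ⧸ T) →ₗ[ℤ] (M ⧸ T)) with hf'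
    have hpow : ∀ (n : ℕ) x, T.mkQ ((f ^ n) x) = (f' ^ n) (T.mkQ x) := by
      intro n
      induction n with
      | zero => intro x; rfl
      | succ n ih =>
        intro x
        rw [pow_succ, pow_succ, Module.End.mul_apply, Module.End.mul_apply, ih]
        rfl
    have hdiff : ∀ (n : ℕ) x, T.mkQ (((f ^ j - 1) ^ n : Module.End ℤ M) x) =
        ((f' ^ j - 1) ^ n : Module.End ℤ (M ⧸ T)) (T.mkQ x) := by
      intro n
      induction n with
      | zero => intro x; rfl
      | succ n ih =>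
        intro x
        rw [pow_succ, pow_succ, Module.End.mul_apply, Module.End.mul_apply, ih, LinearMap.sub_apply,
          LinearMap.sub_apply, map_sub, hpow]
        rfl
    have htor : ∀ x, ((f ^ j - 1) ^ k : Module.End ℤ M) x ∈ T := by
      intro x
      rw [← Submodule.Quotient.mk_eq_zero, ← Submodule.mkQ_apply, hdiff, h]
      rfl
    -- a power which fixes the torsion
    have hTset : (T : Set M).Finite := Set.toFinite _
    have hfix := sub_Fx (G := M ≃ₗ[ℤ] M) (X := M) hTset (k := F ^ j) (by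
      intro x hx
      have h3 : ∀ n : ℕ, ∀ x ∈ T, (F ^ n) x ∈ T := by
        intro n
        induction n with
        | zero => intro x hx; exact hx
        | succ n ih => intro x hx; exact ih _ ((hmem x).mpr hx)
      exact h3 j x hx)
    have hfix' : ∀ x ∈ T, ∃ n : ℕ, 0 < n ∧ ((F ^ j) ^ n) x = x := fun x hx => hfix hx
    choose! q hq hq' using hfix'
    set p : ℕ := ∏ x ∈ hTset.toFinset, q x with hp
    have hp0 : 0 < p := Finset.prod_pos fun x hx => hq x (hTset.mem_toFinset.mp hx)
    have hpfix : ∀ x ∈ T, ((F ^ j) ^ p) x = x := by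
      intro x hx
      obtain ⟨s, hs⟩ := Finset.dvd_prod_of_mem q (hTset.mem_toFinset.mpr hx)
      rw [hp, hs, pow_mul]
      exact pow_fix (G := M ≃ₗ[ℤ] M) (X := M) (hq' x hx) s
    have hcoe : ∀ (n : ℕ) x, (f ^ n) x = (F ^ n) x := by
      intro n
      induction n with
      | zero => intro x; rfl
      | succ n ih =>
        intro x
        rw [pow_succ, pow_succ, Module.End.mul_apply, LinearEquiv.mul_apply, ih]
        rfl
    refine ⟨j * p, k + 1, Nat.mul_pos hj hp0, fun x => ?_⟩
    obtain ⟨s, hs⟩ : ∃ s : Module.End ℤ M, f ^ (j * p) - 1 = (f ^ j - 1) * s ∧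
        Commute (f ^ j - 1) s := by
      refine ⟨∑ i ∈ range p, (f ^ j) ^ i, ?_, ?_⟩
      · rw [mul_geom_sum, pow_mul]
      · refine Commute.sum_right _ _ _ fun i _ => ?_
        exact (Commute.sub_left (Commute.refl (f ^ j)) (Commute.one_left _)).pow_right i
    have h4 : ((f ^ (j * p) - 1) ^ k : Module.End ℤ M) x ∈ T := by
      rw [hs.1, hs.2.mul_pow, Module.End.mul_apply]
      exact htor _
    rw [pow_succ', Module.End.mul_apply, LinearMap.sub_apply, hcoe, pow_mul, hpfix _ h4]
    exact sub_self _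
  · right
    exact ⟨l.comp T.mkQ.toAddMonoidHom, z, hz, fun y => h1 (T.mkQ y), by
      obtain ⟨y, rfl⟩ := T.mkQ_surjective x
      exact ⟨y, h2⟩⟩

end Pool.Agent.L0h53.MD
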