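import Pool.Agent.L0h53.MD.Fix

/-! The dichotomy for the orbits of an automorphism: sparse orbits and tame orbits. -/

set_option autoImplicit false
set_option linter.unusedSectionVars false

namespace Pool.Agent.L0h53.MD

open Set Pool.Agent.W726.NS

section group

variable {G : Type*} [Group G]

/-- infinitely many elements in one coset of an abelian group -/
lemma exists_inf {K : Subgroup G} (hc : Cov K) {ι : Type*} (S : Set ι) (hS : S.Infinite)
    (x : ι → G) (hx : InjOn x S) (hH : ∀ n ∈ S, x n ∈ K) :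
    ∃ r c : G, ¬ IsOfFinOrder c ∧ {n ∈ S | (r⁻¹ * x n) * c = c * (r⁻¹ * x n)}.Infinite ∧
      ∃ n₀ ∈ S, ∃ n₁ ∈ S, c = (x n₀)⁻¹ * x n₁ := by
  classical
  obtain ⟨B, hB, hfg, R, hR⟩ := hc
  have h1 : ∃ r ∈ R, {n ∈ S | r⁻¹ * x n ∈ B}.Infinite := by
    by_contra hcon
    push Not at hcon
    apply hS
    have h2 : (⋃ r ∈ R, {n ∈ S | r⁻¹ * x n ∈ B}).Finite :=
      R.finite_toSet.biUnion (fun r hr => not_infinite.mp (by
        intro h; exact absurd (hcon r hr) (by simpa using h)))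
    refine h2.subset (fun n hn => ?_)
    obtain ⟨r, hr, hi⟩ := hR _ (hH n hn)
    exact mem_biUnion hr ⟨hn, hi⟩
  obtain ⟨r, -, hr⟩ := h1
  obtain ⟨n₀, hn₀S, hn₀⟩ := hr.nonempty
  have hmem : ∀ n ∈ {n ∈ S | r⁻¹ * x n ∈ B}, (x n₀)⁻¹ * x n ∈ B := by
    rintro n ⟨-, hn⟩
    have e : (x n₀)⁻¹ * x n = (r⁻¹ * x n₀)⁻¹ * (r⁻¹ * x n) := by group
    rw [e]
    exact B.mul_mem (B.inv_mem hn₀) hn
  obtain ⟨n₁, hn₁, hinf⟩ : ∃ n₁ ∈ {n ∈ S | r⁻¹ * x n ∈ B}, ¬ IsOfFinOrder ((x n₀)⁻¹ * x n₁) := by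
    by_contra hcon
    push Not at hcon
    apply hr
    have h3 := hB.finite_torsion hfg
    refine Set.Finite.of_finite_image (f := fun n => (x n₀)⁻¹ * x n) ?_ ?_
    · refine h3.subset ?_
      rintro _ ⟨n, hn, rfl⟩
      exact ⟨hmem n hn, hcon n hn⟩
    · intro m hm n hn hmn
      exact hx hm.1 hn.1 (mul_left_cancel hmn)
  refine ⟨r, _, hinf, hr.mono ?_, n₀, hn₀S, n₁, hn₁.1, rfl⟩
  rintro n ⟨hn, hn'⟩
  exact ⟨hn, hB _ hn' _ (hmem n₁ hn₁)⟩

end group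

variable {G X : Type*} [Group G] [MulAction G X] [TopologicalSpace X] [CompactSpace X] [T2Space X]
  [Infinite X]

variable (X) in
/-- the line through `y` in direction `h` -/
def Ln (x : ℕ → G) (y h : G) : Set ℕ := {n | y⁻¹ * x n ∈ En X h}

lemma line_eq' (hG : ConvergenceAction G X) (hst : ∀ p : X, Cov (MulAction.stabilizer G p))
    {x : ℕ → G} (hx : Function.Injective x) {y h y' h' : G}
    (hh : ¬ IsOfFinOrder h) (hh' : ¬ IsOfFinOrder h')
    (hinf : (Ln X x y h ∩ Ln X x y' h').Infinite) :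
    En X h = En X h' ∧ y⁻¹ * y' ∈ En X h := by
  obtain ⟨n0, hn0⟩ := hinf.nonempty
  obtain ⟨h3, h4⟩ := hn0
  have hmem : ∀ n ∈ Ln X x y h ∩ Ln X x y' h', (x n0)⁻¹ * x n ∈ En X h ⊓ En X h' := by
    rintro n ⟨h1, h2⟩
    refine Subgroup.mem_inf.mpr ⟨?_, ?_⟩
    · have := (En X h).mul_mem ((En X h).inv_mem h3) h1
      have e : (x n0)⁻¹ * x n = (y⁻¹ * x n0)⁻¹ * (y⁻¹ * x n) := by group
      rw [e]; exact this
    · have := (En X h').mul_mem ((En X h').inv_mem h4) h2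
      have e : (x n0)⁻¹ * x n = (y'⁻¹ * x n0)⁻¹ * (y'⁻¹ * x n) := by group
      rw [e]; exact this
  obtain ⟨-, c, hcinf, -, m₀, hm₀, m₁, hm₁, hc⟩ := exists_inf (K := En X h ⊓ En X h')
    ((En_cov hG hst hh).mono inf_le_left) _ hinf (fun n => (x n0)⁻¹ * x n)
    (fun m _ n _ hmn => hx (mul_left_cancel hmn)) hmem
  have hcm : c ∈ En X h ⊓ En X h' := by
    rw [hc]
    exact Subgroup.mul_mem _ (Subgroup.inv_mem _ (hmem _ hm₀)) (hmem _ hm₁)
  obtain ⟨hk1, hk2⟩ := Subgroup.mem_inf.mp hcm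
  have e1 := En_eq_of_mem hG hst hh hcinf hk1
  have e2 := En_eq_of_mem hG hst hh' hcinf hk2
  have e3 : En X h = En X h' := e1.trans e2.symm
  refine ⟨e3, ?_⟩
  have h5 : y⁻¹ * x n0 ∈ En X h := h3
  have h6 : y'⁻¹ * x n0 ∈ En X h := by rw [e3]; exact h4
  have e : y⁻¹ * y' = (y⁻¹ * x n0) * (y'⁻¹ * x n0)⁻¹ := by group
  rw [e]
  exact (En X h).mul_mem h5 ((En X h).inv_mem h6)

variable (X) in
/-- the infinite lines -/
def Lns (x : ℕ → G) : Set (Set ℕ) :=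
  {L | ∃ y h : G, ¬ IsOfFinOrder h ∧ L = Ln X x y h ∧ L.Infinite}

lemma lns_inter (hG : ConvergenceAction G X) (hst : ∀ p : X, Cov (MulAction.stabilizer G p))
    {x : ℕ → G} (hx : Function.Injective x) {L L' : Set ℕ}
    (hL : L ∈ Lns X x) (hL' : L' ∈ Lns X x) (hne : L ≠ L') : (L ∩ L').Finite := by
  obtain ⟨y, h, hh, rfl, -⟩ := hL
  obtain ⟨y', h', hh', rfl, -⟩ := hL'
  by_contra hinf
  obtain ⟨e, hy⟩ := line_eq' hG hst hx hh hh' hinf
  apply hne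
  ext n
  show y⁻¹ * x n ∈ En X h ↔ y'⁻¹ * x n ∈ En X h'
  rw [← e]
  have e2 : y⁻¹ * x n = (y⁻¹ * y') * (y'⁻¹ * x n) := by group
  rw [e2]
  exact (En X h).mul_mem_cancel_left hy

lemma lns_finite [Countable G] (hG : ConvergenceAction G X)
    (hst : ∀ p : X, Cov (MulAction.stabilizer G p)) {x : ℕ → G} (hx : Function.Injective x)
    (ha : ∀ S : Set ℕ, S.Infinite → ∃ L ∈ Lns X x, (S ∩ L).Infinite) : (Lns X x).Finite := by
  classical
  by_contra hinf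
  have hcount : (Lns X x).Countable := by
    have : Lns X x ⊆ range (fun p : G × G => Ln X x p.1 p.2) := by
      rintro L ⟨y, h, -, rfl, -⟩
      exact ⟨(y, h), rfl⟩
    exact (countable_range _).mono this
  have hc : Countable (Lns X x) := hcount.to_subtype
  have hi : Infinite (Lns X x) := Set.Infinite.to_subtype hinf
  obtain ⟨hden⟩ := nonempty_denumerable (Lns X x)
  let e : Lns X x ≃ ℕ := Denumerable.eqv _
  let f : ℕ → Set ℕ := fun k => (e.symm k : Set ℕ)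
  have hfmem : ∀ k, f k ∈ Lns X x := fun k => (e.symm k).2
  have hfinj : ∀ i j, f i = f j → i = j := by
    intro i j hij
    exact e.symm.injective (Subtype.ext hij)
  have hfinf : ∀ k, (f k \ ⋃ i ∈ Finset.range k, f i).Infinite := by
    intro k
    obtain ⟨y, h, hh, e1, h1⟩ := hfmem k
    have h2 : (f k ∩ ⋃ i ∈ Finset.range k, f i).Finite := by
      rw [inter_iUnion₂]
      refine (Finset.finite_toSet _).biUnion (fun i hi => ?_)
      refine lns_inter hG hst hx (hfmem k) (hfmem i) (fun heq => ?_)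
      have := hfinj _ _ heq
      have h3 := Finset.mem_range.mp hi
      omega
    intro h3
    exact h1 ((h3.union h2).subset (fun n hn => by
      by_cases h4 : n ∈ ⋃ i ∈ Finset.range k, f i
      · exact Or.inr ⟨hn, h4⟩
      · exact Or.inl ⟨hn, h4⟩))
  choose n hn hnk using fun k => (hfinf k).exists_gt k
  have hSinf : (range n).Infinite := by
    apply infinite_of_not_bddAbove
    rintro ⟨B, hB⟩
    have := hB ⟨B, rfl⟩
    have h2 := hnk B
    omega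
  obtain ⟨L, hL, hSL⟩ := ha _ hSinf
  obtain ⟨i, hi⟩ : ∃ i, f i = L := ⟨e ⟨L, hL⟩, by simp [f]⟩
  apply hSL
  refine ((Finset.range (i + 1)).finite_toSet.image n).subset ?_
  rintro m ⟨⟨k, rfl⟩, hm⟩
  refine ⟨k, ?_, rfl⟩
  rw [Finset.mem_coe, Finset.mem_range]
  by_contra hcon
  have h1 : i < k := by omega
  refine (hn k).2 ?_
  exact mem_biUnion (x := i) (by simpa using h1) (by rw [hi]; exact hm)

/-- **Lines.** An orbit which is not sparse stays, for some power `σ ^ D`, in a coset of an invariant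
virtually abelian subgroup. -/
theorem dich1 [Countable G] (hG : ConvergenceAction G X)
    (hst : ∀ p : X, Cov (MulAction.stabilizer G p)) (σ : MulAut G) (g : G)
    (hx : Function.Injective (fun n : ℕ => (σ ^ n) g)) :
    (∃ S : Set ℕ, S.Infinite ∧ ∀ p : X, ∀ y : G,
      {n ∈ S | y⁻¹ * (σ ^ n) g ∈ MulAction.stabilizer G p}.Finite) ∨
      ∃ (n D : ℕ) (E : Subgroup G), 0 < D ∧ Cov E ∧ (∀ z, (σ ^ D) z ∈ E ↔ z ∈ E) ∧
        ((σ ^ n) g)⁻¹ * (σ ^ D) ((σ ^ n) g) ∈ E := by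
  classical
  by_cases hgood : ∃ S : Set ℕ, S.Infinite ∧ ∀ p : X, ∀ y : G,
    {n ∈ S | y⁻¹ * (σ ^ n) g ∈ MulAction.stabilizer G p}.Finite
  · exact Or.inl hgood
  right
  push Not at hgood
  set x : ℕ → G := fun n : ℕ => (σ ^ n) g with hxdef
  -- (a)
  have ha : ∀ S : Set ℕ, S.Infinite → ∃ L ∈ Lns X x, (S ∩ L).Infinite := by
    intro S hS
    obtain ⟨p, y, hy⟩ := hgood S hS
    have hy' : {n ∈ S | y⁻¹ * (σ ^ n) g ∈ MulAction.stabilizer G p}.Infinite := hy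
    obtain ⟨r, c, hc, hinf, -⟩ := exists_inf (hst p) _ hy'
      (fun n => y⁻¹ * x n) (fun m _ n _ hmn => hx (mul_left_cancel hmn)) (fun n hn => hn.2)
    have hsub : {n ∈ {n ∈ S | y⁻¹ * (σ ^ n) g ∈ MulAction.stabilizer G p} |
        (r⁻¹ * (y⁻¹ * x n)) * c = c * (r⁻¹ * (y⁻¹ * x n))} ⊆ S ∩ Ln X x (y * r) c := by
      rintro n ⟨⟨hnS, -⟩, hi⟩
      refine ⟨hnS, ?_⟩
      show (y * r)⁻¹ * x n ∈ En X c
      have e : (y * r)⁻¹ * x n = r⁻¹ * (y⁻¹ * x n) := by group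
      rw [e]
      exact mem_En_of_comm hG hst hc hi
    have h1 := hinf.mono hsub
    exact ⟨Ln X x (y * r) c, ⟨y * r, c, hc, rfl, h1.mono inter_subset_right⟩, h1⟩
  have hfin := lns_finite hG hst hx ha
  obtain ⟨L, ⟨y, h, hh, rfl, hLinf⟩, -⟩ := ha univ infinite_univ
  -- (e)
  have hmap : ∀ j : ℕ, ¬ IsOfFinOrder ((σ ^ j) h) := by
    intro j hj
    apply hh
    have : IsOfFinOrder ((σ ^ j)⁻¹ ((σ ^ j) h)) :=
      MonoidHom.isOfFinOrder (MulEquiv.toMonoidHom (σ ^ j)⁻¹) hj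
    rwa [MulAut.inv_apply_self] at this
  have hLj : ∀ j : ℕ, Ln X x ((σ ^ j) y) ((σ ^ j) h) ∈ Lns X x := by
    intro j
    refine ⟨_, _, hmap j, rfl, ?_⟩
    refine (hLinf.image (f := fun n => j + n) (fun a _ b _ hab => by simpa using hab)).mono ?_
    rintro _ ⟨n, hn, rfl⟩
    show ((σ ^ j) y)⁻¹ * (σ ^ (j + n)) g ∈ En X ((σ ^ j) h)
    rw [pow_add, MulAut.mul_apply, ← map_inv, ← map_mul, En_map hG hst _ hh]
    exact hn
  have hfin' : Finite (Lns X x) := hfin.to_subtype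
  obtain ⟨j, j', hjj, heq⟩ := Finite.exists_ne_map_eq_of_infinite
    (fun j : ℕ => (⟨_, hLj j⟩ : Lns X x))
  wlog hlt : j < j' generalizing j j'
  · exact this j' j hjj.symm heq.symm (by omega)
  have heq' : Ln X x ((σ ^ j) y) ((σ ^ j) h) = Ln X x ((σ ^ j') y) ((σ ^ j') h) :=
    congrArg Subtype.val heq
  obtain ⟨-, -, -, -, hinf1⟩ := hLj j
  obtain ⟨e1, e2⟩ := line_eq' hG hst hx (hmap j) (hmap j') (y := (σ ^ j) y) (y' := (σ ^ j') y)
    (by rw [← heq', inter_self]; exact hinf1)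
  obtain ⟨D, rfl⟩ : ∃ D, j' = j + D := ⟨j' - j, by omega⟩
  have hD : 0 < D := by omega
  have hE : ∀ z, z ∈ En X h ↔ z ∈ En X ((σ ^ D) h) := by
    intro z
    rw [← En_map hG hst (σ ^ j) hh z, e1, pow_add, MulAut.mul_apply, En_map hG hst _ (hmap D)]
  have hy : y⁻¹ * (σ ^ D) y ∈ En X h := by
    rw [← En_map hG hst (σ ^ j) hh, map_mul, map_inv]
    rwa [pow_add, MulAut.mul_apply] at e2
  have hinv : ∀ z, (σ ^ D) z ∈ En X h ↔ z ∈ En X h := by
    intro z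
    rw [hE ((σ ^ D) z), En_map hG hst _ hh]
  obtain ⟨n, hn⟩ := hLinf.nonempty
  have hn' : y⁻¹ * x n ∈ En X h := hn
  refine ⟨n, D, En X h, hD, En_cov hG hst hh, hinv, ?_⟩
  have e : (x n)⁻¹ * (σ ^ D) (x n) = (y⁻¹ * x n)⁻¹ * (y⁻¹ * (σ ^ D) y) * (σ ^ D) (y⁻¹ * x n) := by
    rw [map_mul, map_inv]; group
  show (x n)⁻¹ * (σ ^ D) (x n) ∈ En X h
  rw [e]
  exact (En X h).mul_mem ((En X h).mul_mem ((En X h).inv_mem hn') hy) ((hinv _).mpr hn')

end Pool.Agent.L0h53.MD
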