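import Pool.Agent.L0h53.MD.Ten
import Pool.Agent.L0h54.SK.Mform

/-! The operators `T ↦ a T a*`. -/

set_option autoImplicit false
set_option linter.unusedSectionVars false

namespace Pool.Agent.L0h53.MD

open Finset
open scoped InnerProductSpace Matrix Matrix.Norms.L2Operator
open Pool.Agent.L0h54.SK (mto mto_norm)

section hs

variable {k : ℕ}

/-- the square of the Hilbert Schmidt norm -/
noncomputable def hs (T : Matrix (Fin k) (Fin k) ℂ) : ℝ := ∑ q, ∑ p, ‖T p q‖ ^ 2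

theorem hs_star (T : Matrix (Fin k) (Fin k) ℂ) : hs Tᴴ = hs T := by
  rw [hs, hs, sum_comm]
  refine sum_congr rfl fun q _ => sum_congr rfl fun p _ => ?_
  rw [Matrix.conjTranspose_apply, norm_star]

theorem hs_mul (a T : Matrix (Fin k) (Fin k) ℂ) : hs (a * T) ≤ ‖a‖ ^ 2 * hs T := by
  rw [hs, hs, mul_sum]
  refine sum_le_sum fun q _ => ?_
  have h1 := (mto k a).le_opNorm (WithLp.toLp 2 fun p => T p q)
  rw [mto_norm] at h1
  have h2 : ‖(mto k a) (WithLp.toLp 2 fun p => T p q)‖ ^ 2 = ∑ p, ‖(a * T) p q‖ ^ 2 := by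
    rw [EuclideanSpace.norm_sq_eq]
    refine sum_congr rfl fun p _ => ?_
    congr 2
  have h3 : ‖(WithLp.toLp 2 fun p => T p q : EuclideanSpace ℂ (Fin k))‖ ^ 2 = ∑ p, ‖T p q‖ ^ 2 := by
    rw [EuclideanSpace.norm_sq_eq]
  rw [← h2, ← h3, ← mul_pow]
  gcongr

theorem hs_conj (a T : Matrix (Fin k) (Fin k) ℂ) : hs (a * T * aᴴ) ≤ (‖a‖ ^ 2) ^ 2 * hs T := by
  have e : a * T * aᴴ = (a * (a * T)ᴴ)ᴴ := by
    rw [Matrix.conjTranspose_mul, Matrix.conjTranspose_conjTranspose]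
  rw [e, hs_star]
  refine (hs_mul _ _).trans ?_
  rw [hs_star]
  have := hs_mul a T
  have h0 : 0 ≤ ‖a‖ ^ 2 := by positivity
  nlinarith

/-- the operator `T ↦ a T a*` -/
noncomputable def Th (a : Matrix (Fin k) (Fin k) ℂ) :
    EuclideanSpace ℂ (Fin k × Fin k) →L[ℂ] EuclideanSpace ℂ (Fin k × Fin k) :=
  LinearMap.toContinuousLinearMap
    { toFun := fun T => WithLp.toLp 2 fun x => (a * Matrix.of (fun p q => T (p, q)) * aᴴ) x.1 x.2
      map_add' := fun S T => by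
        ext x
        have : (Matrix.of fun p q => (S + T) (p, q)) =
          Matrix.of (fun p q => S (p, q)) + Matrix.of (fun p q => T (p, q)) := rfl
        simp only [this, mul_add, add_mul]
        rfl
      map_smul' := fun c T => by
        ext x
        have : (Matrix.of fun p q => (c • T) (p, q)) = c • Matrix.of (fun p q => T (p, q)) := rfl
        simp only [this, mul_smul_comm, smul_mul_assoc]
        rfl }

theorem Th_apply (a : Matrix (Fin k) (Fin k) ℂ) (T : EuclideanSpace ℂ (Fin k × Fin k))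
    (x : Fin k × Fin k) : Th a T x = (a * Matrix.of (fun p q => T (p, q)) * aᴴ) x.1 x.2 := rfl

theorem hs_eq (T : EuclideanSpace ℂ (Fin k × Fin k)) :
    ‖T‖ ^ 2 = hs (Matrix.of fun p q => T (p, q)) := by
  rw [EuclideanSpace.norm_sq_eq, hs, Fintype.sum_prod_type, sum_comm]
  rfl

theorem Th_norm {a : Matrix (Fin k) (Fin k) ℂ} (ha : ‖a‖ ≤ 1) : ‖Th a‖ ≤ 1 := by
  refine ContinuousLinearMap.opNorm_le_bound _ zero_le_one fun T => ?_
  rw [one_mul]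
  refine le_of_sq_le_sq ?_ (norm_nonneg _)
  rw [hs_eq, hs_eq]
  have e : (Matrix.of fun p q => Th a T (p, q)) = a * Matrix.of (fun p q => T (p, q)) * aᴴ := rfl
  rw [e]
  refine (hs_conj _ _).trans ?_
  have h1 : (‖a‖ ^ 2) ^ 2 ≤ 1 := by
    refine pow_le_one₀ (by positivity) (pow_le_one₀ (norm_nonneg _) ha)
  have h2 : 0 ≤ hs (Matrix.of fun p q => T (p, q)) := by
    rw [← hs_eq]; positivity
  nlinarith

/-- the pairing -/
theorem Th_inner (a X : Matrix (Fin k) (Fin k) ℂ) :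
    ⟪(WithLp.toLp 2 fun x => X x.1 x.2 : EuclideanSpace ℂ (Fin k × Fin k)),
      Th a (WithLp.toLp 2 fun x => X x.1 x.2)⟫_ℂ = (Xᴴ * a * X * aᴴ).trace := by
  rw [PiLp.inner_apply, Fintype.sum_prod_type, Matrix.mul_assoc, Matrix.mul_assoc, Matrix.trace,
    sum_comm]
  simp only [Matrix.diag_apply]
  refine sum_congr rfl fun q _ => ?_
  rw [Matrix.mul_apply]
  refine sum_congr rfl fun p _ => ?_
  rw [Matrix.conjTranspose_apply, Th_apply, ← Matrix.mul_assoc]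
  show (a * X * aᴴ) p q * (starRingEnd ℂ) (X p q) = _
  rw [mul_comm]
  rfl

theorem Th_sum_le {J : Type} (s : Finset J) (c : J → ℂ) (a : J → Matrix (Fin k) (Fin k) ℂ)
    (X : Matrix (Fin k) (Fin k) ℂ) :
    ‖∑ i ∈ s, c i * (Xᴴ * a i * X * (a i)ᴴ).trace‖ ≤ ‖∑ i ∈ s, c i • Th (a i)‖ * hs X := by
  set T : EuclideanSpace ℂ (Fin k × Fin k) := WithLp.toLp 2 fun x => X x.1 x.2 with hT
  have e1 : ∑ i ∈ s, c i * (Xᴴ * a i * X * (a i)ᴴ).trace = ⟪T, (∑ i ∈ s, c i • Th (a i)) T⟫_ℂ := by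
    rw [_root_.sum_apply, inner_sum]
    refine sum_congr rfl fun i _ => ?_
    rw [smul_apply, inner_smul_right, hT, Th_inner]
  have e2 : ‖T‖ ^ 2 = hs X := by rw [hs_eq]; rfl
  rw [e1]
  refine (norm_inner_le_norm _ _).trans ?_
  have h1 := (∑ i ∈ s, c i • Th (a i)).le_opNorm T
  calc ‖T‖ * ‖(∑ i ∈ s, c i • Th (a i)) T‖ ≤ ‖T‖ * (‖∑ i ∈ s, c i • Th (a i)‖ * ‖T‖) := by gcongr
    _ = ‖∑ i ∈ s, c i • Th (a i)‖ * ‖T‖ ^ 2 := by ring
    _ = _ := by rw [e2]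

theorem hs_trace (X : Matrix (Fin k) (Fin k) ℂ) : ((hs X : ℝ) : ℂ) = (Xᴴ * X).trace := by
  rw [Matrix.trace, hs]
  push_cast
  refine sum_congr rfl fun q _ => ?_
  rw [Matrix.diag_apply, Matrix.mul_apply]
  refine sum_congr rfl fun p _ => ?_
  rw [Matrix.conjTranspose_apply, Complex.star_def, ← Complex.normSq_eq_conj_mul_self,
    Complex.normSq_eq_norm_sq]
  push_cast
  rfl

end hs

section main

variable {K : Type} [NormedAddCommGroup K] [InnerProductSpace ℂ K] [CompleteSpace K]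
variable {ι : Type} [Fintype ι] [DecidableEq ι] {k : ℕ}

theorem Gf_expand (w : ι → K) (ε : ι → ℂ) (ψ : Matrix (Fin k) (Fin k) ℂ →ₗ[ℂ] (K →L[ℂ] K))
    {J : Type} [Fintype J] (R : J → Matrix (Fin k) ι ℂ)
    (hR : ∀ a, Ym w (ψ a) = ∑ j, (R j)ᴴ * a * R j) (a : Matrix (Fin k) (Fin k) ℂ) :
    Gf w ε (ψ a) = ∑ j, ∑ j', ((R j * Matrix.diagonal ε * (R j')ᴴ)ᴴ * a *
      (R j * Matrix.diagonal ε * (R j')ᴴ) * aᴴ).trace := by
  rw [Gf_trace, hR, Matrix.conjTranspose_sum, Matrix.mul_sum, Matrix.trace_sum]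
  refine Eq.trans ?_ sum_comm
  refine sum_congr rfl fun j' _ => ?_
  rw [Matrix.mul_sum, Matrix.sum_mul, Matrix.sum_mul, Matrix.trace_sum]
  refine sum_congr rfl fun j _ => ?_
  simp only [Matrix.conjTranspose_mul, Matrix.conjTranspose_conjTranspose]
  rw [show (Matrix.diagonal ε)ᴴ * ((R j)ᴴ * a * R j) * Matrix.diagonal ε *
      ((R j')ᴴ * (aᴴ * R j')) = ((Matrix.diagonal ε)ᴴ * (R j)ᴴ * a * R j * Matrix.diagonal ε *
      (R j')ᴴ * aᴴ) * R j' by simp only [Matrix.mul_assoc]]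
  rw [Matrix.trace_mul_comm]
  simp only [Matrix.mul_assoc]

theorem Gf_sum_le {w : ι → K} (hw : Orthonormal ℂ w) {ε : ι → ℂ} (hε : ∀ s, ‖ε s‖ = 1)
    (ψ : Matrix (Fin k) (Fin k) ℂ →ₗ[ℂ] (K →L[ℂ] K)) (hn : ∀ b, ‖ψ b‖ ≤ ‖b‖)
    (Kr : Fin k → Fin k → (K →L[ℂ] K))
    (hψ : ∀ p q, ψ (Matrix.single p q 1) = ∑ l, star (Kr l p) * Kr l q)
    {I : Type} (s : Finset I) (c : I → ℂ) (a : I → Matrix (Fin k) (Fin k) ℂ) :
    ‖∑ i ∈ s, c i * Gf w ε (ψ (a i))‖ ≤ ‖∑ i ∈ s, c i • Th (a i)‖ * Fintype.card ι := by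
  obtain ⟨J, _, R, hR⟩ := kraus w ψ Kr hψ
  have h1 : ((∑ j, ∑ j', hs (R j * Matrix.diagonal ε * (R j')ᴴ) : ℝ) : ℂ) = Gf w ε (ψ 1) := by
    rw [Gf_expand w ε ψ R hR]
    push_cast
    refine sum_congr rfl fun j _ => sum_congr rfl fun j' _ => ?_
    rw [hs_trace, Matrix.conjTranspose_one, Matrix.mul_one, Matrix.mul_one]
  have h2 : ∑ j, ∑ j', hs (R j * Matrix.diagonal ε * (R j')ᴴ) ≤ Fintype.card ι := by
    have h3 : ‖Gf w ε (ψ 1)‖ ≤ Fintype.card ι * ‖ψ 1‖ ^ 2 := Gf_le hw hε _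
    have h4 : ‖(1 : Matrix (Fin k) (Fin k) ℂ)‖ ≤ 1 := by
      rw [← mto_norm]
      have : mto k 1 = 1 := map_one (Matrix.toEuclideanCLM (n := Fin k) (𝕜 := ℂ))
      rw [this]
      exact ContinuousLinearMap.norm_id_le
    have h5 : ‖ψ 1‖ ≤ 1 := (hn _).trans h4
    have h6 : ‖ψ 1‖ ^ 2 ≤ 1 := pow_le_one₀ (norm_nonneg _) h5
    rw [← h1, Complex.norm_real, Real.norm_eq_abs] at h3
    refine (le_abs_self _).trans (h3.trans ?_)
    have : (0 : ℝ) ≤ Fintype.card ι := by positivity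
    nlinarith
  have h3 : ∑ i ∈ s, c i * Gf w ε (ψ (a i)) = ∑ j, ∑ j', ∑ i ∈ s,
      c i * ((R j * Matrix.diagonal ε * (R j')ᴴ)ᴴ * a i *
      (R j * Matrix.diagonal ε * (R j')ᴴ) * (a i)ᴴ).trace := by
    simp only [Gf_expand w ε ψ R hR, mul_sum]
    rw [sum_comm]
    refine sum_congr rfl fun j _ => ?_
    rw [sum_comm]
  rw [h3]
  calc _ ≤ ∑ j, ∑ j', ‖∑ i ∈ s, c i * ((R j * Matrix.diagonal ε * (R j')ᴴ)ᴴ * a i *
      (R j * Matrix.diagonal ε * (R j')ᴴ) * (a i)ᴴ).trace‖ :=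
        (norm_sum_le _ _).trans (sum_le_sum fun j _ => norm_sum_le _ _)
    _ ≤ ∑ j, ∑ j', ‖∑ i ∈ s, c i • Th (a i)‖ * hs (R j * Matrix.diagonal ε * (R j')ᴴ) :=
        sum_le_sum fun j _ => sum_le_sum fun j' _ => Th_sum_le s c a _
    _ = ‖∑ i ∈ s, c i • Th (a i)‖ * ∑ j, ∑ j', hs (R j * Matrix.diagonal ε * (R j')ᴴ) := by
        simp only [mul_sum]
    _ ≤ _ := by gcongr

end main

end Pool.Agent.L0h53.MD
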