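import Pool.Agent.L0h53.MD.Rie
import Pool.Agent.L0h53.MD.The

/-! The conjugate tensor square of a dissociate sequence of unitaries. -/

set_option autoImplicit false
set_option linter.unusedSectionVars false

namespace Pool.Agent.L0h53.MD

open Finset
open scoped InnerProductSpace ComplexOrder

section riesz2

variable {U : Type} [CStarAlgebra U] {B : Type} [CommGroup B]

theorem tau_v (v : B → U) (hv : ∀ b, v b ∈ unitary U)
    (hm : ∀ a b, ∃ c : ℂ, ‖c‖ = 1 ∧ v (a * b) = c • (v a * v b))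
    (τ : U →L[ℂ] ℂ) (h1 : τ 1 = 1) (h0 : ∀ b, b ≠ 1 → τ (v b) = 0) (b c : B) [Decidable (b = c)] :
    τ (star (v b) * v c) = if b = c then 1 else 0 := by
  split_ifs with hbc
  · rw [hbc, Unitary.star_mul_self_of_mem (hv c), h1]
  · obtain ⟨s, hs, e⟩ := hm b (b⁻¹ * c)
    rw [mul_inv_cancel_left] at e
    rw [e, mul_smul_comm, ← mul_assoc, Unitary.star_mul_self_of_mem (hv b), one_mul, map_smul,
      h0 _ fun e => hbc (inv_mul_eq_one.mp e), smul_zero]

variable {K : Type} [NormedAddCommGroup K] [InnerProductSpace ℂ K] [CompleteSpace K]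

theorem twist_lower (v : B → U) (hv : ∀ b, v b ∈ unitary U)
    (hm : ∀ a b, ∃ c : ℂ, ‖c‖ = 1 ∧ v (a * b) = c • (v a * v b))
    (τ : U →L[ℂ] ℂ) (h1 : τ 1 = 1) (h0 : ∀ b, b ≠ 1 → τ (v b) = 0)
    (π : U →⋆ₐ[ℂ] (K →L[ℂ] K)) (Ω : K) (hΩ : ∀ a, ⟪Ω, π a Ω⟫_ℂ = τ a)
    {L : B → ℂ} (hL : ∀ a b, L (a * b) = L a + L b) (h : ℕ → B)
    {z l₀ : ℂ} (hz : 4 ≤ ‖z‖) (hl : l₀ ≠ 0) (hh : ∀ i, L (h i) = z ^ i * l₀) (n : ℕ)
    (ε : ℕ → ℂ) (hε : ∀ i, ‖ε i‖ = 1) :
    Orthonormal ℂ (fun S : (range n).powerset => π (v (∏ i ∈ S.1, h i)) Ω) ∧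
    ∀ j < n, ∀ c : ℂ, ‖c‖ = 1 →
      Gf (fun S : (range n).powerset => π (v (∏ i ∈ S.1, h i)) Ω) (fun S => ∏ i ∈ S.1, ε i)
        (π (c • v (h j))) = 2 ^ (n - 1) * star (ε j) := by
  classical
  have hww : ∀ b c, ⟪π (v b) Ω, π (v c) Ω⟫_ℂ = if b = c then 1 else 0 := by
    intro b c
    rw [← tau_v v hv hm τ h1 h0 b c, ← hΩ, map_mul, map_star, mul_apply_eq_comp,
      ContinuousLinearMap.star_eq_adjoint, ContinuousLinearMap.adjoint_inner_right]
  refine ⟨?_, ?_⟩
  · rw [orthonormal_iff_ite]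
    intro S S'
    rw [hww]
    by_cases e : S = S'
    · rw [e, if_pos rfl, if_pos rfl]
    · rw [if_neg e, if_neg]
      intro e'
      exact e (Subtype.ext (dissoc_inj hL h hz hl hh (mem_powerset.mp S'.2) (mem_powerset.mp S.2) e'))
  · intro j hj c hc
    have hval : ∀ S S' : (range n).powerset, (((‖⟪π (v (∏ i ∈ S'.1, h i)) Ω,
        π (c • v (h j)) (π (v (∏ i ∈ S.1, h i)) Ω)⟫_ℂ‖ : ℝ) : ℂ) ^ 2) =
        if ∏ i ∈ S'.1, h i = h j * ∏ i ∈ S.1, h i then 1 else 0 := by
      intro S S'
      obtain ⟨s, hs, e⟩ := hm (h j) (∏ i ∈ S.1, h i)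
      have hs0 : s ≠ 0 := by
        intro e0
        rw [e0, norm_zero] at hs
        exact zero_ne_one hs
      have e2 : π (c • v (h j)) (π (v (∏ i ∈ S.1, h i)) Ω) =
          (c * s⁻¹) • π (v (h j * ∏ i ∈ S.1, h i)) Ω := by
        rw [e, map_smul, map_smul, smul_apply, smul_apply, smul_smul, mul_assoc,
          inv_mul_cancel₀ hs0, mul_one, map_mul, mul_apply_eq_comp]
      rw [e2, inner_smul_right, norm_mul, norm_mul, norm_inv, hc, hs, hww, inv_one, one_mul, one_mul]
      split_ifs <;> simp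
    set e : Finset ℕ → ℂ := fun S => ∏ i ∈ S, ε i with he
    have hen : ∀ S, e S * star (e S) = 1 := by
      intro S
      have : ‖e S‖ = 1 := by
        rw [he, norm_prod]
        exact prod_eq_one fun i _ => hε i
      rw [Complex.star_def, Complex.mul_conj, Complex.normSq_eq_norm_sq, this]
      simp
    rw [Gf]
    simp only [hval]
    have hS : ∀ S : (range n).powerset, ∑ S' : (range n).powerset, (∏ i ∈ S.1, ε i) *
        star (∏ i ∈ S'.1, ε i) *
        (if ∏ i ∈ S'.1, h i = h j * ∏ i ∈ S.1, h i then (1 : ℂ) else 0) =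
        if j ∉ S.1 then star (ε j) else 0 := by
      intro S
      by_cases hjS : j ∈ S.1
      · rw [if_neg (not_not.mpr hjS), sum_eq_zero]
        intro S' _
        rw [if_neg, mul_zero]
        intro heq
        exact (dissoc hL h hz hl hh (mem_powerset.mp S.2) (mem_powerset.mp S'.2) hj heq).1 hjS
      · have hmem : insert j S.1 ∈ (range n).powerset := by
          rw [mem_powerset]
          exact insert_subset (mem_range.mpr hj) (mem_powerset.mp S.2)
        rw [if_pos hjS, sum_eq_single ⟨insert j S.1, hmem⟩]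
        · have e1 : ∏ i ∈ insert j S.1, h i = h j * ∏ i ∈ S.1, h i := prod_insert hjS
          have e2 : ∏ i ∈ insert j S.1, ε i = ε j * ∏ i ∈ S.1, ε i := prod_insert hjS
          rw [if_pos e1, mul_one]
          show (∏ i ∈ S.1, ε i) * star (∏ i ∈ insert j S.1, ε i) = _
          rw [e2, star_mul']
          have := hen S.1
          simp only [he] at this
          linear_combination star (ε j) * this
        · intro S' _ hne
          rw [if_neg, mul_zero]
          intro heq
          exact hne (Subtype.ext (dissoc hL h hz hl hh (mem_powerset.mp S.2)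
            (mem_powerset.mp S'.2) hj heq).2)
        · intro hS'
          exact absurd (mem_univ _) hS'
    rw [sum_congr rfl fun S _ => hS S,
      Finset.sum_coe_sort (range n).powerset (fun S => if j ∉ S then star (ε j) else 0),
      ← sum_filter, sum_const]
    have hfil : (range n).powerset.filter (fun S => j ∉ S) = ((range n).erase j).powerset := by
      ext S
      rw [mem_filter, mem_powerset, mem_powerset, subset_erase]
    rw [hfil, card_powerset, card_erase_of_mem (mem_range.mpr hj), card_range, nsmul_eq_mul]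
    push_cast
    ring

end riesz2

end Pool.Agent.L0h53.MD
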