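import Pool.Agent.L0h53.MD.Blk
import Pool.Agent.TH261.NP.TopS

/-! All elements, and products of functionals. -/

set_option autoImplicit false
set_option linter.unusedSectionVars false

open Finset Filter Topology

namespace Pool.Agent.L0h53.MD

open Pool.Agent.Helper188.NCM Pool.Agent.TH261.AB Pool.Agent.TH261.NP
open scoped InnerProductSpace ComplexOrder

variable {U G : Type} [CStarAlgebra U] [Group G] {u : G → U} {α : U →⋆ₐ[ℂ] U} {σ : MulAut G}

/-- the scalar sequences of the tame orbits -/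
theorem ps_orbit (hu : Dat u α σ) (ψ : U →L[ℂ] ℂ) (g : G) (m k r : ℕ)
    (hk : ((gd σ m)^[k]) (gd σ m g) = 1)
    (hd : ∀ i j : ℕ, Commute (((gd σ m)^[i]) (gd σ m g)) (((gd σ m)^[j]) (gd σ m g))) :
    IsPS fun n => ψ ((α^[m * n + r]) (u g)) := by
  obtain ⟨K, i1, i2, i3, π, hπ⟩ := H759R2.Kad.prove7_rep H759R2.Kad.prove7_jord
    (H759R2.Kad.prove7_univ H759R2.Kad.prove7_gns) U
  obtain ⟨ζ, ω, hρ, -⟩ := hπ ψ.toLinearMap ‖ψ‖ (norm_nonneg _) fun a => ψ.le_opNorm a
  have hρ' : ∀ a, ψ a = ⟪ζ, π a ω⟫_ℂ := hρ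
  obtain ⟨A, iA, V, B, a, R, Y, hV, hR, h1⟩ := orb_form hu π g m k r hk hd
  refine ⟨K, i1, i2, i3, A, iA, V, B, newt a (k + 2), k + 1,
    a (k + 1), R, ω, ContinuousLinearMap.adjoint Y ζ, hV, newt_top (k + 1) a, hR,
    fun n => ?_⟩
  show ψ ((α^[m * n + r]) (u g)) = _
  rw [hρ', h1, map_smul, inner_smul_right, ContinuousLinearMap.adjoint_inner_left]

/-- products of tame orbits -/
theorem ps_prod (hu : Dat u α σ) (L : List ((U →L[ℂ] ℂ) × G))
    (hL : ∀ p ∈ L, TameG σ p.2) :
    ∃ M : ℕ, 0 < M ∧ ∀ r, IsPS fun n => (L.map fun p => p.1 ((α^[M * n + r]) (u p.2))).prod := by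
  induction L with
  | nil => exact ⟨1, one_pos, fun r => by simpa using IsPS.const 1⟩
  | cons p L ih =>
    obtain ⟨M, hM, h1⟩ := ih fun q hq => hL q (List.mem_cons_of_mem _ hq)
    obtain ⟨m, hm, ⟨k, hk⟩, hd⟩ := hL p List.mem_cons_self
    refine ⟨m * M, Nat.mul_pos hm hM, fun r => ?_⟩
    have h2 := (ps_orbit hu p.1 p.2 m k r hk hd).dil M 0
    have h3 := (h1 r).dil m 0
    have h4 := h2.mul h3
    convert h4 using 2 with n
    rw [List.map_cons, List.prod_cons]
    have e1 : m * M * n + r = m * (M * n + 0) + r := by ring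
    have e2 : m * M * n + r = M * (m * n + 0) + r := by ring
    congr 1
    · rw [e1]
    · rw [e2]

theorem gen_bound (α : U →⋆ₐ[ℂ] U) (u : G → U) (L : List ((U →L[ℂ] ℂ) × G)) :
    ∃ C : ℝ, 0 < C ∧ ∀ n, ‖(L.map fun p => p.1 ((α^[n]) (u p.2))).prod‖ ≤ C := by
  induction L with
  | nil => exact ⟨1, zero_lt_one, fun n => by simp⟩
  | cons p L ih =>
    obtain ⟨C, hC0, hC⟩ := ih
    refine ⟨(‖p.1‖ * ‖u p.2‖ + 1) * C, by positivity, fun n => ?_⟩
    rw [List.map_cons, List.prod_cons, norm_mul]
    have h2 : ‖p.1 ((α^[n]) (u p.2))‖ ≤ ‖p.1‖ * ‖u p.2‖ + 1 := by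
      refine (p.1.le_opNorm _).trans ?_
      have := iter_norm α n (u p.2)
      have h3 : ‖p.1‖ * ‖(α^[n]) (u p.2)‖ ≤ ‖p.1‖ * ‖u p.2‖ := by gcongr
      linarith
    have h3 := hC n
    gcongr

/-- bounded weights along orbits with blocks of small norm -/
theorem blk_weights {x : U} (hb : Blk α x) (w : ℕ → ℂ) {C : ℝ} (hC : 0 < C) (hw : ∀ n, ‖w n‖ ≤ C)
    (ψ : U →L[ℂ] ℂ) : Tendsto (vav fun n => w n * ψ ((α^[n]) x)) atTop (𝓝 0) := by
  obtain ⟨hx, h⟩ := hb
  have hw' : ∀ n, ‖(C : ℂ)⁻¹ * w n‖ ≤ 1 := fun n => by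
    rw [norm_mul, norm_inv, Complex.norm_real, Real.norm_of_nonneg hC.le, inv_mul_le_iff₀ hC,
      mul_one]
    exact hw n
  rw [Metric.tendsto_atTop]
  intro ε hε
  obtain ⟨N₀, hN₀⟩ := weights_of_blocks α x hx h _ hw' (ε / 2 / (C * (‖ψ‖ + 1))) (by positivity)
  refine ⟨N₀ + 1, fun N hN => ?_⟩
  rw [dist_zero_right]
  have hNpos : (0 : ℝ) < N := by
    have : 0 < N := by omega
    exact_mod_cast this
  have h1 := hN₀ N (by omega)
  have hC' : (C : ℂ) ≠ 0 := by exact_mod_cast hC.ne'
  have e : ∑ n ∈ range N, w n * ψ ((α^[n]) x) =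
      C * ψ (∑ n ∈ range N, ((C : ℂ)⁻¹ * w n) • (α^[n]) x) := by
    rw [map_sum, Finset.mul_sum]
    refine Finset.sum_congr rfl fun n _ => ?_
    rw [map_smul, smul_eq_mul]
    field_simp
  rw [vav_norm, e, norm_mul, Complex.norm_real, Real.norm_of_nonneg hC.le]
  have h2 : ‖ψ (∑ n ∈ range N, ((C : ℂ)⁻¹ * w n) • (α^[n]) x)‖ ≤
      (‖ψ‖ + 1) * (ε / 2 / (C * (‖ψ‖ + 1)) * N) := by
    refine (ψ.le_opNorm _).trans ?_
    gcongr
    linarith
  rw [div_lt_iff₀ hNpos]
  calc C * ‖ψ (∑ n ∈ range N, ((C : ℂ)⁻¹ * w n) • (α^[n]) x)‖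
      ≤ C * ((‖ψ‖ + 1) * (ε / 2 / (C * (‖ψ‖ + 1)) * N)) := by gcongr
    _ = ε / 2 * N := by
        have : ‖ψ‖ + 1 ≠ 0 := by positivity
        field_simp
    _ < ε * N := by nlinarith

/-- products along the orbits of the generators -/
theorem gen_multi (hu : Dat u α σ) (hall : ∀ g, Blk α (u g) ∨ TameG σ g)
    (L : List ((U →L[ℂ] ℂ) × G)) (τ : ℝ) :
    Tendsto (vav fun n => mob n * (ee (n * τ) * (L.map fun p => p.1 ((α^[n]) (u p.2))).prod))
      atTop (𝓝 0) := by
  by_cases hL : ∀ p ∈ L, TameG σ p.2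
  · obtain ⟨M, hM, h1⟩ := ps_prod hu L hL
    obtain ⟨C, hC0, hC⟩ := gen_bound α u L
    refine vav_of_residues hC0.le (fun n => ?_) hM fun r hr => ?_
    · rw [norm_mul, norm_mul, norm_ee, one_mul]
      calc _ ≤ 1 * C := by
            gcongr
            · exact norm_mob_le _
            · exact hC n
        _ = C := one_mul C
    · have h4 : IsPF fun n : ℕ => ((M * n + r : ℕ) : ℝ) * τ := by
        have := (((IsPF.const (M : ℝ)).mul IsPF.id).add (IsPF.const (r : ℝ))).mul (IsPF.const τ)
        convert this using 2 with n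
        push_cast
        ring
      exact ((h1 r).phase h4).mob hM hr
  · push Not at hL
    obtain ⟨p, hp, hT⟩ := hL
    have hB := (hall p.2).resolve_right hT
    obtain ⟨s, t, rfl⟩ := List.append_of_mem hp
    obtain ⟨C1, hC1, h1⟩ := gen_bound α u s
    obtain ⟨C2, hC2, h2⟩ := gen_bound α u t
    have h3 := blk_weights hB (fun n => mob n * (ee (n * τ) *
      ((s.map fun p => p.1 ((α^[n]) (u p.2))).prod * (t.map fun p => p.1 ((α^[n]) (u p.2))).prod)))
      (mul_pos hC1 hC2) (fun n => by
        rw [norm_mul, norm_mul, norm_mul, norm_ee, one_mul]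
        have a1 := h1 n
        have a2 := h2 n
        calc _ ≤ 1 * (C1 * C2) := by
              gcongr
              exact norm_mob_le _
          _ = _ := one_mul _) p.1
    refine h3.congr fun N => ?_
    rw [vav, vav]
    congr 1
    refine Finset.sum_congr rfl fun n _ => ?_
    rw [List.map_append, List.prod_append, List.map_cons, List.prod_cons]
    ring

/-- all elements of the systems generated by the algebra -/
theorem good_all' (hu : Dat u α σ) (hall : ∀ g, Blk α (u g) ∨ TameG σ g)
    (hd : (Submodule.span ℂ (Set.range u)).topologicalClosure = ⊤)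
    {W : Type} [CStarAlgebra W] (γ : W →⋆ₐ[ℂ] W) (ι : U →⋆ₐ[ℂ] W)
    (hι : ∀ a, γ (ι a) = ι (α a))
    (hgen : (Submodule.span ℂ (Prods γ (Set.range ι))).topologicalClosure = ⊤) :
    ∀ x, Good γ x := by
  have hS : ∀ x ∈ Prods γ (Set.range ι), Good γ x := by
    rintro x ⟨_, ⟨a, rfl⟩, v, w, hv, hw, rfl⟩
    have hcont : Continuous fun a : U => v * ι a * w :=
      (continuous_const.mul (AddMonoidHomClass.continuous_of_bound ι 1 fun x => by
        rw [one_mul]; exact NonUnitalStarAlgHom.norm_apply_le ι x)).mul continuous_const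
    have h1 : ∀ a ∈ Submodule.span ℂ (Set.range u), Good γ (v * ι a * w) := by
      intro a ha
      induction ha using Submodule.span_induction with
      | mem x hx =>
        obtain ⟨g, rfl⟩ := hx
        have h0 : GoodP α (u g) := by
          rcases hall g with h | h
          · exact goodP_of_blocks h
          · exact goodP_tame hu h
        exact GoodP.ext2 h0 γ ι hι hv hw
      | zero => rw [map_zero, mul_zero, zero_mul]; exact Good.zero γ
      | add x y _ _ hx hy => rw [map_add, mul_add, add_mul]; exact hx.add hy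
      | smul c x _ hx => rw [map_smul, mul_smul_comm, smul_mul_assoc]; exact hx.smul c
    have h2 : a ∈ closure (Submodule.span ℂ (Set.range u) : Set U) := by
      have : a ∈ (Submodule.span ℂ (Set.range u)).topologicalClosure := by
        rw [hd]; trivial
      exact this
    refine Good.closed (S := (fun a : U => v * ι a * w) ''
      (Submodule.span ℂ (Set.range u) : Set U))
      ?_ _ (image_closure_subset_closure_image hcont ⟨a, h2, rfl⟩)
    rintro _ ⟨a, ha, rfl⟩
    exact h1 a ha
  intro x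
  refine Good.of_span hS x ?_
  rw [hgen]; trivial

/-- **Products of functionals.** -/
theorem multi' (hu : Dat u α σ) (hall : ∀ g, Blk α (u g) ∨ TameG σ g)
    (hd : (Submodule.span ℂ (Set.range u)).topologicalClosure = ⊤)
    {W : Type} [CStarAlgebra W] (γ : W →⋆ₐ[ℂ] W) (ι : U →⋆ₐ[ℂ] W)
    (hι : ∀ a, γ (ι a) = ι (α a))
    (hgen : (Submodule.span ℂ (Prods γ (Set.range ι))).topologicalClosure = ⊤)
    (L : List ((W →L[ℂ] ℂ) × W)) :
    Tendsto (vav fun n => mob n * (L.map fun p => p.1 ((γ^[n]) p.2)).prod) atTop (𝓝 0) := by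
  have hb1 : ∀ (ρ : W →L[ℂ] ℂ) (a : W) (n : ℕ), ‖ρ ((γ^[n]) a)‖ ≤ ‖ρ‖ * ‖a‖ := by
    intro ρ a n
    refine (ρ.le_opNorm _).trans ?_
    have := iter_norm γ n a
    gcongr
  have hb1' : ∀ L : List ((W →L[ℂ] ℂ) × W), ∃ C : ℝ, 0 ≤ C ∧
      ∀ n, ‖(L.map fun p => p.1 ((γ^[n]) p.2)).prod‖ ≤ C := by
    intro L
    induction L with
    | nil => exact ⟨1, zero_le_one, fun n => by simp⟩
    | cons p L ih =>
      obtain ⟨C, hC0, hC⟩ := ih
      refine ⟨‖p.1‖ * ‖p.2‖ * C, by positivity, fun n => ?_⟩
      rw [List.map_cons, List.prod_cons, norm_mul]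
      have h2 := hb1 p.1 p.2 n
      have h3 := hC n
      gcongr
  have key : ∀ (L : List ((W →L[ℂ] ℂ) × W)) (L2 : List ((U →L[ℂ] ℂ) × G)), ∀ τ : ℝ,
      Tendsto (vav fun n => mob n * (ee (n * τ) * ((L.map fun p => p.1 ((γ^[n]) p.2)).prod *
        (L2.map fun p => p.1 ((α^[n]) (u p.2))).prod))) atTop (𝓝 0) := by
    intro L
    induction L with
    | nil =>
      intro L2 τ
      refine (gen_multi hu hall L2 τ).congr fun N => ?_
      simp
    | cons p L ih =>
      intro L2 τ
      obtain ⟨ρ, a0⟩ := p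
      obtain ⟨C, hC0, hC⟩ := hb1' L
      obtain ⟨C2, hC20, hC2⟩ := gen_bound α u L2
      -- the statement for one element
      set F : ℕ → ℂ := fun n => (L.map fun p => p.1 ((γ^[n]) p.2)).prod *
        (L2.map fun p => p.1 ((α^[n]) (u p.2))).prod with hF
      have hFb : ∀ n, ‖F n‖ ≤ C * C2 := by
        intro n
        rw [hF]
        simp only
        rw [norm_mul]
        have h1 := hC n
        have h2 := hC2 n
        gcongr
      have hwb : ∀ (τ : ℝ) n, ‖mob n * (ee (n * τ) * F n)‖ ≤ C * C2 := by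
        intro τ n
        rw [norm_mul, norm_mul, norm_ee, one_mul]
        calc _ ≤ 1 * (C * C2) := by
              gcongr
              · exact norm_mob_le _
              · exact hFb n
          _ = _ := one_mul _
      -- generators of `U`, all functionals on `U`
      have h1 : ∀ (τ : ℝ) (g : G) (ψ : U →L[ℂ] ℂ), Tendsto (vav fun n =>
          (mob n * (ee (n * τ) * F n)) * ψ ((α^[n]) (u g))) atTop (𝓝 0) := by
        intro τ g ψ
        refine (ih ((ψ, g) :: L2) τ).congr fun N => ?_
        rw [vav, vav]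
        congr 1
        refine Finset.sum_congr rfl fun n _ => ?_
        rw [List.map_cons, List.prod_cons, hF]
        simp only
        ring
      -- closure
      have hcl : ∀ (D : Set W) (τ : ℝ), (∀ a ∈ D, Tendsto (vav fun n =>
          (mob n * (ee (n * τ) * F n)) * ρ ((γ^[n]) a)) atTop (𝓝 0)) →
          ∀ a ∈ closure D, Tendsto (vav fun n =>
          (mob n * (ee (n * τ) * F n)) * ρ ((γ^[n]) a)) atTop (𝓝 0) := by
        intro D τ hD a ha
        refine vav_approx fun ε hε => ?_
        obtain ⟨b, hb, hab⟩ := Metric.mem_closure_iff.1 ha (ε / (C * C2 * ‖ρ‖ + 1)) (by positivity)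
        refine ⟨_, fun n => ?_, hD b hb⟩
        rw [← mul_sub, ← map_sub, ← Pool.Agent.TH261.AB.iter_sub, norm_mul]
        have h2 := hwb τ n
        have h3 := hb1 ρ (a - b) n
        rw [dist_eq_norm] at hab
        calc _ ≤ (C * C2) * (‖ρ‖ * ‖a - b‖) := by gcongr
          _ ≤ (C * C2) * (‖ρ‖ * (ε / (C * C2 * ‖ρ‖ + 1))) := by gcongr
          _ = (C * C2 * ‖ρ‖) / (C * C2 * ‖ρ‖ + 1) * ε := by ring
          _ ≤ 1 * ε := by
              gcongr
              rw [div_le_one (by positivity)]
              linarith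
          _ = ε := one_mul _
      have hspan : ∀ (D : Set W) (τ : ℝ), (∀ a ∈ D, Tendsto (vav fun n =>
          (mob n * (ee (n * τ) * F n)) * ρ ((γ^[n]) a)) atTop (𝓝 0)) →
          ∀ a ∈ Submodule.span ℂ D, Tendsto (vav fun n =>
          (mob n * (ee (n * τ) * F n)) * ρ ((γ^[n]) a)) atTop (𝓝 0) := by
        intro D τ hD a ha
        induction ha using Submodule.span_induction with
        | mem x hx => exact hD x hx
        | zero =>
          have h0 : ∀ n, (γ^[n]) (0 : W) = 0 := fun n => by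
            have := iter_smul γ n 0 0
            rwa [zero_smul, zero_smul] at this
          have : (vav fun n => (mob n * (ee (n * τ) * F n)) * ρ ((γ^[n]) (0 : W))) = fun _ => 0 := by
            funext N
            simp [vav, h0]
          rw [this]
          exact tendsto_const_nhds
        | add x y _ _ hx hy =>
          refine (vav_add' hx hy).congr fun N => ?_
          rw [vav, vav]
          congr 1
          exact Finset.sum_congr rfl fun n _ => by
            rw [Pool.Agent.TH261.AB.iter_add, map_add, mul_add]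
        | smul c x _ hx =>
          refine (vav_mul' c hx).congr fun N => ?_
          rw [vav, vav]
          congr 1
          exact Finset.sum_congr rfl fun n _ => by rw [iter_smul, map_smul, smul_eq_mul]; ring
      -- products with eigenvectors
      have h2 : ∀ a ∈ Prods γ (Set.range ι), Tendsto (vav fun n =>
          (mob n * (ee (n * τ) * F n)) * ρ ((γ^[n]) a)) atTop (𝓝 0) := by
        rintro x ⟨_, ⟨a, rfl⟩, v, w, hv, hw, rfl⟩
        have hcont : Continuous fun a : U => v * ι a * w :=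
          (continuous_const.mul (AddMonoidHomClass.continuous_of_bound ι 1 fun x => by
            rw [one_mul]; exact NonUnitalStarAlgHom.norm_apply_le ι x)).mul continuous_const
        have h3 : a ∈ closure (Submodule.span ℂ (Set.range u) : Set U) := by
          have : a ∈ (Submodule.span ℂ (Set.range u)).topologicalClosure := by
            rw [hd]; trivial
          exact this
        refine hcl ((fun a : U => v * ι a * w) ''
          (Submodule.span ℂ (Set.range u) : Set U)) τ ?_ _
          (image_closure_subset_closure_image hcont ⟨a, h3, rfl⟩)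
        rintro _ ⟨a, ha, rfl⟩
        have h4 : v * ι a * w ∈ Submodule.span ℂ ((fun a : U => v * ι a * w) ''
            (Set.range u)) := by
          have hl : (fun a : U => v * ι a * w) = ((LinearMap.mulRight ℂ w).comp
            ((LinearMap.mulLeft ℂ v).comp (ι : U →ₐ[ℂ] W).toLinearMap) : U →ₗ[ℂ] W) := rfl
          rw [hl, Submodule.span_image]
          exact ⟨a, ha, rfl⟩
        refine hspan _ τ ?_ _ h4
        rintro _ ⟨_, ⟨g, rfl⟩, rfl⟩
        obtain ⟨l, hl, hV⟩ := hv
        obtain ⟨l', hl', hW⟩ := hw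
        obtain ⟨θ, rfl⟩ := exists_ee hl
        obtain ⟨θ', rfl⟩ := exists_ee hl'
        -- the functional on `U`
        have hψ : ∃ ψ : U →L[ℂ] ℂ, ∀ b, ψ b = ρ (v * ι b * w) := by
          refine ⟨LinearMap.mkContinuous ((ρ : W →ₗ[ℂ] ℂ).comp ((LinearMap.mulRight ℂ w).comp
            ((LinearMap.mulLeft ℂ v).comp (ι : U →ₐ[ℂ] W).toLinearMap))) (‖ρ‖ * (‖v‖ * ‖w‖))
            fun b => ?_, fun b => rfl⟩
          show ‖ρ (v * ι b * w)‖ ≤ _
          refine (ρ.le_opNorm _).trans ?_
          have h5 := norm_mul_le (v * ι b) w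
          have h6 := norm_mul_le v (ι b)
          have h7 : ‖ι b‖ ≤ ‖b‖ := NonUnitalStarAlgHom.norm_apply_le ι b
          calc _ ≤ ‖ρ‖ * (‖v‖ * ‖b‖ * ‖w‖) := by
                gcongr
                refine h5.trans ?_
                gcongr
                exact h6.trans (by gcongr)
            _ = _ := by ring
        obtain ⟨ψ, hψ⟩ := hψ
        have hn : ∀ n : ℕ, (γ^[n]) (ι (u g)) = ι ((α^[n]) (u g)) := by
          intro n
          generalize u g = y
          induction n with
          | zero => rfl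
          | succ n ih => rw [Function.iterate_succ_apply', ih, hι, Function.iterate_succ_apply']
        refine (h1 (τ + (θ + θ')) g ψ).congr fun N => ?_
        rw [vav, vav]
        congr 1
        refine Finset.sum_congr rfl fun n _ => ?_
        simp only
        rw [Pool.Agent.TH261.AB.iter_mul, Pool.Agent.TH261.AB.iter_mul, eig_iter hV, eig_iter hW,
          hn, hψ, smul_mul_assoc, mul_smul_comm, smul_mul_assoc, smul_smul, map_smul, smul_eq_mul,
          show (n : ℝ) * (τ + (θ + θ')) = n * τ + (n * θ' + n * θ) by ring, ee_add, ee_add]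
        ring
      have h5 : a0 ∈ closure (Submodule.span ℂ (Prods γ (Set.range ι)) : Set W) := by
        have : a0 ∈ (Submodule.span ℂ (Prods γ (Set.range ι))).topologicalClosure := by
          rw [hgen]; trivial
        exact this
      refine (hcl _ τ (hspan _ τ h2) a0 h5).congr fun N => ?_
      rw [vav, vav]
      congr 1
      refine Finset.sum_congr rfl fun n _ => ?_
      rw [List.map_cons, List.prod_cons, hF]
      simp only
      ring
  refine (key L [] 0).congr fun N => ?_
  rw [vav, vav]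
  congr 1
  refine Finset.sum_congr rfl fun n _ => ?_
  rw [mul_zero, ee_zero, one_mul, List.map_nil, List.prod_nil, mul_one]

end Pool.Agent.L0h53.MD
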