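import Pool.Agent.TH261.AB.Final

/-! Riesz products: lower bounds for the norms of sums of group elements. -/

set_option autoImplicit false
set_option linter.unusedSectionVars false

namespace Pool.Agent.L0h53.MD

open Finset
open scoped InnerProductSpace ComplexOrder

section digits

theorem geom_bound {r : ℝ} (hr : 4 ≤ r) (n : ℕ) : ∑ i ∈ range n, r ^ i ≤ r ^ n / 3 := by
  induction n with
  | zero => simp
  | succ n ih =>
    rw [sum_range_succ, pow_succ]
    have : 0 ≤ r ^ n := by positivity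
    nlinarith

theorem digits {z : ℂ} (hz : 4 ≤ ‖z‖) (n : ℕ) (d : ℕ → ℤ) (hd : ∀ i, |d i| ≤ 2)
    (h : ∑ i ∈ range n, (d i : ℂ) * z ^ i = 0) : ∀ i < n, d i = 0 := by
  induction n with
  | zero => intro i hi; omega
  | succ n ih =>
    have htop : d n = 0 := by
      by_contra hne
      have h1 : (1 : ℝ) ≤ ‖((d n : ℤ) : ℂ)‖ := by
        rw [Complex.norm_intCast]
        exact_mod_cast Int.one_le_abs hne
      have h2 : ‖∑ i ∈ range n, (d i : ℂ) * z ^ i‖ ≤ 2 * (‖z‖ ^ n / 3) := by
        refine (norm_sum_le _ _).trans ?_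
        calc ∑ i ∈ range n, ‖(d i : ℂ) * z ^ i‖ ≤ ∑ i ∈ range n, 2 * ‖z‖ ^ i := by
              refine sum_le_sum fun i _ => ?_
              rw [norm_mul, norm_pow, Complex.norm_intCast]
              have : (|(d i : ℝ)|) ≤ 2 := by exact_mod_cast hd i
              gcongr
          _ = 2 * ∑ i ∈ range n, ‖z‖ ^ i := by rw [mul_sum]
          _ ≤ _ := by
              have := geom_bound hz n
              linarith
      rw [sum_range_succ] at h
      have h3 : (d n : ℂ) * z ^ n = - ∑ i ∈ range n, (d i : ℂ) * z ^ i := by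
        linear_combination h
      have h4 : ‖(d n : ℂ) * z ^ n‖ = ‖∑ i ∈ range n, (d i : ℂ) * z ^ i‖ := by
        rw [h3, norm_neg]
      rw [norm_mul, norm_pow] at h4
      have h5 : 0 < ‖z‖ ^ n := by positivity
      nlinarith
    rw [sum_range_succ, htop] at h
    have h' : ∑ i ∈ range n, (d i : ℂ) * z ^ i = 0 := by simpa using h
    intro i hi
    rcases Nat.lt_succ_iff_lt_or_eq.mp hi with h1 | h1
    · exact ih h' i h1
    · rw [h1]; exact htop

end digits

section comb

variable {B : Type} [CommGroup B]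

theorem L_prod {L : B → ℂ} (hL : ∀ a b, L (a * b) = L a + L b) (h : ℕ → B) (S : Finset ℕ) :
    L (∏ i ∈ S, h i) = ∑ i ∈ S, L (h i) := by
  classical
  induction S using Finset.induction_on with
  | empty =>
    have := hL 1 1
    rw [mul_one] at this
    simpa using this
  | insert a S ha ih => rw [prod_insert ha, sum_insert ha, hL, ih]

theorem sum_ind (z : ℂ) {n : ℕ} {S : Finset ℕ} (hS : S ⊆ range n) :
    ∑ i ∈ S, z ^ i = ∑ i ∈ range n, ((if i ∈ S then (1 : ℤ) else 0 : ℤ) : ℂ) * z ^ i := by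
  classical
  rw [← sum_subset hS (f := fun i => ((if i ∈ S then (1 : ℤ) else 0 : ℤ) : ℂ) * z ^ i)]
  · refine sum_congr rfl fun i hi => ?_
    simp [hi]
  · intro i _ hi
    simp [hi]

theorem ite_aux (p q r : Prop) [Decidable p] [Decidable q] [Decidable r]
    (h : ((if p then (1 : ℤ) else 0) - (if q then (1 : ℤ) else 0) - (if r then (1 : ℤ) else 0)) = 0) :
    (p ↔ q ∨ r) ∧ ¬ (q ∧ r) := by
  by_cases hp : p <;> by_cases hq : q <;> by_cases hr : r <;> simp [hp, hq, hr] at h ⊢

theorem dissoc {L : B → ℂ} (hL : ∀ a b, L (a * b) = L a + L b) (h : ℕ → B) {z l₀ : ℂ}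
    (hz : 4 ≤ ‖z‖) (hl : l₀ ≠ 0) (hh : ∀ i, L (h i) = z ^ i * l₀) {n : ℕ} {S S' : Finset ℕ}
    (hS : S ⊆ range n) (hS' : S' ⊆ range n) {j : ℕ} (hj : j < n)
    (he : ∏ i ∈ S', h i = h j * ∏ i ∈ S, h i) : j ∉ S ∧ S' = insert j S := by
  classical
  have h1 := congrArg L he
  rw [hL, L_prod hL, L_prod hL, hh] at h1
  simp only [hh] at h1
  rw [← sum_mul, ← sum_mul, ← add_mul] at h1
  have h2 := mul_right_cancel₀ hl h1
  rw [sum_ind z hS, sum_ind z hS'] at h2
  have h3 : z ^ j = ∑ i ∈ range n, ((if i = j then (1 : ℤ) else 0 : ℤ) : ℂ) * z ^ i := by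
    rw [sum_eq_single j]
    · simp
    · intro i _ hi; simp [hi]
    · intro hj'; exact absurd (mem_range.mpr hj) hj'
  set d : ℕ → ℤ := fun i => (if i ∈ S' then (1 : ℤ) else 0) - (if i = j then (1 : ℤ) else 0) -
    (if i ∈ S then (1 : ℤ) else 0) with hd
  have h4 : ∑ i ∈ range n, (d i : ℂ) * z ^ i = 0 := by
    have e : ∑ i ∈ range n, (d i : ℂ) * z ^ i =
        ∑ i ∈ range n, ((if i ∈ S' then (1 : ℤ) else 0 : ℤ) : ℂ) * z ^ i -
        ∑ i ∈ range n, ((if i = j then (1 : ℤ) else 0 : ℤ) : ℂ) * z ^ i -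
        ∑ i ∈ range n, ((if i ∈ S then (1 : ℤ) else 0 : ℤ) : ℂ) * z ^ i := by
      rw [← sum_sub_distrib, ← sum_sub_distrib]
      refine sum_congr rfl fun i _ => ?_
      simp only [hd]
      push_cast
      ring
    rw [e, h2, ← h3]
    ring
  have h5 := digits hz n d (fun i => by
    simp only [hd]
    split_ifs <;> norm_num) h4
  have h6 : ∀ i < n, (i ∈ S' ↔ i = j ∨ i ∈ S) ∧ ¬ (i = j ∧ i ∈ S) := by
    intro i hi
    exact ite_aux _ _ _ (h5 i hi)
  refine ⟨fun hjS => (h6 j hj).2 ⟨rfl, hjS⟩, ?_⟩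
  ext i
  rw [mem_insert]
  constructor
  · intro hi
    exact (h6 i (mem_range.mp (hS' hi))).1.mp hi
  · intro hi
    have hin : i < n := by
      rcases hi with rfl | hi
      · exact hj
      · exact mem_range.mp (hS hi)
    exact (h6 i hin).1.mpr hi

theorem dissoc_inj {L : B → ℂ} (hL : ∀ a b, L (a * b) = L a + L b) (h : ℕ → B) {z l₀ : ℂ}
    (hz : 4 ≤ ‖z‖) (hl : l₀ ≠ 0) (hh : ∀ i, L (h i) = z ^ i * l₀) {n : ℕ} {S S' : Finset ℕ}
    (hS : S ⊆ range n) (hS' : S' ⊆ range n)
    (he : ∏ i ∈ S', h i = ∏ i ∈ S, h i) : S' = S := by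
  classical
  have h1 := congrArg L he
  rw [L_prod hL, L_prod hL] at h1
  simp only [hh] at h1
  rw [← sum_mul, ← sum_mul] at h1
  have h2 := mul_right_cancel₀ hl h1
  rw [sum_ind z hS, sum_ind z hS'] at h2
  set d : ℕ → ℤ := fun i => (if i ∈ S' then (1 : ℤ) else 0) - (if i ∈ S then (1 : ℤ) else 0) with hd
  have h4 : ∑ i ∈ range n, (d i : ℂ) * z ^ i = 0 := by
    have e : ∑ i ∈ range n, (d i : ℂ) * z ^ i =
        ∑ i ∈ range n, ((if i ∈ S' then (1 : ℤ) else 0 : ℤ) : ℂ) * z ^ i -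
        ∑ i ∈ range n, ((if i ∈ S then (1 : ℤ) else 0 : ℤ) : ℂ) * z ^ i := by
      rw [← sum_sub_distrib]
      refine sum_congr rfl fun i _ => ?_
      simp only [hd]
      push_cast
      ring
    rw [e, h2]
    ring
  have h5 := digits hz n d (fun i => by
    simp only [hd]
    split_ifs <;> norm_num) h4
  ext i
  by_cases hi : i < n
  · have := h5 i hi
    simp only [hd] at this
    by_cases a1 : i ∈ S' <;> by_cases a3 : i ∈ S <;> simp [a1, a3] at this ⊢
  · constructor
    · intro h; exact absurd (mem_range.mp (hS' h)) hi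
    · intro h; exact absurd (mem_range.mp (hS h)) hi

end comb

section riesz

variable {U : Type} [CStarAlgebra U] {B : Type} [CommGroup B]

theorem riesz_lower (v : B → U) (hv : ∀ b, v b ∈ unitary U) (hm : ∀ a b, v (a * b) = v a * v b)
    (τ : U →L[ℂ] ℂ) (h1 : τ 1 = 1) (h0 : ∀ b, b ≠ 1 → τ (v b) = 0)
    (hp : ∀ x, 0 ≤ τ (star x * x)) {L : B → ℂ} (hL : ∀ a b, L (a * b) = L a + L b) (h : ℕ → B)
    {z l₀ : ℂ} (hz : 4 ≤ ‖z‖) (hl : l₀ ≠ 0) (hh : ∀ i, L (h i) = z ^ i * l₀) (n : ℕ)
    (ε : ℕ → ℂ) (hε : ∀ i, ‖ε i‖ = 1) :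
    (n : ℝ) / 2 ≤ ‖∑ j ∈ range n, ε j • v (h j)‖ := by
  classical
  have hv1 : v 1 = 1 := by
    have e := hm 1 1
    rw [mul_one] at e
    have e2 := congrArg (fun x => star (v 1) * x) e
    simp only [← mul_assoc] at e2
    rw [Unitary.star_mul_self_of_mem (hv 1), one_mul] at e2
    exact e2.symm
  have hstar : ∀ b c, star (v b) * v c = v (b⁻¹ * c) := by
    intro b c
    have e := hm b (b⁻¹ * c)
    rw [mul_inv_cancel_left] at e
    rw [e, ← mul_assoc, Unitary.star_mul_self_of_mem (hv b), one_mul]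
  have hτ : ∀ b c, τ (star (v b) * v c) = if b = c then 1 else 0 := by
    intro b c
    rw [hstar]
    split_ifs with hbc
    · rw [hbc, inv_mul_cancel, hv1, h1]
    · exact h0 _ fun e => hbc (inv_mul_eq_one.mp e)
  obtain ⟨K, _, _, _, π, Ω, hΩ, -⟩ := H759R2.Kad.prove7_gns U τ.toLinearMap hp
  have hΩ' : ∀ a, ⟪Ω, π a Ω⟫_ℂ = τ a := hΩ
  set w : B → K := fun b => π (v b) Ω with hw
  have hww : ∀ b c, ⟪w b, w c⟫_ℂ = if b = c then 1 else 0 := by
    intro b c
    rw [← hτ, ← hΩ', hw, map_mul, map_star, mul_apply_eq_comp, ContinuousLinearMap.star_eq_adjoint,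
      ContinuousLinearMap.adjoint_inner_right]
  set H : Finset ℕ → B := fun S => ∏ i ∈ S, h i with hH
  set e : Finset ℕ → ℂ := fun S => ∏ i ∈ S, ε i with he
  have hen : ∀ S, star (e S) * e S = 1 := by
    intro S
    have : ‖e S‖ = 1 := by
      rw [he, norm_prod]
      exact prod_eq_one fun i _ => hε i
    rw [Complex.star_def, ← Complex.normSq_eq_conj_mul_self, Complex.normSq_eq_norm_sq, this]
    simp
  have hεn : ∀ i, ε i * star (ε i) = 1 := by
    intro i
    rw [Complex.star_def, Complex.mul_conj, Complex.normSq_eq_norm_sq, hε]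
    simp
  set ξ : K := ∑ S ∈ (range n).powerset, e S • w (H S) with hξ
  have hnorm : ⟪ξ, ξ⟫_ℂ = 2 ^ n := by
    rw [hξ, sum_inner]
    have : ∀ S ∈ (range n).powerset, ⟪e S • w (H S), ∑ S' ∈ (range n).powerset, e S' • w (H S')⟫_ℂ =
        1 := by
      intro S hS
      rw [inner_sum, sum_eq_single S]
      · rw [inner_smul_left, inner_smul_right, hww, if_pos rfl, mul_one]
        exact hen S
      · intro S' hS' hne
        rw [inner_smul_left, inner_smul_right, hww, if_neg, mul_zero, mul_zero]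
        intro heq
        exact hne (dissoc_inj hL h hz hl hh (mem_powerset.mp hS) (mem_powerset.mp hS') heq.symm)
      · intro hS'; exact absurd hS hS'
    rw [sum_congr rfl this, sum_const, card_powerset, card_range]
    simp
  have hval : ∀ j < n, ⟪ξ, π (v (h j)) ξ⟫_ℂ = 2 ^ (n - 1) * star (ε j) := by
    intro j hj
    have hπξ : π (v (h j)) ξ = ∑ S ∈ (range n).powerset, e S • w (h j * H S) := by
      rw [hξ, map_sum]
      refine sum_congr rfl fun S _ => ?_
      rw [map_smul, hw]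
      simp only
      rw [hm, map_mul, mul_apply_eq_comp]
    rw [hπξ, inner_sum]
    have : ∀ S ∈ (range n).powerset, ⟪ξ, e S • w (h j * H S)⟫_ℂ =
        if j ∉ S then star (ε j) else 0 := by
      intro S hS
      rw [inner_smul_right, hξ, sum_inner]
      by_cases hjS : j ∈ S
      · rw [if_neg (not_not.mpr hjS), sum_eq_zero, mul_zero]
        intro S' hS'
        rw [inner_smul_left, hww, if_neg, mul_zero]
        intro heq
        exact (dissoc hL h hz hl hh (mem_powerset.mp hS) (mem_powerset.mp hS') hj heq).1 hjS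
      · rw [if_pos hjS, sum_eq_single (insert j S)]
        · have e1 : H (insert j S) = h j * H S := by
            rw [hH]; simp only; rw [prod_insert hjS]
          have e2 : e (insert j S) = ε j * e S := by
            rw [he]; simp only; rw [prod_insert hjS]
          rw [inner_smul_left, hww, if_pos e1, mul_one, e2, map_mul]
          have := hen S
          rw [Complex.star_def] at this
          rw [Complex.star_def]
          linear_combination (starRingEnd ℂ) (ε j) * this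
        · intro S' hS' hne
          rw [inner_smul_left, hww, if_neg, mul_zero]
          intro heq
          exact hne (dissoc hL h hz hl hh (mem_powerset.mp hS) (mem_powerset.mp hS') hj heq).2
        · intro hS'
          exfalso
          apply hS'
          rw [mem_powerset]
          exact insert_subset (mem_range.mpr hj) (mem_powerset.mp hS)
    rw [sum_congr rfl this, ← sum_filter, sum_const]
    have hfil : (range n).powerset.filter (fun S => j ∉ S) = ((range n).erase j).powerset := by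
      ext S
      rw [mem_filter, mem_powerset, mem_powerset, subset_erase]
    rw [hfil, card_powerset, card_erase_of_mem (mem_range.mpr hj), card_range, nsmul_eq_mul]
    push_cast
    ring
  -- the sum
  set x : U := ∑ j ∈ range n, ε j • v (h j) with hx
  clear_value ξ
  have hsum : ⟪ξ, π x ξ⟫_ℂ = n * 2 ^ (n - 1) := by
    rw [hx, map_sum, _root_.sum_apply, inner_sum]
    have : ∀ j ∈ range n, ⟪ξ, π (ε j • v (h j)) ξ⟫_ℂ = 2 ^ (n - 1) := by
      intro j hj
      rw [map_smul, smul_apply, inner_smul_right, hval j (mem_range.mp hj)]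
      linear_combination (2 : ℂ) ^ (n - 1) * hεn j
    rw [sum_congr rfl this, sum_const, card_range, nsmul_eq_mul]
  have hξn : ‖ξ‖ ^ 2 = 2 ^ n := by
    have h3 : (2 : ℂ) ^ n = ((‖ξ‖ : ℝ) : ℂ) ^ 2 := by
      rw [← hnorm]; exact inner_self_eq_norm_sq_to_K ξ
    have h4 : (((‖ξ‖ ^ 2 : ℝ)) : ℂ) = (((2 : ℝ) ^ n : ℝ) : ℂ) := by
      push_cast
      exact h3.symm
    exact Complex.ofReal_injective h4
  have hle : ‖⟪ξ, π x ξ⟫_ℂ‖ ≤ ‖x‖ * 2 ^ n := by
    refine (norm_inner_le_norm _ _).trans ?_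
    have h6 : ‖π x ξ‖ ≤ ‖x‖ * ‖ξ‖ := by
      refine (ContinuousLinearMap.le_opNorm _ _).trans ?_
      gcongr
      exact NonUnitalStarAlgHom.norm_apply_le π _
    calc ‖ξ‖ * ‖π x ξ‖ ≤ ‖ξ‖ * (‖x‖ * ‖ξ‖) := by gcongr
      _ = ‖x‖ * ‖ξ‖ ^ 2 := by ring
      _ = _ := by rw [hξn]
  rw [hsum, norm_mul, norm_pow, Complex.norm_natCast, Complex.norm_ofNat] at hle
  rcases Nat.eq_zero_or_pos n with hn | hn
  · rw [hn]; simp
  · obtain ⟨m, rfl⟩ : ∃ m, n = m + 1 := ⟨n - 1, by omega⟩
    rw [Nat.add_sub_cancel, pow_succ] at hle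
    have h7 : (0 : ℝ) < 2 ^ m := by positivity
    have h8 : ((m + 1 : ℕ) : ℝ) * 2 ^ m ≤ (‖x‖ * 2) * 2 ^ m := by linarith
    have h9 := le_of_mul_le_mul_right h8 h7
    linarith

end riesz

end Pool.Agent.L0h53.MD
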