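import Mathlib

/-! The conjugate tensor square of a completely positive map on matrices. -/

set_option autoImplicit false
set_option linter.unusedSectionVars false

namespace Pool.Agent.L0h53.MD

open Finset
open scoped InnerProductSpace Matrix

section gform

variable {K : Type} [NormedAddCommGroup K] [InnerProductSpace ℂ K] [CompleteSpace K]
variable {ι : Type} [Fintype ι] [DecidableEq ι]

/-- the matrix of an operator -/
noncomputable def Ym (w : ι → K) (y : K →L[ℂ] K) : Matrix ι ι ℂ := fun s' s => ⟪w s', y (w s)⟫_ℂ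

/-- the quadratic form -/
noncomputable def Gf (w : ι → K) (ε : ι → ℂ) (y : K →L[ℂ] K) : ℂ :=
  ∑ s, ∑ s', ε s * star (ε s') * (((‖⟪w s', y (w s)⟫_ℂ‖ : ℝ) : ℂ) ^ 2)

theorem bessel {w : ι → K} (hw : Orthonormal ℂ w) (x : K) : ∑ s, ‖⟪w s, x⟫_ℂ‖ ^ 2 ≤ ‖x‖ ^ 2 :=
  hw.sum_inner_products_le x

theorem bessel2 {w : ι → K} (hw : Orthonormal ℂ w) (y : K →L[ℂ] K) :
    ∑ s, ∑ s', ‖⟪w s', y (w s)⟫_ℂ‖ ^ 2 ≤ Fintype.card ι * ‖y‖ ^ 2 := by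
  calc ∑ s, ∑ s', ‖⟪w s', y (w s)⟫_ℂ‖ ^ 2 ≤ ∑ _s : ι, ‖y‖ ^ 2 := by
        refine sum_le_sum fun s _ => (bessel hw _).trans ?_
        have h1 := y.le_opNorm (w s)
        rw [hw.1 s, mul_one] at h1
        gcongr
    _ = _ := by rw [sum_const, card_univ, nsmul_eq_mul]

theorem Gf_le {w : ι → K} (hw : Orthonormal ℂ w) {ε : ι → ℂ} (hε : ∀ s, ‖ε s‖ = 1)
    (y : K →L[ℂ] K) : ‖Gf w ε y‖ ≤ Fintype.card ι * ‖y‖ ^ 2 := by
  refine (norm_sum_le _ _).trans ((sum_le_sum fun s _ => norm_sum_le _ _).trans ?_)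
  refine le_trans (le_of_eq ?_) (bessel2 hw y)
  refine sum_congr rfl fun s _ => sum_congr rfl fun s' _ => ?_
  rw [norm_mul, norm_mul, norm_star, hε, hε, norm_pow, Complex.norm_real, norm_norm]
  ring

theorem Gf_sub_le {w : ι → K} (hw : Orthonormal ℂ w) {ε : ι → ℂ} (hε : ∀ s, ‖ε s‖ = 1)
    {y y' : K →L[ℂ] K} (hy : ‖y‖ ≤ 1) (hy' : ‖y'‖ ≤ 1) {δ : ℝ} (hδ : 0 < δ) (h : ‖y - y'‖ ≤ δ) :
    ‖Gf w ε y - Gf w ε y'‖ ≤ 5 / 2 * δ * Fintype.card ι := by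
  have h1 : ‖Gf w ε y - Gf w ε y'‖ ≤ ∑ s, ∑ s', ((1 / (2 * δ)) * ‖⟪w s', (y - y') (w s)⟫_ℂ‖ ^ 2 +
      δ * (‖⟪w s', y (w s)⟫_ℂ‖ ^ 2 + ‖⟪w s', y' (w s)⟫_ℂ‖ ^ 2)) := by
    rw [Gf, Gf, ← sum_sub_distrib]
    refine (norm_sum_le _ _).trans (sum_le_sum fun s _ => ?_)
    rw [← sum_sub_distrib]
    refine (norm_sum_le _ _).trans (sum_le_sum fun s' _ => ?_)
    rw [← mul_sub, norm_mul, norm_mul, norm_star, hε, hε, one_mul, one_mul]
    have e : ⟪w s', (y - y') (w s)⟫_ℂ = ⟪w s', y (w s)⟫_ℂ - ⟪w s', y' (w s)⟫_ℂ := by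
      rw [sub_apply, inner_sub_right]
    rw [e]
    set a := ⟪w s', y (w s)⟫_ℂ
    set b := ⟪w s', y' (w s)⟫_ℂ
    have h2 : ‖(((‖a‖ : ℝ) : ℂ) ^ 2) - (((‖b‖ : ℝ) : ℂ) ^ 2)‖ = |‖a‖ ^ 2 - ‖b‖ ^ 2| := by
      rw [← Complex.ofReal_pow, ← Complex.ofReal_pow, ← Complex.ofReal_sub, Complex.norm_real,
        Real.norm_eq_abs]
    rw [h2]
    have h3 : |‖a‖ ^ 2 - ‖b‖ ^ 2| ≤ ‖a - b‖ * (‖a‖ + ‖b‖) := by
      have h4 : ‖a‖ ^ 2 - ‖b‖ ^ 2 = (‖a‖ - ‖b‖) * (‖a‖ + ‖b‖) := by ring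
      rw [h4, abs_mul, abs_of_nonneg (by positivity : 0 ≤ ‖a‖ + ‖b‖)]
      gcongr
      exact abs_norm_sub_norm_le a b
    refine h3.trans ?_
    set c := ‖a - b‖
    set p := ‖a‖
    set q := ‖b‖
    have hp : 0 ≤ p := norm_nonneg _
    have hq : 0 ≤ q := norm_nonneg _
    have h5 : 0 ≤ (1 / (2 * δ)) * (c - δ * (p + q)) ^ 2 := by positivity
    have h6 : (1 / (2 * δ)) * (c - δ * (p + q)) ^ 2 =
        (1 / (2 * δ)) * c ^ 2 - c * (p + q) + δ / 2 * (p + q) ^ 2 := by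
      field_simp
      ring
    have h7 : δ / 2 * (p + q) ^ 2 ≤ δ * (p ^ 2 + q ^ 2) := by nlinarith [mul_nonneg hδ.le (sq_nonneg (p - q))]
    linarith
  refine h1.trans ?_
  have b1 := bessel2 hw (y - y')
  have b2 := bessel2 hw y
  have b3 := bessel2 hw y'
  simp only [sum_add_distrib, ← mul_sum]
  have hc : (0 : ℝ) ≤ Fintype.card ι := by positivity
  have c1 : (Fintype.card ι : ℝ) * ‖y - y'‖ ^ 2 ≤ Fintype.card ι * δ ^ 2 := by gcongr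
  have c2 : (Fintype.card ι : ℝ) * ‖y‖ ^ 2 ≤ Fintype.card ι * 1 := by
    gcongr
    exact pow_le_one₀ (norm_nonneg _) hy
  have c3 : (Fintype.card ι : ℝ) * ‖y'‖ ^ 2 ≤ Fintype.card ι * 1 := by
    gcongr
    exact pow_le_one₀ (norm_nonneg _) hy'
  have d1 : 1 / (2 * δ) * ∑ s, ∑ s', ‖⟪w s', (y - y') (w s)⟫_ℂ‖ ^ 2 ≤
      1 / (2 * δ) * (Fintype.card ι * δ ^ 2) := by
    gcongr
    exact b1.trans c1
  have d2 : 1 / (2 * δ) * (Fintype.card ι * δ ^ 2) = Fintype.card ι * δ / 2 := by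
    field_simp
  have d3 : δ * (∑ s, ∑ s', ‖⟪w s', y (w s)⟫_ℂ‖ ^ 2 + ∑ s, ∑ s', ‖⟪w s', y' (w s)⟫_ℂ‖ ^ 2) ≤
      δ * (Fintype.card ι * 1 + Fintype.card ι * 1) := by
    gcongr
    · exact b2.trans c2
    · exact b3.trans c3
  linarith

/-- the form as a trace -/
theorem Gf_trace (w : ι → K) (ε : ι → ℂ) (y : K →L[ℂ] K) :
    Gf w ε y = ((Matrix.diagonal ε)ᴴ * Ym w y * Matrix.diagonal ε * (Ym w y)ᴴ).trace := by
  rw [Matrix.trace]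
  simp only [Matrix.diag_apply]
  rw [Gf, sum_comm]
  refine sum_congr rfl fun s' _ => ?_
  rw [Matrix.mul_apply]
  refine sum_congr rfl fun s _ => ?_
  rw [Matrix.diagonal_conjTranspose, Matrix.mul_diagonal, Matrix.diagonal_mul,
    Matrix.conjTranspose_apply, Pi.star_apply]
  have h1 : (((‖⟪w s', y (w s)⟫_ℂ‖ : ℝ) : ℂ) ^ 2) = Ym w y s' s * star (Ym w y s' s) := by
    rw [Complex.star_def, Complex.mul_conj, Complex.normSq_eq_norm_sq]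
    push_cast
    rfl
  rw [h1]
  ring

end gform

section kraus

variable {K : Type} [NormedAddCommGroup K] [InnerProductSpace ℂ K] [CompleteSpace K]
variable {ι : Type} [Fintype ι] [DecidableEq ι] {k : ℕ}

/-- scalar Kraus operators -/
theorem kraus (w : ι → K) (ψ : Matrix (Fin k) (Fin k) ℂ →ₗ[ℂ] (K →L[ℂ] K))
    (Kr : Fin k → Fin k → (K →L[ℂ] K))
    (hψ : ∀ p q, ψ (Matrix.single p q 1) = ∑ l, star (Kr l p) * Kr l q) :
    ∃ (J : Type) (_ : Fintype J) (R : J → Matrix (Fin k) ι ℂ),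
      ∀ a, Ym w (ψ a) = ∑ j, (R j)ᴴ * a * R j := by
  classical
  let E : Submodule ℂ K := Submodule.span ℂ (Set.range fun x : (Fin k × Fin k) × ι =>
    Kr x.1.1 x.1.2 (w x.2))
  have hE : FiniteDimensional ℂ E := FiniteDimensional.span_of_finite ℂ (Set.finite_range _)
  let b := stdOrthonormalBasis ℂ E
  have hmem : ∀ l q s, Kr l q (w s) ∈ E := fun l q s => Submodule.subset_span ⟨((l, q), s), rfl⟩
  refine ⟨Fin k × Fin (Module.finrank ℂ E), inferInstance,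
    fun j => Matrix.of fun q s => ⟪(b j.2 : K), Kr j.1 q (w s)⟫_ℂ, fun a => ?_⟩
  ext s' s
  have h1 : ∀ l p q, ⟪Kr l p (w s'), Kr l q (w s)⟫_ℂ =
      ∑ t, star ⟪(b t : K), Kr l p (w s')⟫_ℂ * ⟪(b t : K), Kr l q (w s)⟫_ℂ := by
    intro l p q
    have := b.sum_inner_mul_inner ⟨_, hmem l p s'⟩ ⟨_, hmem l q s⟩
    have h2 : ⟪(⟨_, hmem l p s'⟩ : E), (⟨_, hmem l q s⟩ : E)⟫_ℂ =
        ⟪Kr l p (w s'), Kr l q (w s)⟫_ℂ := rfl
    rw [← h2, ← this]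
    refine sum_congr rfl fun t _ => ?_
    have h3 : ⟪(⟨_, hmem l p s'⟩ : E), b t⟫_ℂ = ⟪Kr l p (w s'), (b t : K)⟫_ℂ := rfl
    have h4 : ⟪b t, (⟨_, hmem l q s⟩ : E)⟫_ℂ = ⟪(b t : K), Kr l q (w s)⟫_ℂ := rfl
    rw [h3, h4, ← inner_conj_symm]
    rfl
  have h5 : Ym w (ψ a) s' s = ∑ p, ∑ q, a p q * ∑ l, ⟪Kr l p (w s'), Kr l q (w s)⟫_ℂ := by
    have ha : ψ a = ∑ p, ∑ q, a p q • ψ (Matrix.single p q 1) := by
      conv_lhs => rw [Matrix.matrix_eq_sum_single a]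
      rw [map_sum]
      refine sum_congr rfl fun p _ => ?_
      rw [map_sum]
      refine sum_congr rfl fun q _ => ?_
      rw [← map_smul, Matrix.smul_single, smul_eq_mul, mul_one]
    rw [Ym, ha, _root_.sum_apply, inner_sum]
    refine sum_congr rfl fun p _ => ?_
    rw [_root_.sum_apply, inner_sum]
    refine sum_congr rfl fun q _ => ?_
    rw [smul_apply, inner_smul_right, hψ, _root_.sum_apply, inner_sum]
    congr 1
    refine sum_congr rfl fun l _ => ?_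
    rw [mul_apply_eq_comp, ContinuousLinearMap.star_eq_adjoint,
      ContinuousLinearMap.adjoint_inner_right]
  rw [h5, Matrix.sum_apply]
  have h6 : ∀ j : Fin k × Fin (Module.finrank ℂ E),
      ((Matrix.of fun q s => ⟪(b j.2 : K), Kr j.1 q (w s)⟫_ℂ : Matrix (Fin k) ι ℂ)ᴴ * a *
        (Matrix.of fun q s => ⟪(b j.2 : K), Kr j.1 q (w s)⟫_ℂ : Matrix (Fin k) ι ℂ)) s' s =
      ∑ p, ∑ q, a p q * (star ⟪(b j.2 : K), Kr j.1 p (w s')⟫_ℂ * ⟪(b j.2 : K), Kr j.1 q (w s)⟫_ℂ) := by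
    intro j
    rw [Matrix.mul_apply]
    simp only [Matrix.mul_apply, Matrix.conjTranspose_apply, Matrix.of_apply, sum_mul]
    rw [sum_comm]
    refine sum_congr rfl fun p _ => sum_congr rfl fun q _ => ?_
    ring
  simp only [h6]
  rw [Fintype.sum_prod_type]
  simp only [h1, mul_sum]
  -- reorder
  calc ∑ p, ∑ q, ∑ l, ∑ t, a p q * (star ⟪(b t : K), Kr l p (w s')⟫_ℂ * ⟪(b t : K), Kr l q (w s)⟫_ℂ)
      = ∑ p, ∑ l, ∑ q, ∑ t,
        a p q * (star ⟪(b t : K), Kr l p (w s')⟫_ℂ * ⟪(b t : K), Kr l q (w s)⟫_ℂ) := by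
        refine sum_congr rfl fun p _ => sum_comm
    _ = ∑ l, ∑ p, ∑ q, ∑ t,
        a p q * (star ⟪(b t : K), Kr l p (w s')⟫_ℂ * ⟪(b t : K), Kr l q (w s)⟫_ℂ) := sum_comm
    _ = ∑ l, ∑ p, ∑ t, ∑ q,
        a p q * (star ⟪(b t : K), Kr l p (w s')⟫_ℂ * ⟪(b t : K), Kr l q (w s)⟫_ℂ) := by
        refine sum_congr rfl fun l _ => sum_congr rfl fun p _ => sum_comm
    _ = ∑ l, ∑ t, ∑ p, ∑ q,
        a p q * (star ⟪(b t : K), Kr l p (w s')⟫_ℂ * ⟪(b t : K), Kr l q (w s)⟫_ℂ) := by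
        refine sum_congr rfl fun l _ => sum_comm

end kraus

end Pool.Agent.L0h53.MD
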